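import Mathlib

/-!
Graded calculus: `pr 𝒜 P` is the projection of a `G`-graded division ring to the sum of the
components with degree in `P ⊆ G`, and `W 𝒜 P` is its range.
-/

set_option autoImplicit false

namespace Pool.Agent.Work.MP87745.GS

open DirectSum

variable {G : Type*} [Group G] {D : Type*} [DivisionRing D] [DecidableEq (Additive G)]
  (𝒜 : Additive G → AddSubgroup D) [GradedRing 𝒜]

open Classical in
/-- projection to the components with degree in `P` -/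
noncomputable def pr (P : Set G) : D →+ D :=
  (DirectSum.toAddMonoid (fun g : Additive G =>
    if (Additive.toMul g) ∈ P then (𝒜 g).subtype else 0)).comp
    (decomposeAddEquiv 𝒜).toAddMonoidHom

theorem pr_of_mem {g : G} {a : D} (ha : a ∈ 𝒜 (Additive.ofMul g)) (P : Set G)
    [Decidable (g ∈ P)] : pr 𝒜 P a = if g ∈ P then a else 0 := by
  classical
  unfold pr
  simp only [AddMonoidHom.coe_comp, Function.comp_apply, AddEquiv.toAddMonoidHom_eq_coe,
    AddMonoidHom.coe_coe, decomposeAddEquiv_apply]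
  rw [decompose_of_mem 𝒜 ha, DirectSum.toAddMonoid_of, toMul_ofMul]
  split_ifs <;> simp

/-- the sum of the components with degree in `P` -/
noncomputable def W (P : Set G) : AddSubgroup D where
  carrier := {x | pr 𝒜 P x = x}
  zero_mem' := map_zero _
  add_mem' := fun {x y} hx hy => by
    simp only [Set.mem_ofPred_eq] at hx hy ⊢
    rw [map_add, hx, hy]
  neg_mem' := fun {x} hx => by
    simp only [Set.mem_ofPred_eq] at hx ⊢
    rw [map_neg, hx]

theorem mem_W {P : Set G} {x : D} : x ∈ W 𝒜 P ↔ pr 𝒜 P x = x := Iff.rfl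

variable {𝒜} in
/-- induction -/
theorem gr_ind {motive : D → Prop} (zero : motive 0)
    (hom : ∀ (g : G) (a : D), a ∈ 𝒜 (Additive.ofMul g) → motive a)
    (add : ∀ x y, motive x → motive y → motive (x + y)) (x : D) : motive x := by
  induction x using DirectSum.Decomposition.inductionOn 𝒜 with
  | zero => exact zero
  | @homogeneous g m => exact hom (Additive.toMul g) m (by rw [ofMul_toMul]; exact m.2)
  | add a b ha hb => exact add a b ha hb

theorem pr_pr (P Q : Set G) (x : D) : pr 𝒜 P (pr 𝒜 Q x) = pr 𝒜 (P ∩ Q) x := by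
  classical
  induction x using gr_ind (𝒜 := 𝒜) with
  | zero => simp
  | hom g a ha =>
    rw [pr_of_mem 𝒜 ha, pr_of_mem 𝒜 ha]
    by_cases h1 : g ∈ Q
    · rw [if_pos h1, pr_of_mem 𝒜 ha]
      by_cases h2 : g ∈ P
      · rw [if_pos h2, if_pos ⟨h2, h1⟩]
      · rw [if_neg h2, if_neg (fun h => h2 h.1)]
    · rw [if_neg h1, if_neg (fun h => h1 h.2), map_zero]
  | add x y hx hy => rw [map_add, map_add, map_add, hx, hy]

theorem pr_mem (P : Set G) (x : D) : pr 𝒜 P x ∈ W 𝒜 P := by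
  rw [mem_W, pr_pr, Set.inter_self]

theorem pr_mem_inter {P Q : Set G} {x : D} (hx : x ∈ W 𝒜 P) : pr 𝒜 Q x ∈ W 𝒜 (Q ∩ P) := by
  have h : pr 𝒜 Q x = pr 𝒜 (Q ∩ P) x := by
    rw [← pr_pr, (mem_W 𝒜).1 hx]
  rw [h]
  exact pr_mem 𝒜 _ _

theorem W_mono {P Q : Set G} (h : P ⊆ Q) : W 𝒜 P ≤ W 𝒜 Q := by
  intro x hx
  rw [mem_W] at hx ⊢
  rw [← hx, pr_pr, Set.inter_eq_right.2 h]

theorem pr_empty (x : D) : pr 𝒜 ∅ x = 0 := by
  classical
  induction x using gr_ind (𝒜 := 𝒜) with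
  | zero => simp
  | hom g a ha => rw [pr_of_mem 𝒜 ha, if_neg (by simp)]
  | add x y hx hy => rw [map_add, hx, hy, add_zero]

theorem pr_univ (x : D) : pr 𝒜 Set.univ x = x := by
  classical
  induction x using gr_ind (𝒜 := 𝒜) with
  | zero => simp
  | hom g a ha => rw [pr_of_mem 𝒜 ha, if_pos (by simp)]
  | add x y hx hy => rw [map_add, hx, hy]

theorem pr_zero_of {P Q : Set G} (h : ∀ g ∈ P, g ∉ Q) {x : D} (hx : x ∈ W 𝒜 P) :
    pr 𝒜 Q x = 0 := by
  rw [← (mem_W 𝒜).1 hx, pr_pr]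
  have : Q ∩ P = ∅ := by
    ext g
    simp only [Set.mem_inter_iff, Set.mem_empty_iff_false, iff_false, not_and]
    exact fun h1 h2 => h g h2 h1
  rw [this, pr_empty]

/-- an element in two disjoint parts is zero -/
theorem eq_zero_of {P Q : Set G} (h : ∀ g ∈ P, g ∉ Q) {x : D} (hx : x ∈ W 𝒜 P)
    (hx' : x ∈ W 𝒜 Q) : x = 0 := by
  rw [← (mem_W 𝒜).1 hx', pr_zero_of 𝒜 h hx]

/-- the projection only depends on the part of `Q` in `P` -/
theorem pr_congr {P Q Q' : Set G} {x : D} (hx : x ∈ W 𝒜 P) (h : ∀ g ∈ P, g ∈ Q ↔ g ∈ Q') :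
    pr 𝒜 Q x = pr 𝒜 Q' x := by
  rw [← (mem_W 𝒜).1 hx, pr_pr, pr_pr]
  congr 1
  congr 1
  ext g
  simp only [Set.mem_inter_iff]
  constructor
  · exact fun h1 => ⟨(h g h1.2).1 h1.1, h1.2⟩
  · exact fun h1 => ⟨(h g h1.2).2 h1.1, h1.2⟩

theorem pr_eq_self {P Q : Set G} {x : D} (hx : x ∈ W 𝒜 P) (h : P ⊆ Q) : pr 𝒜 Q x = x :=
  W_mono 𝒜 h hx

theorem mem_W_inter {P Q : Set G} {x : D} (hx : x ∈ W 𝒜 P) (hx' : x ∈ W 𝒜 Q) :
    x ∈ W 𝒜 (P ∩ Q) := by
  rw [mem_W] at *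
  rw [← pr_pr, hx', hx]

theorem hom_mem {g : G} {a : D} (ha : a ∈ 𝒜 (Additive.ofMul g)) {P : Set G} (hg : g ∈ P) :
    a ∈ W 𝒜 P := by
  classical
  rw [mem_W, pr_of_mem 𝒜 ha, if_pos hg]

theorem one_mem_W {P : Set G} (hP : (1 : G) ∈ P) : (1 : D) ∈ W 𝒜 P := by
  have h1 : (1 : D) ∈ 𝒜 (Additive.ofMul (1 : G)) := SetLike.GradedOne.one_mem (A := 𝒜)
  exact hom_mem 𝒜 h1 hP

theorem pr_one (P : Set G) [Decidable ((1 : G) ∈ P)] :
    pr 𝒜 P (1 : D) = if (1 : G) ∈ P then 1 else 0 := by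
  have h1 : (1 : D) ∈ 𝒜 (Additive.ofMul (1 : G)) := SetLike.GradedOne.one_mem (A := 𝒜)
  exact pr_of_mem 𝒜 h1 P

/-- induction inside `W P` -/
theorem W_ind {P : Set G} {motive : D → Prop} (zero : motive 0)
    (hom : ∀ (g : G) (a : D), g ∈ P → a ∈ 𝒜 (Additive.ofMul g) → motive a)
    (add : ∀ x y, motive x → motive y → motive (x + y)) {x : D} (hx : x ∈ W 𝒜 P) :
    motive x := by
  classical
  have h : ∀ x : D, motive (pr 𝒜 P x) := by
    intro x
    induction x using gr_ind (𝒜 := 𝒜) with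
    | zero => rw [map_zero]; exact zero
    | hom g a ha =>
      rw [pr_of_mem 𝒜 ha]
      by_cases h1 : g ∈ P
      · rw [if_pos h1]; exact hom g a h1 ha
      · rw [if_neg h1]; exact zero
    | add x y hx hy => rw [map_add]; exact add _ _ hx hy
  rw [← (mem_W 𝒜).1 hx]
  exact h x

theorem pr_mul_left {P Q R : Set G} (h : ∀ g ∈ P, ∀ u, g * u ∈ Q ↔ u ∈ R) {x : D}
    (hx : x ∈ W 𝒜 P) (y : D) : pr 𝒜 Q (x * y) = x * pr 𝒜 R y := by
  classical
  refine W_ind 𝒜 (P := P) (motive := fun x => pr 𝒜 Q (x * y) = x * pr 𝒜 R y) ?_ ?_ ?_ hx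
  · simp
  · intro g a hg ha
    induction y using gr_ind (𝒜 := 𝒜) with
    | zero => simp
    | hom u c hc =>
      have h1 : a * c ∈ 𝒜 (Additive.ofMul (g * u)) := by
        rw [ofMul_mul]
        exact SetLike.GradedMul.mul_mem ha hc
      rw [pr_of_mem 𝒜 h1, pr_of_mem 𝒜 hc]
      by_cases h2 : u ∈ R
      · rw [if_pos h2, if_pos ((h g hg u).2 h2)]
      · rw [if_neg h2, if_neg (fun h3 => h2 ((h g hg u).1 h3)), mul_zero]
    | add y z hy hz => rw [mul_add, map_add, map_add, mul_add, hy, hz]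
  · intro x z hx hz
    rw [add_mul, map_add, hx, hz, add_mul]

theorem pr_mul_right {P Q R : Set G} (h : ∀ g ∈ P, ∀ u, u * g ∈ Q ↔ u ∈ R) {y : D}
    (hy : y ∈ W 𝒜 P) (x : D) : pr 𝒜 Q (x * y) = pr 𝒜 R x * y := by
  classical
  refine W_ind 𝒜 (P := P) (motive := fun y => pr 𝒜 Q (x * y) = pr 𝒜 R x * y) ?_ ?_ ?_ hy
  · simp
  · intro g a hg ha
    induction x using gr_ind (𝒜 := 𝒜) with
    | zero => simp
    | hom u c hc =>
      have h1 : c * a ∈ 𝒜 (Additive.ofMul (u * g)) := by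
        rw [ofMul_mul]
        exact SetLike.GradedMul.mul_mem hc ha
      rw [pr_of_mem 𝒜 h1, pr_of_mem 𝒜 hc]
      by_cases h2 : u ∈ R
      · rw [if_pos h2, if_pos ((h g hg u).2 h2)]
      · rw [if_neg h2, if_neg (fun h3 => h2 ((h g hg u).1 h3)), zero_mul]
    | add y z hy hz => rw [add_mul, map_add, map_add, add_mul, hy, hz]
  · intro x z hx hz
    rw [mul_add, map_add, hx, hz, mul_add]

theorem mul_mem_W {P Q R : Set G} (h : ∀ g ∈ P, ∀ u ∈ Q, g * u ∈ R) {x y : D}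
    (hx : x ∈ W 𝒜 P) (hy : y ∈ W 𝒜 Q) : x * y ∈ W 𝒜 R := by
  refine W_ind 𝒜 (P := P) (motive := fun x => x * y ∈ W 𝒜 R) ?_ ?_ ?_ hx
  · rw [zero_mul]; exact zero_mem _
  · intro g a hg ha
    refine W_ind 𝒜 (P := Q) (motive := fun y => a * y ∈ W 𝒜 R) ?_ ?_ ?_ hy
    · rw [mul_zero]; exact zero_mem _
    · intro u c hu hc
      have h1 : a * c ∈ 𝒜 (Additive.ofMul (g * u)) := by
        rw [ofMul_mul]
        exact SetLike.GradedMul.mul_mem ha hc
      exact hom_mem 𝒜 h1 (h g hg u hu)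
    · intro y z hy hz
      rw [mul_add]; exact add_mem hy hz
  · intro x z hx hz
    rw [add_mul]; exact add_mem hx hz

/-- partition -/
theorem sum_pr {ι : Type*} [Fintype ι] [DecidableEq ι] (P : Set G) (f : G → ι) (x : D) :
    ∑ l, pr 𝒜 {h | h ∈ P ∧ f h = l} x = pr 𝒜 P x := by
  classical
  induction x using gr_ind (𝒜 := 𝒜) with
  | zero => simp
  | hom g a ha =>
    have h1 : ∀ l, pr 𝒜 {h | h ∈ P ∧ f h = l} a = if g ∈ P then (if f g = l then a else 0)
        else 0 := by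
      intro l
      rw [pr_of_mem 𝒜 ha]
      by_cases h2 : g ∈ P <;> by_cases h3 : f g = l <;> simp [h2, h3]
    rw [Finset.sum_congr rfl (fun l _ => h1 l), pr_of_mem 𝒜 ha]
    by_cases h2 : g ∈ P
    · simp only [if_pos h2]
      rw [Finset.sum_ite_eq]
      simp
    · simp only [if_neg h2]
      simp
  | add x y hx hy => simp only [map_add, Finset.sum_add_distrib, hx, hy]

/-- inverses of homogeneous elements -/
theorem inv_mem_singleton {g : G} {x : D} (hx : x ∈ W 𝒜 ({g} : Set G)) (hx0 : x ≠ 0) :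
    x⁻¹ ∈ W 𝒜 ({g⁻¹} : Set G) := by
  classical
  have h1 : pr 𝒜 ({1} : Set G) (x * x⁻¹) = x * pr 𝒜 ({g⁻¹} : Set G) x⁻¹ := by
    refine pr_mul_left 𝒜 (P := {g}) ?_ hx _
    intro u hu v
    rw [Set.mem_singleton_iff] at hu
    rw [hu, Set.mem_singleton_iff, Set.mem_singleton_iff, mul_eq_one_iff_eq_inv']
  rw [mul_inv_cancel₀ hx0, pr_one, if_pos (by simp)] at h1
  rw [mem_W]
  exact (eq_inv_of_mul_eq_one_right h1.symm)

/-- `W` of a subgroup, as a subfield -/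
noncomputable def WF (U : Subgroup G) : Subfield D where
  carrier := W 𝒜 (U : Set G)
  one_mem' := one_mem_W 𝒜 U.one_mem
  mul_mem' := fun {x y} hx hy => mul_mem_W 𝒜 (fun g hg u hu => U.mul_mem hg hu) hx hy
  zero_mem' := zero_mem (W 𝒜 (U : Set G))
  add_mem' := fun {x y} hx hy => add_mem (S := AddSubgroup D) (s := W 𝒜 (U : Set G)) hx hy
  neg_mem' := fun {x} hx => neg_mem (S := AddSubgroup D) (s := W 𝒜 (U : Set G)) hx
  inv_mem' := fun x hx => by
    classical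
    by_cases hx0 : x = 0
    · rw [hx0, inv_zero]; exact zero_mem (W 𝒜 (U : Set G))
    have h1 : pr 𝒜 (U : Set G) (x * x⁻¹) = x * pr 𝒜 (U : Set G) x⁻¹ := by
      refine pr_mul_left 𝒜 (P := U) ?_ hx _
      intro u hu v
      exact U.mul_mem_cancel_left hu
    rw [mul_inv_cancel₀ hx0, pr_one, if_pos (show (1 : G) ∈ (U : Set G) from U.one_mem)] at h1
    show pr 𝒜 (U : Set G) x⁻¹ = x⁻¹
    exact (eq_inv_of_mul_eq_one_right h1.symm)

theorem mem_WF {U : Subgroup G} {x : D} : x ∈ WF 𝒜 U ↔ x ∈ W 𝒜 (U : Set G) := Iff.rfl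

theorem exists_finset (x : D) : ∃ A : Finset G, x ∈ W 𝒜 (A : Set G) := by
  classical
  induction x using gr_ind (𝒜 := 𝒜) with
  | zero => exact ⟨∅, zero_mem _⟩
  | hom g a ha => exact ⟨{g}, hom_mem 𝒜 ha (by simp)⟩
  | add x y hx hy =>
    obtain ⟨A, hA⟩ := hx
    obtain ⟨B, hB⟩ := hy
    refine ⟨A ∪ B, add_mem (W_mono 𝒜 ?_ hA) (W_mono 𝒜 ?_ hB)⟩
    · rw [Finset.coe_union]; exact Set.subset_union_left
    · rw [Finset.coe_union]; exact Set.subset_union_right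

end Pool.Agent.Work.MP87745.GS
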