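import Mathlib

set_option autoImplicit false

namespace Pool.Agent.Work.MP87745.GS

theorem elim_path {D X : Type*} [DivisionRing D] [DecidableEq X] (κ : X → X → D)
    (J : Finset X) (i : X) (l m : X)
    (h : Relation.ReflTransGen (fun u v => κ v u ≠ 0 ∧ v ∈ insert i J) l m) :
    Relation.ReflTransGen (fun u v => κ v u ≠ 0 ∧ v ∈ J) l m ∨
      ((∃ m', Relation.ReflTransGen (fun u v => κ v u ≠ 0 ∧ v ∈ J) l m' ∧ κ i m' ≠ 0) ∧
        Relation.ReflTransGen (fun u v => κ v u ≠ 0 ∧ v ∈ J) i m) := by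
  induction h with
  | refl => exact Or.inl Relation.ReflTransGen.refl
  | @tail b c hb hc ih =>
    obtain ⟨h1, h2⟩ := hc
    rcases Finset.mem_insert.1 h2 with h3 | h3
    · subst h3
      rcases ih with h4 | h4
      · exact Or.inr ⟨⟨b, h4, h1⟩, Relation.ReflTransGen.refl⟩
      · exact Or.inr ⟨h4.1, Relation.ReflTransGen.refl⟩
    · rcases ih with h4 | h4
      · exact Or.inl (h4.tail ⟨h1, h3⟩)
      · exact Or.inr ⟨h4.1, h4.2.tail ⟨h1, h3⟩⟩

theorem elim_aux {D X : Type*} [DivisionRing D] [Fintype X] [DecidableEq X] (κ : X → X → D)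
    (θ : X → D) (K : Finset X → Subfield D) (hmono : ∀ J J', J ⊆ J' → K J ≤ K J')
    (hκ : ∀ k l, κ k l ∈ K ∅) (J0 : Finset X)
    (hθ1 : ∀ J ⊆ J0, ∀ i ∈ J0, i ∉ J → θ i ∉ K J) (hθ2 : ∀ i ∈ J0, θ i ∈ K {i})
    (J : Finset X) : J ⊆ J0 →
    ∃ κ' : X → X → D, (∀ k l, κ' k l ∈ K J) ∧
      (∀ y : X → D, (∀ i ∈ J, (∑ l, κ i l * y l) + θ i * y i = 0) →
        ∀ k ∉ J, ∑ l, κ k l * y l = ∑ l ∈ Jᶜ, κ' k l * y l) ∧
      (∀ k ∉ J, ∀ l ∉ J,
        (∃ m, Relation.ReflTransGen (fun u v => κ v u ≠ 0 ∧ v ∈ J) l m ∧ κ k m ≠ 0) →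
          κ' k l ≠ 0) := by
  induction J using Finset.induction_on with
  | empty =>
    intro _
    refine ⟨κ, hκ, fun y _ k _ => by simp, fun k _ l _ h => ?_⟩
    obtain ⟨m, h1, h2⟩ := h
    have : l = m := by
      clear h2
      induction h1 with
      | refl => rfl
      | tail _ hc _ => exact absurd hc.2 (Finset.notMem_empty _)
    rwa [this]
  | insert i J hi ih =>
    intro hJ
    have hJ1 : J ⊆ J0 := fun x hx => hJ (Finset.mem_insert_of_mem hx)
    have hi0 : i ∈ J0 := hJ (Finset.mem_insert_self _ _)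
    obtain ⟨κ₁, a1, a2, a3⟩ := ih hJ1
    have hθi : θ i ∉ K J := hθ1 J hJ1 i hi0 hi
    set P := κ₁ i i + θ i with hP
    have hP0 : P ≠ 0 := by
      intro h0
      apply hθi
      have : θ i = - κ₁ i i := by
        rw [hP] at h0
        exact eq_neg_of_add_eq_zero_right h0
      rw [this]
      exact neg_mem (a1 i i)
    have hle : K J ≤ K (insert i J) := hmono _ _ (Finset.subset_insert _ _)
    have hθm : θ i ∈ K (insert i J) := hmono {i} _ (by simp) (hθ2 i hi0)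
    have hPm : P ∈ K (insert i J) := add_mem (hle (a1 i i)) hθm
    refine ⟨fun k l => κ₁ k l - κ₁ k i * P⁻¹ * κ₁ i l, fun k l => ?_, fun y hy k hk => ?_,
      fun k hk l hl h => ?_⟩
    · exact sub_mem (hle (a1 k l)) (mul_mem (mul_mem (hle (a1 k i)) (inv_mem hPm)) (hle (a1 i l)))
    · have hy1 : ∀ j ∈ J, (∑ l, κ j l * y l) + θ j * y j = 0 :=
        fun j hj => hy j (Finset.mem_insert_of_mem hj)
      have hkJ : k ∉ J := fun h => hk (Finset.mem_insert_of_mem h)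
      have e1 := a2 y hy1 k hkJ
      have e2 := a2 y hy1 i hi
      have e3 := hy i (Finset.mem_insert_self _ _)
      have hc : Jᶜ = insert i (insert i J)ᶜ := by
        ext x
        simp only [Finset.mem_compl, Finset.mem_insert, not_or]
        constructor
        · intro h
          by_cases hx : x = i
          · exact Or.inl hx
          · exact Or.inr ⟨hx, h⟩
        · rintro (h | h)
          · rw [h]; exact hi
          · exact h.2
      have hni : i ∉ (insert i J)ᶜ := by simp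
      rw [hc, Finset.sum_insert hni] at e1 e2
      rw [e2] at e3
      have e4 : P * y i = - ∑ l ∈ (insert i J)ᶜ, κ₁ i l * y l := by
        rw [hP, add_mul]
        have : κ₁ i i * y i + θ i * y i + ∑ l ∈ (insert i J)ᶜ, κ₁ i l * y l = 0 := by
          rw [← e3]; abel
        exact eq_neg_of_add_eq_zero_left this
      have e5 : y i = - (P⁻¹ * ∑ l ∈ (insert i J)ᶜ, κ₁ i l * y l) := by
        calc y i = P⁻¹ * (P * y i) := by rw [← mul_assoc, inv_mul_cancel₀ hP0, one_mul]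
          _ = _ := by rw [e4, mul_neg]
      rw [e1, e5, mul_neg, ← mul_assoc, Finset.mul_sum, ← Finset.sum_neg_distrib,
        ← Finset.sum_add_distrib]
      refine Finset.sum_congr rfl fun l _ => ?_
      rw [sub_mul, mul_assoc (κ₁ k i * P⁻¹)]
      abel
    · have hkJ : k ∉ J := fun h => hk (Finset.mem_insert_of_mem h)
      have hlJ : l ∉ J := fun h => hl (Finset.mem_insert_of_mem h)
      have key : κ₁ k i ≠ 0 → κ₁ i l ≠ 0 → κ₁ k l - κ₁ k i * P⁻¹ * κ₁ i l ≠ 0 := by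
        intro b1 b2 h0
        apply hθi
        have h1 : κ₁ k l = κ₁ k i * P⁻¹ * κ₁ i l := sub_eq_zero.1 h0
        have h2 : P⁻¹ = (κ₁ k i)⁻¹ * κ₁ k l * (κ₁ i l)⁻¹ := by
          rw [h1, mul_assoc (κ₁ k i), ← mul_assoc (κ₁ k i)⁻¹, inv_mul_cancel₀ b1, one_mul,
            mul_assoc, mul_inv_cancel₀ b2, mul_one]
        have h3 : P⁻¹ ∈ K J := by
          rw [h2]
          exact mul_mem (mul_mem (inv_mem (a1 k i)) (a1 k l)) (inv_mem (a1 i l))
        have h4 : P ∈ K J := by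
          have := inv_mem h3
          rwa [inv_inv] at this
        have h5 : θ i = P - κ₁ i i := by rw [hP]; abel
        rw [h5]
        exact sub_mem h4 (a1 i i)
      obtain ⟨m, h1, h2⟩ := h
      rcases elim_path κ J i l m h1 with h3 | ⟨h3, h4⟩
      · have hkl : κ₁ k l ≠ 0 := a3 k hkJ l hlJ ⟨m, h3, h2⟩
        by_cases b1 : κ₁ k i = 0
        · simpa [b1] using hkl
        · by_cases b2 : κ₁ i l = 0
          · simpa [b2] using hkl
          · exact key b1 b2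
      · exact key (a3 k hkJ i hi ⟨m, h4, h2⟩) (a3 i hi l hlJ h3)

/-- statement ELIM -/
theorem elim {D X : Type*} [DivisionRing D] [Fintype X] [DecidableEq X] (κ : X → X → D)
    (θ : X → D) (K : Finset X → Subfield D) (hmono : ∀ J J', J ⊆ J' → K J ≤ K J')
    (hκ : ∀ k l, κ k l ∈ K ∅) (J0 : Finset X)
    (hθ1 : ∀ J ⊆ J0, ∀ i ∈ J0, i ∉ J → θ i ∉ K J) (hθ2 : ∀ i ∈ J0, θ i ∈ K {i}) :
    ∃ κ' : X → X → D, (∀ k l, κ' k l ∈ K J0) ∧
      (∀ y : X → D, (∀ i ∈ J0, (∑ l, κ i l * y l) + θ i * y i = 0) →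
        ∀ k ∉ J0, ∑ l, κ k l * y l = ∑ l ∈ J0ᶜ, κ' k l * y l) ∧
      (∀ k ∉ J0, ∀ l ∉ J0,
        (∃ m, Relation.ReflTransGen (fun u v => κ v u ≠ 0 ∧ v ∈ J0) l m ∧ κ k m ≠ 0) →
          κ' k l ≠ 0) :=
  elim_aux κ θ K hmono hκ J0 hθ1 hθ2 J0 (Finset.Subset.refl _)

end Pool.Agent.Work.MP87745.GS
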