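import Mathlib
import Pool.Agent.Work.MP_87745a_al_gs.Gr

/-!
Two exponent homomorphisms `x₁, x₂` on a subgroup `A`, and the corresponding parts of `W A`.
-/

set_option autoImplicit false

namespace Pool.Agent.Work.MP87745.GS

variable {G : Type*} [Group G] {p : ℕ}

/-- `x₁`, `x₂` are homomorphisms on `A` -/
structure Ex (A : Subgroup G) (x₁ x₂ : G → ZMod p) : Prop where
  mul₁ : ∀ g ∈ A, ∀ h ∈ A, x₁ (g * h) = x₁ g + x₁ h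
  mul₂ : ∀ g ∈ A, ∀ h ∈ A, x₂ (g * h) = x₂ g + x₂ h

/-- the elements of `A` with exponents `s`, `t` -/
def bx (A : Subgroup G) (x₁ x₂ : G → ZMod p) (s t : ZMod p) : Set G :=
  {h | h ∈ A ∧ x₁ h = s ∧ x₂ h = t}

variable {A : Subgroup G} {x₁ x₂ : G → ZMod p}

theorem bx_symm (s t : ZMod p) : bx A x₂ x₁ t s = bx A x₁ x₂ s t := by
  ext g
  exact ⟨fun h => ⟨h.1, h.2.2, h.2.1⟩, fun h => ⟨h.1, h.2.2, h.2.1⟩⟩

theorem bx_sub (s t : ZMod p) : bx A x₁ x₂ s t ⊆ (A : Set G) := fun _ h => h.1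

namespace Ex

theorem symm (E : Ex A x₁ x₂) : Ex A x₂ x₁ := ⟨E.mul₂, E.mul₁⟩

theorem one₁ (E : Ex A x₁ x₂) : x₁ 1 = 0 := by
  have h := E.mul₁ 1 A.one_mem 1 A.one_mem
  rw [mul_one] at h
  exact left_eq_add.1 h

theorem one₂ (E : Ex A x₁ x₂) : x₂ 1 = 0 := E.symm.one₁

theorem one_mem (E : Ex A x₁ x₂) : (1 : G) ∈ bx A x₁ x₂ 0 0 := ⟨A.one_mem, E.one₁, E.one₂⟩

theorem mul_mem (E : Ex A x₁ x₂) {g h : G} {s t s' t' : ZMod p} (hg : g ∈ bx A x₁ x₂ s t)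
    (hh : h ∈ bx A x₁ x₂ s' t') : g * h ∈ bx A x₁ x₂ (s + s') (t + t') :=
  ⟨A.mul_mem hg.1 hh.1, by rw [E.mul₁ g hg.1 h hh.1, hg.2.1, hh.2.1],
    by rw [E.mul₂ g hg.1 h hh.1, hg.2.2, hh.2.2]⟩

theorem left_iff (E : Ex A x₁ x₂) {g : G} {s t : ZMod p} (hg : g ∈ bx A x₁ x₂ s t) (u : G)
    (s' t' : ZMod p) : g * u ∈ bx A x₁ x₂ s' t' ↔ u ∈ bx A x₁ x₂ (s' - s) (t' - t) := by
  constructor
  · intro h
    have hu : u ∈ A := (A.mul_mem_cancel_left hg.1).1 h.1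
    refine ⟨hu, ?_, ?_⟩
    · rw [← h.2.1, E.mul₁ g hg.1 u hu, hg.2.1, add_sub_cancel_left]
    · rw [← h.2.2, E.mul₂ g hg.1 u hu, hg.2.2, add_sub_cancel_left]
  · intro h
    have h1 := E.mul_mem hg h
    rwa [add_sub_cancel, add_sub_cancel] at h1

theorem right_iff (E : Ex A x₁ x₂) {g : G} {s t : ZMod p} (hg : g ∈ bx A x₁ x₂ s t) (u : G)
    (s' t' : ZMod p) : u * g ∈ bx A x₁ x₂ s' t' ↔ u ∈ bx A x₁ x₂ (s' - s) (t' - t) := by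
  constructor
  · intro h
    have hu : u ∈ A := (A.mul_mem_cancel_right hg.1).1 h.1
    refine ⟨hu, ?_, ?_⟩
    · rw [← h.2.1, E.mul₁ u hu g hg.1, hg.2.1, add_sub_cancel_right]
    · rw [← h.2.2, E.mul₂ u hu g hg.1, hg.2.2, add_sub_cancel_right]
  · intro h
    have h1 := E.mul_mem h hg
    rwa [sub_add_cancel, sub_add_cancel] at h1

/-- the subgroup `x₁ = x₂ = 0` -/
def ker (E : Ex A x₁ x₂) : Subgroup G where
  carrier := bx A x₁ x₂ 0 0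
  one_mem' := E.one_mem
  mul_mem' := fun {g h} hg hh => by
    have := E.mul_mem hg hh
    rwa [add_zero] at this
  inv_mem' := fun {g} hg => by
    have h1 := (E.left_iff hg g⁻¹ 0 0).1 (by rw [mul_inv_cancel]; exact E.one_mem)
    rwa [sub_zero] at h1

/-- the subgroup `x₁ = 0` -/
def ker₁ (E : Ex A x₁ x₂) : Subgroup G where
  carrier := {h | h ∈ A ∧ x₁ h = 0}
  one_mem' := ⟨A.one_mem, E.one₁⟩
  mul_mem' := fun {g h} hg hh => ⟨A.mul_mem hg.1 hh.1, by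
    rw [E.mul₁ g hg.1 h hh.1, hg.2, hh.2, add_zero]⟩
  inv_mem' := fun {g} hg => ⟨A.inv_mem hg.1, by
    have h1 := E.mul₁ g hg.1 g⁻¹ (A.inv_mem hg.1)
    rw [mul_inv_cancel, E.one₁, hg.2, zero_add] at h1
    exact h1.symm⟩

/-- the subgroup `x₂ = 0` -/
def ker₂ (E : Ex A x₁ x₂) : Subgroup G := E.symm.ker₁

theorem mem_ker {E : Ex A x₁ x₂} {g : G} : g ∈ E.ker ↔ g ∈ A ∧ x₁ g = 0 ∧ x₂ g = 0 := Iff.rfl

theorem mem_ker₁ {E : Ex A x₁ x₂} {g : G} : g ∈ E.ker₁ ↔ g ∈ A ∧ x₁ g = 0 := Iff.rfl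

theorem mem_ker₂ {E : Ex A x₁ x₂} {g : G} : g ∈ E.ker₂ ↔ g ∈ A ∧ x₂ g = 0 := Iff.rfl

variable {D : Type*} [DivisionRing D] [DecidableEq (Additive G)]
  (𝒜 : Additive G → AddSubgroup D) [GradedRing 𝒜]

theorem pr_mul (E : Ex A x₁ x₂) {s t : ZMod p} {x : D} (hx : x ∈ W 𝒜 (bx A x₁ x₂ s t)) (y : D)
    (s' t' : ZMod p) : pr 𝒜 (bx A x₁ x₂ s' t') (x * y) =
      x * pr 𝒜 (bx A x₁ x₂ (s' - s) (t' - t)) y :=
  pr_mul_left 𝒜 (fun _ hg u => E.left_iff hg u s' t') hx y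

theorem pr_mul' (E : Ex A x₁ x₂) {s t : ZMod p} {y : D} (hy : y ∈ W 𝒜 (bx A x₁ x₂ s t)) (x : D)
    (s' t' : ZMod p) : pr 𝒜 (bx A x₁ x₂ s' t') (x * y) =
      pr 𝒜 (bx A x₁ x₂ (s' - s) (t' - t)) x * y :=
  pr_mul_right 𝒜 (fun _ hg u => E.right_iff hg u s' t') hy x

/-- multiplication by elements of exponents `0` on the left -/
theorem pr_mul0 (E : Ex A x₁ x₂) {x : D} (hx : x ∈ W 𝒜 (bx A x₁ x₂ 0 0)) (y : D)
    (s t : ZMod p) : pr 𝒜 (bx A x₁ x₂ s t) (x * y) = x * pr 𝒜 (bx A x₁ x₂ s t) y := by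
  rw [E.pr_mul 𝒜 hx, sub_zero, sub_zero]

/-- multiplication by elements of exponents `0` on the right -/
theorem pr_mul0' (E : Ex A x₁ x₂) {y : D} (hy : y ∈ W 𝒜 (bx A x₁ x₂ 0 0)) (x : D)
    (s t : ZMod p) : pr 𝒜 (bx A x₁ x₂ s t) (x * y) = pr 𝒜 (bx A x₁ x₂ s t) x * y := by
  rw [E.pr_mul' 𝒜 hy, sub_zero, sub_zero]

end Ex

variable {D : Type*} [DivisionRing D] [DecidableEq (Additive G)]
  (𝒜 : Additive G → AddSubgroup D) [GradedRing 𝒜]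

/-- an element of `W A` is the sum of its parts -/
theorem sum_bx [Fact p.Prime] {z : D} (hz : z ∈ W 𝒜 (A : Set G)) :
    ∑ s : ZMod p, ∑ t : ZMod p, pr 𝒜 (bx A x₁ x₂ s t) z = z := by
  classical
  have h1 := sum_pr 𝒜 (A : Set G) (fun g => (x₁ g, x₂ g)) z
  rw [(mem_W 𝒜).1 hz, Fintype.sum_prod_type] at h1
  conv_rhs => rw [← h1]
  refine Finset.sum_congr rfl (fun s _ => Finset.sum_congr rfl (fun t _ => ?_))
  congr 2
  ext g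
  simp only [bx, Set.mem_ofPred_eq, SetLike.mem_coe, Prod.mk.injEq]

end Pool.Agent.Work.MP87745.GS
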