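import Mathlib
import Pool.Agent.Work.MP_87745a_al_gs.Bx

set_option autoImplicit false

namespace Pool.Agent.Work.MP87745.GS

variable {G : Type*} [Group G] {p : ℕ} {A : Subgroup G} {x₁ x₂ : G → ZMod p}
  {D : Type*} [DivisionRing D] [DecidableEq (Additive G)]
  (𝒜 : Additive G → AddSubgroup D) [GradedRing 𝒜]

/-- block EPS: the inverse of `lam + θ` -/
theorem eps [Fact p.Prime] (E : Ex A x₁ x₂) {T : G} (hT : T ∈ bx A x₁ x₂ 1 0) {θ lam : D}
    (hθ : θ ∈ W 𝒜 ({T} : Set G)) (hθ0 : θ ≠ 0) (hlam : lam ∈ W 𝒜 (bx A x₁ x₂ 0 0)) :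
    lam + θ ≠ 0 ∧ (lam + θ)⁻¹ ∈ W 𝒜 (E.ker₂ : Set G) ∧
      (lam ≠ 0 → ∀ s, pr 𝒜 (bx A x₁ x₂ s 0) (lam + θ)⁻¹ ≠ 0) ∧
      (lam = 0 → ∀ s, pr 𝒜 (bx A x₁ x₂ s 0) (lam + θ)⁻¹ ≠ 0 ↔ s = -1) := by
  classical
  have hθ' : θ ∈ W 𝒜 (bx A x₁ x₂ 1 0) :=
    W_mono 𝒜 (by intro g hg; rw [Set.mem_singleton_iff] at hg; rw [hg]; exact hT) hθ
  have h10 : (1 : ZMod p) ≠ 0 := one_ne_zero
  have hne : lam + θ ≠ 0 := by
    intro h0
    have h1 : pr 𝒜 (bx A x₁ x₂ 1 0) (lam + θ) = θ := by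
      rw [map_add, pr_zero_of 𝒜 (P := bx A x₁ x₂ 0 0) (fun g hg hg' =>
        h10 (hg'.2.1.symm.trans hg.2.1)) hlam, zero_add]
      exact hθ'
    rw [h0, map_zero] at h1
    exact hθ0 h1.symm
  have hk : (lam + θ)⁻¹ ∈ W 𝒜 (E.ker₂ : Set G) := by
    rw [← mem_WF]
    apply inv_mem
    apply add_mem
    · rw [mem_WF]; exact W_mono 𝒜 (P := bx A x₁ x₂ 0 0) (Q := (E.ker₂ : Set G))
        (fun g hg => ⟨hg.1, hg.2.2⟩) hlam
    · rw [mem_WF]; exact W_mono 𝒜 (P := bx A x₁ x₂ 1 0) (Q := (E.ker₂ : Set G))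
        (fun g hg => ⟨hg.1, hg.2.2⟩) hθ'
  have hrec : ∀ s : ZMod p, lam * pr 𝒜 (bx A x₁ x₂ s 0) (lam + θ)⁻¹ +
      θ * pr 𝒜 (bx A x₁ x₂ (s - 1) 0) (lam + θ)⁻¹ = if s = 0 then 1 else 0 := by
    intro s
    have h1 : pr 𝒜 (bx A x₁ x₂ s 0) ((lam + θ) * (lam + θ)⁻¹) = if s = 0 then 1 else 0 := by
      rw [mul_inv_cancel₀ hne, pr_one]
      have h2 : (1 : G) ∈ bx A x₁ x₂ s 0 ↔ s = 0 :=
        ⟨fun h => h.2.1.symm.trans E.one₁, fun h => h ▸ E.one_mem⟩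
      by_cases hs : s = 0
      · rw [if_pos hs, if_pos (h2.2 hs)]
      · rw [if_neg hs, if_neg (fun h => hs (h2.1 h))]
    rw [← h1, add_mul, map_add, E.pr_mul0 𝒜 hlam, E.pr_mul 𝒜 hθ', sub_zero]
  refine ⟨hne, hk, ?_, ?_⟩
  · intro hl
    have key : ∀ n : ℕ, n < p → (pr 𝒜 (bx A x₁ x₂ (n : ZMod p) 0) (lam + θ)⁻¹ = 0 ↔
        pr 𝒜 (bx A x₁ x₂ 0 0) (lam + θ)⁻¹ = 0) := by
      intro n
      induction n with
      | zero => intro _; rw [Nat.cast_zero]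
      | succ n ih =>
        intro hn
        rw [← ih (by omega)]
        have h1 := hrec ((n + 1 : ℕ) : ZMod p)
        have h2 : ((n + 1 : ℕ) : ZMod p) ≠ 0 := by
          intro h
          rw [ZMod.natCast_eq_zero_iff] at h
          exact absurd (Nat.le_of_dvd (by omega) h) (by omega)
        rw [if_neg h2] at h1
        have h3 : ((n + 1 : ℕ) : ZMod p) - 1 = (n : ZMod p) := by push_cast; ring
        rw [h3] at h1
        constructor
        · intro h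
          rw [h, mul_zero, zero_add] at h1
          exact (mul_eq_zero.1 h1).resolve_left hθ0
        · intro h
          rw [h, mul_zero, add_zero] at h1
          exact (mul_eq_zero.1 h1).resolve_left hl
    have key' : ∀ s : ZMod p, (pr 𝒜 (bx A x₁ x₂ s 0) (lam + θ)⁻¹ = 0 ↔
        pr 𝒜 (bx A x₁ x₂ 0 0) (lam + θ)⁻¹ = 0) := by
      intro s
      have h1 := key s.val (ZMod.val_lt s)
      rwa [ZMod.natCast_zmod_val] at h1
    intro s hs
    rw [key'] at hs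
    have h1 := hrec 0
    rw [hs, (key' (0 - 1)).2 hs, mul_zero, mul_zero, add_zero, if_pos rfl] at h1
    exact zero_ne_one h1
  · intro hl s
    have h1 := hrec (s + 1)
    rw [hl, zero_mul, zero_add, add_sub_cancel_right] at h1
    rw [hl]
    constructor
    · intro h
      by_contra hs
      rw [if_neg (fun h => hs (eq_neg_of_add_eq_zero_left h))] at h1
      exact h ((mul_eq_zero.1 h1).resolve_left hθ0)
    · intro h h'
      rw [h', mul_zero, h, neg_add_cancel, if_pos rfl] at h1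
      exact zero_ne_one h1

end Pool.Agent.Work.MP87745.GS
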