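import Mathlib

set_option autoImplicit false

namespace Pool.Agent.Work.MP87745.GS

/-- statement FF -/
theorem core_ff {V : Type*} [DivisionRing V] {p : ℕ} [Fact p.Prime] (hp : p ≠ 2)
    (φ ψ g : ZMod p → V) (k ν μ : V) (d : ZMod p) (hν : ν ≠ 0) (hμ : μ ≠ 0)
    (hφ : ∀ x, x ≠ 0 → φ x ≠ 0) (hψ : ∀ x, x ≠ 0 → ψ x ≠ 0)
    (H : ∀ t r : ZMod p, (if r = t then g t else 0) + φ (r - t) * g t + ψ (t - r) * g r
      + (if t = 0 then φ (d + r) * (k - ν) else 0) + (if r = -d then ψ t * (k - μ) else 0)
      + (if t = 0 ∧ r = -d then k else 0) = 0) : False := by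
  -- `2 ≠ 0`
  have h2 : (2 : ZMod p) ≠ 0 := by
    intro h
    have h3 : (p : ℕ) ∣ 2 := by
      have : ((2 : ℕ) : ZMod p) = 0 := by exact_mod_cast h
      exact (ZMod.natCast_eq_zero_iff 2 p).1 this
    have h4 := (Nat.prime_dvd_prime_iff_eq (Fact.out : p.Prime) Nat.prime_two).1 h3
    exact hp h4
  have h1 : (1 : ZMod p) ≠ 0 := one_ne_zero
  obtain ⟨A, hA⟩ : ∃ A, A = k - ν := ⟨_, rfl⟩
  obtain ⟨B, hB⟩ : ∃ B, B = k - μ := ⟨_, rfl⟩
  rw [← hA, ← hB] at H
  obtain ⟨τ, hτ⟩ : ∃ τ, τ = 1 + φ 0 + ψ 0 := ⟨_, rfl⟩
  -- the quotients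
  obtain ⟨w, hw⟩ : ∃ w : ZMod p → V, w = fun y => -((ψ (-y))⁻¹ * φ y) := ⟨_, rfl⟩
  have hY : ∀ (y : ZMod p) (X Y : V), y ≠ 0 → φ y * X + ψ (-y) * Y = 0 → Y = w y * X := by
    intro y X Y hy h
    have hne : ψ (-y) ≠ 0 := hψ _ (neg_ne_zero.2 hy)
    have h3 : ψ (-y) * Y = -(φ y * X) := by
      rw [eq_neg_iff_add_eq_zero, add_comm]; exact h
    rw [hw]
    calc Y = (ψ (-y))⁻¹ * (ψ (-y) * Y) := by rw [← mul_assoc, inv_mul_cancel₀ hne, one_mul]
      _ = _ := by rw [h3, mul_neg, ← mul_assoc, neg_mul]
  have hw0 : ∀ y, y ≠ 0 → w y ≠ 0 := by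
    intro y hy
    rw [hw]
    exact neg_ne_zero.2 (mul_ne_zero (inv_ne_zero (hψ _ (neg_ne_zero.2 hy))) (hφ y hy))
  by_cases hd : d = 0
  · subst hd
    simp only [neg_zero, zero_add] at H
    have H00 : τ * g 0 + φ 0 * A + ψ 0 * B + k = 0 := by
      have := H 0 0
      simp only [if_true, sub_zero, and_self] at this
      rw [hτ, add_mul, add_mul, one_mul]
      exact this
    have Htt : ∀ t, t ≠ 0 → τ * g t = 0 := by
      intro t ht
      have := H t t
      simp only [if_true, sub_self, if_neg ht, ht, false_and, if_false, add_zero] at this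
      rw [hτ, add_mul, add_mul, one_mul]
      exact this
    have H0r : ∀ r, r ≠ 0 → φ r * (g 0 + A) + ψ (-r) * g r = 0 := by
      intro r hr
      have := H 0 r
      simp only [if_true, sub_zero, zero_sub, if_neg hr, hr, and_false, if_false, add_zero,
        zero_add] at this
      rw [mul_add]
      rw [← this]
      abel
    have Ht0 : ∀ t, t ≠ 0 → φ (-t) * g t + ψ t * (g 0 + B) = 0 := by
      intro t ht
      have := H t 0
      have ht' : (0 : ZMod p) ≠ t := fun h => ht h.symm
      simp only [if_true, sub_zero, zero_sub, if_neg ht, if_neg ht', ht, false_and, if_false,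
        add_zero, zero_add] at this
      rw [mul_add]
      rw [← this]
      abel
    have Htr : ∀ t r, t ≠ 0 → r ≠ 0 → r ≠ t → φ (r - t) * g t + ψ (t - r) * g r = 0 := by
      intro t r ht hr hrt
      have := H t r
      simp only [if_neg ht, if_neg hr, if_neg hrt, ht, false_and, if_false,
        add_zero, zero_add] at this
      exact this
    by_cases ht0 : τ = 0
    · -- `φ 0 ν + ψ 0 μ = 0`
      have e1 : φ 0 * ν + ψ 0 * μ = 0 := by
        have h3 : (1 + φ 0 + ψ 0) * k = 0 := by rw [← hτ, ht0, zero_mul]
        rw [ht0, zero_mul, zero_add, hA, hB, mul_sub, mul_sub] at H00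
        have h4 : φ 0 * ν + ψ 0 * μ = (1 + φ 0 + ψ 0) * k -
            (φ 0 * k - φ 0 * ν + (ψ 0 * k - ψ 0 * μ) + k) := by
          rw [add_mul, add_mul, one_mul]; abel
        rw [h4, h3, H00, sub_zero]
      have e2 : ν = μ → False := by
        intro h
        have h3 : (φ 0 + ψ 0) * ν = 0 := by rw [add_mul]; rw [← h] at e1; exact e1
        have h4 : φ 0 + ψ 0 = -1 := by
          rw [eq_neg_iff_add_eq_zero, ← ht0, hτ]; abel
        rw [h4, neg_one_mul, neg_eq_zero] at h3
        exact hν h3
      have G : ∀ r, r ≠ 0 → g r = w r * (g 0 + A) := fun r hr => hY r _ _ hr (H0r r hr)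
      have Gb : ∀ t, t ≠ 0 → g 0 + B = w (-t) * g t := by
        intro t ht
        apply hY (-t) _ _ (neg_ne_zero.2 ht)
        rw [neg_neg]
        exact Ht0 t ht
      have Gr : ∀ t r, t ≠ 0 → r ≠ 0 → r ≠ t → g r = w (r - t) * g t := by
        intro t r ht hr hrt
        apply hY (r - t) _ _ (sub_ne_zero.2 hrt)
        rw [neg_sub]
        exact Htr t r ht hr hrt
      have hm1 : (-1 : ZMod p) ≠ 0 := neg_ne_zero.2 h1
      have hm2 : (-2 : ZMod p) ≠ 0 := neg_ne_zero.2 h2
      have hm11 : (-1 : ZMod p) ≠ 1 := by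
        intro h
        apply h2
        have : (1 : ZMod p) + 1 = 0 := by nth_rewrite 1 [← h]; ring
        rw [← this]; ring
      have hm21 : (-2 : ZMod p) ≠ -1 := by
        intro h
        apply h1
        have : (2 : ZMod p) = 1 := by rw [← neg_neg (2 : ZMod p), h, neg_neg]
        calc (1 : ZMod p) = 2 - 1 := by ring
          _ = 0 := by rw [this, sub_self]
      have ha : g 0 + A ≠ 0 := by
        intro h
        have h3 := G 1 h1
        rw [h, mul_zero] at h3
        have h4 := Gb 1 h1
        rw [h3, mul_zero] at h4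
        apply e2
        have : A = B := by
          have : g 0 + A = g 0 + B := by rw [h, h4]
          exact add_left_cancel this
        rw [hA, hB] at this
        exact sub_right_injective this
      -- the relations
      have r1 : w (-1) = w (-2) * w 1 := by
        have h3 := Gr 1 (-1) h1 hm1 hm11
        rw [G (-1) hm1, G 1 h1, ← mul_assoc] at h3
        have h4 := mul_right_cancel₀ ha h3
        rw [h4]; congr 2; ring
      have r2 : w (-2) = w (-1) * w (-1) := by
        have h3 := Gr (-1) (-2) hm1 hm2 hm21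
        rw [G (-2) hm2, G (-1) hm1, ← mul_assoc] at h3
        have h4 := mul_right_cancel₀ ha h3
        rw [h4]; congr 2; ring
      have r3 : w (-1) * w 1 = 1 := by
        have h3 : w (-1) * 1 = w (-1) * (w (-1) * w 1) := by
          rw [mul_one, ← mul_assoc, ← r2, ← r1]
        exact (mul_left_cancel₀ (hw0 _ hm1) h3).symm
      have h3 := Gb 1 h1
      rw [G 1 h1, ← mul_assoc, r3, one_mul] at h3
      apply e2
      have h4 : B = A := add_left_cancel h3
      rw [hA, hB] at h4
      exact (sub_right_injective h4).symm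
    · have G : ∀ t, t ≠ 0 → g t = 0 := by
        intro t ht
        exact (mul_eq_zero.1 (Htt t ht)).resolve_left ht0
      have h3 := H0r 1 h1
      rw [G 1 h1, mul_zero, add_zero] at h3
      have h4 : g 0 + A = 0 := (mul_eq_zero.1 h3).resolve_left (hφ 1 h1)
      have h5 := Ht0 1 h1
      rw [G 1 h1, mul_zero, zero_add] at h5
      have h6 : g 0 + B = 0 := (mul_eq_zero.1 h5).resolve_left (hψ 1 h1)
      have hA' : A = -g 0 := by rw [eq_neg_iff_add_eq_zero, add_comm]; exact h4
      have hB' : B = -g 0 := by rw [eq_neg_iff_add_eq_zero, add_comm]; exact h6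
      rw [hA', hB', hτ] at H00
      have h7 : g 0 + k = 0 := by
        rw [← H00, add_mul, add_mul, one_mul, mul_neg, mul_neg]; abel
      apply hν
      have h8 : k = A := by rw [hA', eq_neg_iff_add_eq_zero, add_comm]; exact h7
      rw [h8] at hA
      have : A - A = A - (A - ν) := by rw [← hA]
      rw [sub_self, sub_sub_cancel] at this
      exact this.symm
  · have hmd : -d ≠ 0 := neg_ne_zero.2 hd
    have hdm : d ≠ -d := by
      intro h
      have h3 : 2 * d = 0 := by
        calc 2 * d = d + d := two_mul d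
          _ = d + -d := by rw [← h]
          _ = 0 := add_neg_cancel d
      rcases mul_eq_zero.1 h3 with h4 | h4
      · exact h2 h4
      · exact hd h4
    have H00 : τ * g 0 + φ d * A = 0 := by
      have := H 0 0
      have h3 : (0 : ZMod p) ≠ -d := fun h => hmd h.symm
      simp only [if_true, sub_zero, if_neg h3, h3, and_false, if_false, add_zero] at this
      rw [hτ, add_mul, add_mul, one_mul]
      exact this
    have Hdd : τ * g (-d) + ψ (-d) * B = 0 := by
      have := H (-d) (-d)
      simp only [if_true, sub_self, if_neg hmd, hmd, false_and, if_false, add_zero] at this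
      rw [hτ, add_mul, add_mul, one_mul]
      exact this
    have Htr : ∀ t r, t ≠ 0 → r ≠ -d → r ≠ t → φ (r - t) * g t + ψ (t - r) * g r = 0 := by
      intro t r ht hr hrt
      have := H t r
      simp only [if_neg ht, if_neg hr, if_neg hrt, ht, false_and, if_false,
        add_zero, zero_add] at this
      exact this
    have H0d : φ (-d) * g 0 + ψ d * g (-d) + φ 0 * A + ψ 0 * B + k = 0 := by
      have := H 0 (-d)
      simp only [if_true, sub_zero, zero_sub, if_neg hmd, neg_neg, add_neg_cancel, and_self,
        zero_add] at this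
      exact this
    have h0d : (0 : ZMod p) ≠ -d := fun h => hmd h.symm
    by_cases ht0 : τ = 0
    · have hA0 : A = 0 := by
        rw [ht0, zero_mul, zero_add] at H00
        exact (mul_eq_zero.1 H00).resolve_left (hφ d hd)
      have hB0 : B = 0 := by
        rw [ht0, zero_mul, zero_add] at Hdd
        exact (mul_eq_zero.1 Hdd).resolve_left (hψ _ hmd)
      rw [hA0, hB0, mul_zero, mul_zero, add_zero, add_zero] at H0d
      have hk : k ≠ 0 := by
        intro h
        rw [hA0, h, zero_sub] at hA
        exact hν (neg_eq_zero.1 hA.symm)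
      -- (-d, 0)
      have g1 : g 0 = w d * g (-d) := by
        apply hY d _ _ hd
        have := Htr (-d) 0 hmd h0d h0d
        rw [sub_neg_eq_add, zero_add, sub_zero] at this
        exact this
      -- (0, d)
      have g2 : g d = w d * g 0 := by
        apply hY d _ _ hd
        have := H 0 d
        simp only [if_true, sub_zero, zero_sub, if_neg hd, if_neg hdm, hdm, and_false, if_false,
          add_zero, zero_add, hA0, mul_zero] at this
        exact this
      -- (d, 0)
      have g3 : g 0 = w (-d) * g d := by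
        apply hY (-d) _ _ hmd
        have := Htr d 0 hd h0d (fun h => hd h.symm)
        rw [zero_sub, sub_zero] at this
        rw [neg_neg]
        exact this
      have hg0 : g 0 ≠ 0 := by
        intro h
        have h3 : g (-d) = 0 := by
          rw [h] at g1
          exact (mul_eq_zero.1 g1.symm).resolve_left (hw0 d hd)
        rw [h, h3, mul_zero, mul_zero, add_zero, zero_add] at H0d
        exact hk H0d
      have r : w (-d) * w d = 1 := by
        rw [g2, ← mul_assoc] at g3
        have : 1 * g 0 = w (-d) * w d * g 0 := by rw [one_mul]; exact g3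
        exact (mul_right_cancel₀ hg0 this).symm
      -- (0,-d): `φ (-d) g 0 + ψ d g (-d) = 0`
      have h3 : φ (-d) * g 0 + ψ d * g (-d) = 0 := by
        have h4 : w (-d) * g 0 = g (-d) := by rw [g1, ← mul_assoc, r, one_mul]
        have h5 : w (-d) = -((ψ d)⁻¹ * φ (-d)) := by rw [hw]; simp only [neg_neg]
        have h6 : ψ d * w (-d) = -φ (-d) := by
          rw [h5, mul_neg, ← mul_assoc, mul_inv_cancel₀ (hψ d hd), one_mul]
        rw [← h4, ← mul_assoc, h6, neg_mul, add_neg_cancel]
      rw [h3, zero_add] at H0d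
      exact hk H0d
    · -- another point
      have hx0 := hd
      have hxd := hdm
      have gd : g d = 0 := by
        have := H d d
        simp only [if_true, sub_self, if_neg hd, if_neg hdm, hd, false_and, if_false,
          add_zero] at this
        have h3 : τ * g d = 0 := by rw [hτ, add_mul, add_mul, one_mul]; exact this
        exact (mul_eq_zero.1 h3).resolve_left ht0
      have gmd : g (-d) = 0 := by
        have h3 := Htr (-d) d hmd hdm hdm
        rw [gd, mul_zero, add_zero] at h3
        refine (mul_eq_zero.1 h3).resolve_left (hφ _ ?_)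
        exact sub_ne_zero.2 hdm
      have g0 : g 0 = 0 := by
        have h3 := Htr d 0 hd h0d (fun h => hd h.symm)
        rw [gd, mul_zero, zero_add, sub_zero] at h3
        exact (mul_eq_zero.1 h3).resolve_left (hψ _ hd)
      rw [g0, mul_zero, zero_add] at H00
      rw [gmd, mul_zero, zero_add] at Hdd
      have hA0 : A = 0 := (mul_eq_zero.1 H00).resolve_left (hφ d hd)
      have hB0 : B = 0 := (mul_eq_zero.1 Hdd).resolve_left (hψ _ hmd)
      rw [g0, gmd, hA0, hB0, mul_zero, mul_zero, mul_zero, mul_zero] at H0d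
      simp only [add_zero, zero_add] at H0d
      rw [hA0, H0d, zero_sub] at hA
      exact hν (neg_eq_zero.1 hA.symm)

end Pool.Agent.Work.MP87745.GS
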