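import Mathlib

set_option autoImplicit false

namespace Pool.Agent.Work.MP87745.GS

theorem sf_one_ne_neg_one {p : ℕ} [Fact p.Prime] (hp : p ≠ 2) : (1 : ZMod p) ≠ -1 := by
  intro h
  have h1 : ((2 : ℕ) : ZMod p) = 0 := by
    have : (1 : ZMod p) + 1 = 0 := by
      nth_rewrite 1 [h]
      exact neg_add_cancel 1
    push_cast
    rw [← this]; norm_num
  rw [ZMod.natCast_eq_zero_iff] at h1
  exact hp ((Nat.prime_dvd_prime_iff_eq (Fact.out) Nat.prime_two).1 h1)

theorem sf_three_choose : ∀ r : ZMod 3, r ≠ 1 → ∃ t : ZMod 3, t ≠ 0 ∧ t ≠ r ∧ t ≠ r + 1 := by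
  decide

theorem sf_three_d : ∀ d : ZMod 3, (1 : ZMod 3) ≠ -d → d = 0 ∨ d = 1 := by
  decide

theorem sf_three_a : (1 : ZMod 3) - -1 = -1 := by decide

theorem sf_three_b : (-1 : ZMod 3) - 1 = 1 := by decide

theorem sf_choose {p : ℕ} [Fact p.Prime] (hp : p ≠ 2) (r : ZMod p) (h : p ≠ 3 ∨ r ≠ 1) :
    ∃ t : ZMod p, t ≠ 0 ∧ t ≠ r ∧ t ≠ r + 1 := by
  classical
  by_cases h3 : p = 3
  · subst h3
    have hr : r ≠ 1 := h.resolve_left (by simp)
    exact sf_three_choose r hr
  · by_contra hcon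
    push Not at hcon
    have h1 : (Finset.univ : Finset (ZMod p)) ⊆ {0, r, r + 1} := by
      intro t _
      simp only [Finset.mem_insert, Finset.mem_singleton]
      by_cases a : t = 0
      · exact Or.inl a
      · by_cases b : t = r
        · exact Or.inr (Or.inl b)
        · exact Or.inr (Or.inr (hcon t a b))
    have h2 := Finset.card_le_card h1
    rw [Finset.card_univ, ZMod.card] at h2
    have h4 : ({0, r, r + 1} : Finset (ZMod p)).card ≤ 3 := Finset.card_le_three
    have h5 : p ≤ 3 := h2.trans h4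
    have h6 := (Fact.out : p.Prime).two_le
    omega

/-- statement SF -/
theorem core_sf {V : Type*} [DivisionRing V] {p : ℕ} [Fact p.Prime] (hp : p ≠ 2)
    (φ ψ g : ZMod p → V) (k ν μ : V) (d : ZMod p) (hν : ν ≠ 0) (hμ : μ ≠ 0)
    (hφ1 : φ (-1) ≠ 0) (hφ : ∀ x, x ≠ -1 → φ x = 0)
    (hψ : ∀ x, x ≠ 0 → ψ x ≠ 0)
    (H : ∀ t r : ZMod p, (if r = t then g t else 0) + φ (r - t) * g t + ψ (t - r) * g r
      + (if t = 0 then φ (d + r) * (k - ν) else 0) + (if r = -d then ψ t * (k - μ) else 0)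
      + (if t = 0 ∧ r = -d then k else 0) = 0) : False := by
  have h11 := sf_one_ne_neg_one hp
  have h10 : (1 : ZMod p) ≠ 0 := one_ne_zero
  have h01 : (0 : ZMod p) ≠ -1 := by
    intro h; apply h10; rw [← neg_eq_zero, ← h]
  have hm : (-1 : ZMod p) ≠ 0 := fun h => h01 h.symm
  have φ0 : φ 0 = 0 := hφ 0 h01
  -- the general step
  have B : ∀ t, t ≠ 0 → t - 1 ≠ -d → g (t - 1) = 0 → g t = 0 := by
    intro t h1 h2 h0
    have h3 := H t (t - 1)
    have h4 : t - 1 ≠ t := by
      intro h; simp at h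
    have h5 : t - 1 - t = -1 := by ring
    have h6 : t - (t - 1) = 1 := by ring
    rw [h5, h6] at h3
    have h7 : φ (-1) * g t = 0 := by
      simpa [h4, h0, h1, h2] using h3
    exact (mul_eq_zero.1 h7).resolve_left hφ1
  have C : ∀ r, r ≠ -d → (p ≠ 3 ∨ r ≠ 1) → g r = 0 := by
    intro r hr h
    obtain ⟨t, t0, tr, tr1⟩ := sf_choose hp r h
    have h3 := H t r
    have h5 : φ (r - t) = 0 := by
      apply hφ
      intro h; apply tr1
      have : t = r - (r - t) := by ring
      rw [this, h]; ring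
    have h6 : ψ (t - r) ≠ 0 := hψ _ (sub_ne_zero.2 tr)
    have h7 : ψ (t - r) * g r = 0 := by
      simpa [h5, t0, hr, Ne.symm tr] using h3
    exact (mul_eq_zero.1 h7).resolve_left h6
  have D : ∀ r, r ≠ -d → g r = 0 := by
    intro r hr
    by_cases h : p ≠ 3 ∨ r ≠ 1
    · exact C r hr h
    · push Not at h
      obtain ⟨h3, rfl⟩ := h
      subst h3
      have key : d = 0 ∨ d = 1 := sf_three_d d hr
      rcases key with rfl | rfl
      · -- from `g (-1) = 0` hmm: `1 = -1 - 1`
        have e1 : g (-1) = 0 := C (-1) (by simpa using hm) (Or.inr (Ne.symm h11))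
        have h3 := H (-1) 1
        have h5 : (1 : ZMod 3) - -1 = -1 := sf_three_a
        have h6 : (-1 : ZMod 3) - 1 = 1 := sf_three_b
        rw [h5, h6, e1] at h3
        have h7 : ψ 1 * g 1 = 0 := by
          simpa [h11, hm, h10] using h3
        exact (mul_eq_zero.1 h7).resolve_left (hψ 1 h10)
      · have e1 : g 0 = 0 := C 0 (by simpa using h01) (Or.inr (Ne.symm h10))
        exact B 1 h10 (by simpa using h01) (by simpa using e1)
  by_cases hd : d = 0
  · subst hd
    have g0 : ∀ t, t ≠ 0 → g t = 0 := fun t ht => D t (by simpa using ht)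
    have e1 := H 0 0
    have e2 := H 1 0
    have e1' : g 0 + ψ 0 * g 0 + ψ 0 * (k - μ) + k = 0 := by
      simpa [φ0] using e1
    have e2' : ψ 1 * g 0 + ψ 1 * (k - μ) = 0 := by
      have h9 : (0 : ZMod p) - 1 = -1 := by ring
      rw [h9] at e2
      simpa [g0 1 h10, h10, Ne.symm h10] using e2
    rw [← mul_add] at e2'
    have e3 := (mul_eq_zero.1 e2').resolve_left (hψ 1 h10)
    have e4 : g 0 + k = 0 := by
      have : g 0 + ψ 0 * g 0 + ψ 0 * (k - μ) + k =
          (g 0 + k) + ψ 0 * (g 0 + (k - μ)) := by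
        rw [mul_add]; abel
      rw [this, e3, mul_zero, add_zero] at e1'
      exact e1'
    apply hμ
    have : μ = (g 0 + k) - (g 0 + (k - μ)) := by abel
    rw [this, e4, e3, sub_zero]
  · have hd' : (-d : ZMod p) ≠ 0 := neg_ne_zero.2 hd
    have e0 : g (-d) = 0 := by
      have h3 := H (-d) (-d - 1)
      have h4 : (-d - 1 : ZMod p) ≠ -d := by
        intro h; simp at h
      have h5 : -d - 1 - -d = (-1 : ZMod p) := by ring
      have h6 : -d - (-d - 1) = (1 : ZMod p) := by ring
      rw [h5, h6, D _ h4] at h3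
      have h7 : φ (-1) * g (-d) = 0 := by
        simpa [h4, hd, hd'] using h3
      exact (mul_eq_zero.1 h7).resolve_left hφ1
    have g1 : ∀ t, g t = 0 := by
      intro t
      by_cases ht : t = -d
      · rw [ht, e0]
      · exact D t ht
    have e1 := H (-d) (-d)
    have e1' : ψ (-d) * (k - μ) = 0 := by
      simpa [g1, hd, hd'] using e1
    have e2 := (mul_eq_zero.1 e1').resolve_left (hψ _ hd')
    have e3 := H 0 (-d)
    have e3' : k = 0 := by
      simpa [g1, φ0, e2] using e3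
    rw [e3', zero_sub, neg_eq_zero] at e2
    exact hμ e2

end Pool.Agent.Work.MP87745.GS
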