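import Mathlib

set_option autoImplicit false

namespace Pool.Agent.Work.MP87745.GS

theorem ss_one_ne_neg_one {p : ℕ} [Fact p.Prime] (hp : p ≠ 2) : (1 : ZMod p) ≠ -1 := by
  intro h
  have h1 : ((2 : ℕ) : ZMod p) = 0 := by
    have : (1 : ZMod p) + 1 = 0 := by
      nth_rewrite 1 [h]
      exact neg_add_cancel 1
    push_cast
    rw [← this]; norm_num
  rw [ZMod.natCast_eq_zero_iff] at h1
  exact hp ((Nat.prime_dvd_prime_iff_eq (Fact.out) Nat.prime_two).1 h1)

/-- statement SS -/
theorem core_ss {V : Type*} [DivisionRing V] {p : ℕ} [Fact p.Prime] (hp : p ≠ 2)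
    (φ ψ g : ZMod p → V) (k ν μ : V) (d : ZMod p) (hν : ν ≠ 0) (hμ : μ ≠ 0)
    (hφ1 : φ (-1) ≠ 0) (hφ : ∀ x, x ≠ -1 → φ x = 0)
    (hψ1 : ψ (-1) ≠ 0) (hψ : ∀ x, x ≠ -1 → ψ x = 0)
    (H : ∀ t r : ZMod p, (if r = t then g t else 0) + φ (r - t) * g t + ψ (t - r) * g r
      + (if t = 0 then φ (d + r) * (k - ν) else 0) + (if r = -d then ψ t * (k - μ) else 0)
      + (if t = 0 ∧ r = -d then k else 0) = 0) : False := by
  have h11 := ss_one_ne_neg_one hp
  have h10 : (1 : ZMod p) ≠ 0 := one_ne_zero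
  have h01 : (0 : ZMod p) ≠ -1 := by
    intro h; apply h10; rw [← neg_eq_zero, ← h]
  have φ0 : φ 0 = 0 := hφ 0 h01
  have ψ0 : ψ 0 = 0 := hψ 0 h01
  have ψ1 : ψ 1 = 0 := hψ 1 h11
  have φ1 : φ 1 = 0 := hφ 1 h11
  -- the diagonal
  have A : ∀ t, t ≠ 0 → t ≠ -d → g t = 0 := by
    intro t h1 h2
    have := H t t
    simpa [φ0, ψ0, h1, h2] using this
  have B : ∀ t, t ≠ 0 → t - 1 ≠ -d → g t = 0 := by
    intro t h1 h2
    have h3 := H t (t - 1)
    have h4 : t - 1 ≠ t := by
      intro h; simp at h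
    have h5 : t - 1 - t = -1 := by ring
    have h6 : t - (t - 1) = 1 := by ring
    rw [h5, h6] at h3
    have h7 : φ (-1) * g t = 0 := by
      simpa [h4, ψ1, h1, h2] using h3
    exact (mul_eq_zero.1 h7).resolve_left hφ1
  have C : ∀ t, t ≠ 0 → t + 1 ≠ -d → g (t + 1) = 0 := by
    intro t h1 h2
    have h3 := H t (t + 1)
    have h5 : t + 1 - t = 1 := by ring
    have h6 : t - (t + 1) = -1 := by ring
    rw [h5, h6] at h3
    have h7 : ψ (-1) * g (t + 1) = 0 := by
      simpa [φ1, h1, h2] using h3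
    exact (mul_eq_zero.1 h7).resolve_left hψ1
  by_cases hd : d = 0
  · subst hd
    have g0 : ∀ t, t ≠ 0 → g t = 0 := fun t ht => A t ht (by simpa using ht)
    have e1 := H 0 0
    have e2 := H 0 (-1)
    have hm : (-1 : ZMod p) ≠ 0 := fun h => h01 h.symm
    have e1' : g 0 + k = 0 := by simpa [φ0, ψ0] using e1
    have e2' : φ (-1) * g 0 + φ (-1) * (k - ν) = 0 := by
      simpa [g0 _ hm, hm] using e2
    rw [← mul_add] at e2'
    have e3 := (mul_eq_zero.1 e2').resolve_left hφ1
    apply hν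
    have : ν = (g 0 + k) - (g 0 + (k - ν)) := by abel
    rw [this, e1', e3, sub_zero]
  · have hd' : (0 : ZMod p) ≠ -d := by
      intro h; apply hd; rw [← neg_eq_zero, ← h]
    have g1 : ∀ t, g t = 0 := by
      intro t
      by_cases ht0 : t = 0
      · -- t = 0 : use C with t = -1
        subst ht0
        have := C (-1) (fun h => h01 h.symm) (by simpa using hd')
        simpa using this
      · by_cases ht : t = -d
        · refine B t ht0 ?_
          rw [ht]
          intro h; simp at h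
        · exact A t ht0 ht
    have e1 := H 0 (-d)
    have e1' : k = 0 := by simpa [g1, φ0, ψ0] using e1
    have e2 := H 0 (-1 - d)
    have h8 : (-1 - d : ZMod p) ≠ -d := by
      intro h
      apply h01
      have : (-1 : ZMod p) = (-1 - d) + d := by ring
      rw [this, h]; ring
    have e2' : φ (-1) * (k - ν) = 0 := by
      have h9 : d + (-1 - d) = -1 := by ring
      rw [h9] at e2
      simpa [g1, h8] using e2
    have e3 := (mul_eq_zero.1 e2').resolve_left hφ1
    rw [e1', zero_sub, neg_eq_zero] at e3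
    exact hν e3

end Pool.Agent.Work.MP87745.GS
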