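import Mathlib
import Pool.Agent.Work.MP_87745a_al_gs.Bx
import Pool.Agent.Work.MP_87745a_al_gs.FF
import Pool.Agent.Work.MP_87745a_al_gs.SS
import Pool.Agent.Work.MP_87745a_al_gs.SF

set_option autoImplicit false

namespace Pool.Agent.Work.MP87745.GS

variable {G : Type*} [Group G] {p : ℕ} {A : Subgroup G} {x₁ x₂ : G → ZMod p}
  {D : Type*} [DivisionRing D] [DecidableEq (Additive G)]
  (𝒜 : Additive G → AddSubgroup D) [GradedRing 𝒜]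

/-- an element of `W ker₂` is the sum of its parts -/
theorem rel_sum₂ [Fact p.Prime] (E : Ex A x₁ x₂) {x : D} (hx : x ∈ W 𝒜 (E.ker₂ : Set G)) :
    ∑ s : ZMod p, pr 𝒜 (bx A x₁ x₂ s 0) x = x := by
  have h1 := sum_pr 𝒜 (E.ker₂ : Set G) x₁ x
  rw [(mem_W 𝒜).1 hx] at h1
  have h2 : ∀ s : ZMod p, bx A x₁ x₂ s 0 = {h | h ∈ (E.ker₂ : Set G) ∧ x₁ h = s} := by
    intro s
    ext g
    constructor
    · intro h
      exact ⟨⟨h.1, h.2.2⟩, h.2.1⟩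
    · intro h
      exact ⟨h.1.1, h.2, h.1.2⟩
  calc ∑ s : ZMod p, pr 𝒜 (bx A x₁ x₂ s 0) x
      = ∑ s : ZMod p, pr 𝒜 {h | h ∈ (E.ker₂ : Set G) ∧ x₁ h = s} x :=
        Finset.sum_congr rfl (fun s _ => by rw [h2 s])
    _ = x := h1

/-- the parts of a product with an element of `W ker₂` on the left -/
theorem rel_mul₂ [Fact p.Prime] (E : Ex A x₁ x₂) {x : D} (hx : x ∈ W 𝒜 (E.ker₂ : Set G)) (y : D)
    (a b : ZMod p) : pr 𝒜 (bx A x₁ x₂ a b) (x * y) =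
      ∑ s : ZMod p, pr 𝒜 (bx A x₁ x₂ s 0) x * pr 𝒜 (bx A x₁ x₂ (a - s) b) y := by
  have h1 : x * y = ∑ s : ZMod p, pr 𝒜 (bx A x₁ x₂ s 0) x * y := by
    rw [← Finset.sum_mul, rel_sum₂ 𝒜 E hx]
  rw [h1, map_sum]
  refine Finset.sum_congr rfl (fun s _ => ?_)
  rw [E.pr_mul 𝒜 (pr_mem 𝒜 _ x), sub_zero]

/-- parts of an element of `W` of a line -/
theorem rel_line {g : D} {d : ZMod p} (hg : g ∈ W 𝒜 {h | h ∈ A ∧ x₁ h - x₂ h = d})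
    {a b : ZMod p} (h : a - b ≠ d) : pr 𝒜 (bx A x₁ x₂ a b) g = 0 := by
  refine pr_zero_of 𝒜 ?_ hg
  rintro u ⟨_, h2⟩ h3
  apply h
  rw [← h2, h3.2.1, h3.2.2]

theorem rel_line_mul [Fact p.Prime] (E : Ex A x₁ x₂) {x : D} (hx : x ∈ W 𝒜 (E.ker₂ : Set G))
    {g : D} {d : ZMod p} (hg : g ∈ W 𝒜 {h | h ∈ A ∧ x₁ h - x₂ h = d}) (r t : ZMod p) :
    pr 𝒜 (bx A x₁ x₂ (r + d) t) (x * g) =
      pr 𝒜 (bx A x₁ x₂ (r - t) 0) x * pr 𝒜 (bx A x₁ x₂ (t + d) t) g := by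
  rw [rel_mul₂ 𝒜 E hx, Finset.sum_eq_single (r - t)]
  · rw [show r + d - (r - t) = t + d by ring]
  · intro s _ hs
    rw [rel_line 𝒜 hg, mul_zero]
    intro h
    apply hs
    linear_combination -h
  · intro h
    exact absurd (Finset.mem_univ _) h

theorem rel_zero_mul [Fact p.Prime] (E : Ex A x₁ x₂) {x : D} (hx : x ∈ W 𝒜 (E.ker₂ : Set G))
    {g : D} (hg : g ∈ W 𝒜 (bx A x₁ x₂ 0 0)) (a t : ZMod p) :
    pr 𝒜 (bx A x₁ x₂ a t) (x * g) =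
      if t = 0 then pr 𝒜 (bx A x₁ x₂ a 0) x * g else 0 := by
  rw [E.pr_mul0' 𝒜 hg]
  split_ifs with h
  · rw [h]
  · rw [pr_zero_of 𝒜 (P := (E.ker₂ : Set G)) _ hx, zero_mul]
    intro u hu h3
    apply h
    rw [← h3.2.2]
    exact hu.2

/-- block REL: the relation `rel` is impossible if `k - f` is homogeneous for `x₁ - x₂`.
With `g = f - k`, `g t = pr (bx (t+d) t) g`, `φ s = pr (bx s 0) φ₁`, `ψ t = pr (bx 0 t) φ₂`, the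
part of `rel` in `bx (r+d) t` is the hypothesis `H` of `core_ff`, `core_ss`, `core_sf`; the fourth
case follows from `core_sf` with `g' u = g (u - d)`, `d' = -d`, `φ, ψ` and `ν, μ` swapped. -/
theorem rel_false [Fact p.Prime] (hp : p ≠ 2) (E : Ex A x₁ x₂) {k ν₁ ν₂ f φ₁ φ₂ : D}
    (hk : k ∈ W 𝒜 (bx A x₁ x₂ 0 0)) (hν₁ : ν₁ ∈ W 𝒜 (bx A x₁ x₂ 0 0))
    (hν₂ : ν₂ ∈ W 𝒜 (bx A x₁ x₂ 0 0)) (hν₁0 : ν₁ ≠ 0) (hν₂0 : ν₂ ≠ 0)
    (hφ₁ : φ₁ ∈ W 𝒜 (E.ker₂ : Set G)) (hφ₂ : φ₂ ∈ W 𝒜 (E.ker₁ : Set G))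
    (c₁ : (∀ s, pr 𝒜 (bx A x₁ x₂ s 0) φ₁ ≠ 0) ∨ (∀ s, pr 𝒜 (bx A x₁ x₂ s 0) φ₁ ≠ 0 ↔ s = -1))
    (c₂ : (∀ t, pr 𝒜 (bx A x₁ x₂ 0 t) φ₂ ≠ 0) ∨ (∀ t, pr 𝒜 (bx A x₁ x₂ 0 t) φ₂ ≠ 0 ↔ t = -1))
    (rel : f + φ₁ * (f - ν₁) + φ₂ * (f - ν₂) = 0) {d : ZMod p}
    (hF : k - f ∈ W 𝒜 {h | h ∈ A ∧ x₁ h - x₂ h = d}) : False := by
  obtain ⟨g, hg⟩ : ∃ g, g = f - k := ⟨_, rfl⟩
  have hgW : g ∈ W 𝒜 {h | h ∈ A ∧ x₁ h - x₂ h = d} := by
    rw [hg, ← neg_sub]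
    exact neg_mem hF
  have hgW' : g ∈ W 𝒜 {h | h ∈ A ∧ x₂ h - x₁ h = -d} := by
    refine W_mono 𝒜 ?_ hgW
    rintro u ⟨h1, h2⟩
    exact ⟨h1, by rw [← h2]; ring⟩
  have hf : f = k + g := by rw [hg]; abel
  have rel' : g + φ₁ * g + φ₂ * g + φ₁ * (k - ν₁) + φ₂ * (k - ν₂) + k = 0 := by
    rw [← rel, hf]
    rw [show k + g - ν₁ = g + (k - ν₁) by abel, show k + g - ν₂ = g + (k - ν₂) by abel,
      mul_add, mul_add]
    abel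
  have hφ₂' : φ₂ ∈ W 𝒜 (E.symm.ker₂ : Set G) := hφ₂
  have H : ∀ t r : ZMod p,
      (if r = t then pr 𝒜 (bx A x₁ x₂ (t + d) t) g else 0)
      + pr 𝒜 (bx A x₁ x₂ (r - t) 0) φ₁ * pr 𝒜 (bx A x₁ x₂ (t + d) t) g
      + pr 𝒜 (bx A x₁ x₂ 0 (t - r)) φ₂ * pr 𝒜 (bx A x₁ x₂ (r + d) r) g
      + (if t = 0 then pr 𝒜 (bx A x₁ x₂ (d + r) 0) φ₁ * (k - ν₁) else 0)
      + (if r = -d then pr 𝒜 (bx A x₁ x₂ 0 t) φ₂ * (k - ν₂) else 0)
      + (if t = 0 ∧ r = -d then k else 0) = 0 := by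
    intro t r
    have h := congrArg (pr 𝒜 (bx A x₁ x₂ (r + d) t)) rel'
    rw [map_zero, map_add, map_add, map_add, map_add, map_add] at h
    have e1 : pr 𝒜 (bx A x₁ x₂ (r + d) t) g =
        if r = t then pr 𝒜 (bx A x₁ x₂ (t + d) t) g else 0 := by
      split_ifs with h1
      · rw [h1]
      · refine rel_line 𝒜 hgW ?_
        intro h2
        apply h1
        linear_combination h2
    have e2 := rel_line_mul 𝒜 E hφ₁ hgW r t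
    have e3 : pr 𝒜 (bx A x₁ x₂ (r + d) t) (φ₂ * g) =
        pr 𝒜 (bx A x₁ x₂ 0 (t - r)) φ₂ * pr 𝒜 (bx A x₁ x₂ (r + d) r) g := by
      have h1 := rel_line_mul 𝒜 E.symm hφ₂' hgW' (t + d) (r + d)
      rw [show t + d + -d = t by ring, show t + d - (r + d) = t - r by ring,
        show r + d + -d = r by ring,
        bx_symm (A := A) (x₁ := x₁) (x₂ := x₂) (r + d) t,
        bx_symm (A := A) (x₁ := x₁) (x₂ := x₂) 0 (t - r),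
        bx_symm (A := A) (x₁ := x₁) (x₂ := x₂) (r + d) r] at h1
      exact h1
    have e4 := rel_zero_mul 𝒜 E hφ₁ (sub_mem hk hν₁) (r + d) t
    have e5 : pr 𝒜 (bx A x₁ x₂ (r + d) t) (φ₂ * (k - ν₂)) =
        if r = -d then pr 𝒜 (bx A x₁ x₂ 0 t) φ₂ * (k - ν₂) else 0 := by
      have h0 : k - ν₂ ∈ W 𝒜 (bx A x₂ x₁ 0 0) := by
        rw [bx_symm]
        exact sub_mem hk hν₂
      have h1 := rel_zero_mul 𝒜 E.symm hφ₂' h0 t (r + d)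
      rw [bx_symm (A := A) (x₁ := x₁) (x₂ := x₂) (r + d) t,
        bx_symm (A := A) (x₁ := x₁) (x₂ := x₂) 0 t] at h1
      rw [h1]
      exact if_congr eq_neg_iff_add_eq_zero.symm rfl rfl
    have e6 : pr 𝒜 (bx A x₁ x₂ (r + d) t) k = if t = 0 ∧ r = -d then k else 0 := by
      split_ifs with h1
      · rw [h1.1, h1.2, neg_add_cancel]
        exact (mem_W 𝒜).1 hk
      · refine pr_zero_of 𝒜 ?_ hk
        rintro u ⟨_, h2, h3⟩ ⟨_, h4, h5⟩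
        apply h1
        refine ⟨by rw [← h5, h3], ?_⟩
        rw [eq_neg_iff_add_eq_zero, ← h4, h2]
    rw [e1, e2, e3, e4, e5, e6, add_comm r d] at h
    rw [add_comm r d]
    exact h
  rcases c₁ with c₁ | c₁ <;> rcases c₂ with c₂ | c₂
  · exact core_ff hp (fun s => pr 𝒜 (bx A x₁ x₂ s 0) φ₁) (fun t => pr 𝒜 (bx A x₁ x₂ 0 t) φ₂)
      (fun t => pr 𝒜 (bx A x₁ x₂ (t + d) t) g) k ν₁ ν₂ d hν₁0 hν₂0 (fun x _ => c₁ x)
      (fun x _ => c₂ x) H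
  · refine core_sf hp (fun t => pr 𝒜 (bx A x₁ x₂ 0 t) φ₂) (fun s => pr 𝒜 (bx A x₁ x₂ s 0) φ₁)
      (fun u => pr 𝒜 (bx A x₁ x₂ (u - d + d) (u - d)) g) k ν₂ ν₁ (-d) hν₂0 hν₁0
      ((c₂ (-1)).2 rfl) (fun x hx => by_contra fun h => hx ((c₂ x).1 h)) (fun x _ => c₁ x) ?_
    intro t r
    have h := H (r - d) (t - d)
    rw [show t - d - (r - d) = t - r by ring, show r - d - (t - d) = r - t by ring,
      show d + (t - d) = t by ring] at h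
    have i1 : t - d = r - d ↔ r = t := by
      constructor
      · intro h'; linear_combination -h'
      · intro h'; rw [h']
    have i2 : r - d = 0 ↔ r = - -d := by rw [neg_neg]; exact sub_eq_zero
    have i3 : t - d = -d ↔ t = 0 := by
      constructor
      · intro h'; linear_combination h'
      · intro h'; rw [h', zero_sub]
    have i4 : (r - d = 0 ∧ t - d = -d) ↔ (t = 0 ∧ r = - -d) := by
      rw [i2, i3]; exact and_comm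
    rw [if_congr i2 rfl rfl, if_congr i3 rfl rfl, if_congr i4 rfl rfl] at h
    have h6 : (if r = t then pr 𝒜 (bx A x₁ x₂ (t - d + d) (t - d)) g else 0) =
        (if t - d = r - d then pr 𝒜 (bx A x₁ x₂ (r - d + d) (r - d)) g else 0) := by
      by_cases h7 : r = t
      · rw [if_pos h7, if_pos (i1.2 h7), h7]
      · rw [if_neg h7, if_neg (fun h8 => h7 (i1.1 h8))]
    have h8 : -d + r = r - d := by ring
    have key : ∀ a b c e f k : D, a + b + c + e + f + k = a + c + b + f + e + k := by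
      intros; abel
    rw [h6, h8]
    exact (key _ _ _ _ _ _).trans h
  · exact core_sf hp (fun s => pr 𝒜 (bx A x₁ x₂ s 0) φ₁) (fun t => pr 𝒜 (bx A x₁ x₂ 0 t) φ₂)
      (fun t => pr 𝒜 (bx A x₁ x₂ (t + d) t) g) k ν₁ ν₂ d hν₁0 hν₂0 ((c₁ (-1)).2 rfl)
      (fun x hx => by_contra fun h => hx ((c₁ x).1 h)) (fun x _ => c₂ x) H
  · exact core_ss hp (fun s => pr 𝒜 (bx A x₁ x₂ s 0) φ₁) (fun t => pr 𝒜 (bx A x₁ x₂ 0 t) φ₂)
      (fun t => pr 𝒜 (bx A x₁ x₂ (t + d) t) g) k ν₁ ν₂ d hν₁0 hν₂0 ((c₁ (-1)).2 rfl)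
      (fun x hx => by_contra fun h => hx ((c₁ x).1 h)) ((c₂ (-1)).2 rfl)
      (fun x hx => by_contra fun h => hx ((c₂ x).1 h)) H

end Pool.Agent.Work.MP87745.GS
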