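import Mathlib
import Pool.Agent.Work.MP_87745a_al_gs.Bx
import Pool.Agent.Work.MP_87745a_al_gs.EPS
import Pool.Agent.Work.MP_87745a_al_gs.REL

set_option autoImplicit false

namespace Pool.Agent.Work.MP87745.GS

variable {G : Type*} [Group G] {p : ℕ} {A : Subgroup G} {x₁ x₂ : G → ZMod p}
  {D : Type*} [DivisionRing D] [DecidableEq (Additive G)]
  (𝒜 : Additive G → AddSubgroup D) [GradedRing 𝒜]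

namespace CA17

omit [DecidableEq (Additive G)] in
theorem ker_le₁ (E : Ex A x₁ x₂) : (bx A x₁ x₂ 0 0) ⊆ (E.ker₁ : Set G) :=
  fun _ h => ⟨h.1, h.2.1⟩

omit [DecidableEq (Additive G)] in
theorem ker_le₂ (E : Ex A x₁ x₂) : (bx A x₁ x₂ 0 0) ⊆ (E.ker₂ : Set G) :=
  fun _ h => ⟨h.1, h.2.2⟩

/-- the data of one line: `φ = k (lam + θ)⁻¹ μ` -/
theorem line [Fact p.Prime] (E : Ex A x₁ x₂) {T : G} (hT : T ∈ bx A x₁ x₂ 1 0) {θ lam k μ : D}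
    (hθ : θ ∈ W 𝒜 ({T} : Set G)) (hθ0 : θ ≠ 0) (hlam : lam ∈ W 𝒜 (bx A x₁ x₂ 0 0))
    (hk : k ∈ W 𝒜 (bx A x₁ x₂ 0 0)) (hk0 : k ≠ 0) (hμ : μ ∈ W 𝒜 (bx A x₁ x₂ 0 0))
    (hμ0 : μ ≠ 0) :
    lam + θ ≠ 0 ∧ k * (lam + θ)⁻¹ * μ ∈ W 𝒜 (E.ker₂ : Set G) ∧
      ((∀ s, pr 𝒜 (bx A x₁ x₂ s 0) (k * (lam + θ)⁻¹ * μ) ≠ 0) ∨
        (∀ s, pr 𝒜 (bx A x₁ x₂ s 0) (k * (lam + θ)⁻¹ * μ) ≠ 0 ↔ s = -1)) := by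
  obtain ⟨h1, h2, h3, h4⟩ := eps 𝒜 E hT hθ hθ0 hlam
  refine ⟨h1, ?_, ?_⟩
  · exact (WF 𝒜 E.ker₂).mul_mem ((WF 𝒜 E.ker₂).mul_mem (W_mono 𝒜 (ker_le₂ E) hk) h2)
      (W_mono 𝒜 (ker_le₂ E) hμ)
  · have key : ∀ s, pr 𝒜 (bx A x₁ x₂ s 0) (k * (lam + θ)⁻¹ * μ) =
        k * pr 𝒜 (bx A x₁ x₂ s 0) (lam + θ)⁻¹ * μ := by
      intro s
      rw [E.pr_mul0' 𝒜 hμ, E.pr_mul0 𝒜 hk]
    have key2 : ∀ s, pr 𝒜 (bx A x₁ x₂ s 0) (k * (lam + θ)⁻¹ * μ) ≠ 0 ↔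
        pr 𝒜 (bx A x₁ x₂ s 0) (lam + θ)⁻¹ ≠ 0 := by
      intro s
      rw [key s]
      constructor
      · intro h h0
        rw [h0, mul_zero, zero_mul] at h
        exact h rfl
      · intro h
        exact mul_ne_zero (mul_ne_zero hk0 h) hμ0
    by_cases hl : lam = 0
    · right
      intro s
      rw [key2 s]
      exact h4 hl s
    · left
      intro s
      rw [key2 s]
      exact h3 hl s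

/-- algebra: one line of the relation -/
theorem alg {D : Type*} [DivisionRing D] {k01 k02 k10 k11 k12 θ₁ Y1 Y2 : D} (n02 : k02 ≠ 0)
    (n12 : k12 ≠ 0)
    (hlt : k11 - k12 * k02⁻¹ * k01 + θ₁ ≠ 0)
    (E1 : k10 = (k11 + θ₁) * Y1 + k12 * Y2) :
    k01 * Y1 = -(k01 * (k11 - k12 * k02⁻¹ * k01 + θ₁)⁻¹ * (k12 * k02⁻¹) *
      ((k01 * Y1 + k02 * Y2) - (k12 * k02⁻¹)⁻¹ * k10)) := by
  have hμ : k12 * k02⁻¹ ≠ 0 := mul_ne_zero n12 (inv_ne_zero n02)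
  have h1 : (k12 * k02⁻¹) * ((k01 * Y1 + k02 * Y2) - (k12 * k02⁻¹)⁻¹ * k10) =
      -((k11 - k12 * k02⁻¹ * k01 + θ₁) * Y1) := by
    rw [mul_sub, mul_inv_cancel_left₀ hμ, mul_add, mul_assoc k12 k02⁻¹ (k02 * Y2),
      inv_mul_cancel_left₀ n02, E1]
    simp only [add_mul, sub_mul, mul_assoc]
    abel
  rw [mul_assoc _ (k12 * k02⁻¹) _, h1, mul_neg, neg_neg, mul_assoc, inv_mul_cancel_left₀ hlt]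

end CA17

open CA17 in
/-- block CASEA: three equations, all off-diagonal coefficients nonzero.
Proof: `Z = (k22+θ₂)⁻¹`, `ω = (k11 - k12 Z k21 + θ₁)⁻¹` (nonzero since `θ₁` is not in `W (x₁ = 0)`),
`Y1 = ω (k10 - k12 Z k20)`, `Y2 = Z (k20 - k21 Y1)`, `f = k01 Y1 + k02 Y2`, `F = k00 - f`,
`y1 = -Y1 y0`, `y2 = -Y2 y0`. If `F ∈ W (x₁ - x₂ = d)` use `rel_false` with `k = k00`,
`μ₁ = k12 k02⁻¹`, `λ₁ = k11 - μ₁ k01`, `ε₁ = (λ₁+θ₁)⁻¹` (`eps`), `ν₁ = μ₁⁻¹ k10`,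
`φ₁ = k01 ε₁ μ₁` and the same with 1 and 2 swapped. -/
theorem case_a [Fact p.Prime] (hp : p ≠ 2) (E : Ex A x₁ x₂) {T₁ T₂ : G}
    (hT₁ : T₁ ∈ bx A x₁ x₂ 1 0) (hT₂ : T₂ ∈ bx A x₁ x₂ 0 1) {θ₀ θ₁ θ₂ : D}
    (hθ₁ : θ₁ ∈ W 𝒜 ({T₁} : Set G)) (hθ₂ : θ₂ ∈ W 𝒜 ({T₂} : Set G)) (hθ₁0 : θ₁ ≠ 0)
    (hθ₂0 : θ₂ ≠ 0) {k00 k01 k02 k10 k11 k12 k20 k21 k22 : D}
    (h00 : k00 ∈ W 𝒜 (bx A x₁ x₂ 0 0)) (h01 : k01 ∈ W 𝒜 (bx A x₁ x₂ 0 0))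
    (h02 : k02 ∈ W 𝒜 (bx A x₁ x₂ 0 0)) (h10 : k10 ∈ W 𝒜 (bx A x₁ x₂ 0 0))
    (h11 : k11 ∈ W 𝒜 (bx A x₁ x₂ 0 0)) (h12 : k12 ∈ W 𝒜 (bx A x₁ x₂ 0 0))
    (h20 : k20 ∈ W 𝒜 (bx A x₁ x₂ 0 0)) (h21 : k21 ∈ W 𝒜 (bx A x₁ x₂ 0 0))
    (h22 : k22 ∈ W 𝒜 (bx A x₁ x₂ 0 0)) (n01 : k01 ≠ 0) (n02 : k02 ≠ 0) (n10 : k10 ≠ 0)
    (n12 : k12 ≠ 0) (n20 : k20 ≠ 0) (n21 : k21 ≠ 0) {y0 y1 y2 : D}
    (e0 : (k00 + θ₀) * y0 + k01 * y1 + k02 * y2 = 1)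
    (e1 : k10 * y0 + (k11 + θ₁) * y1 + k12 * y2 = 0)
    (e2 : k20 * y0 + k21 * y1 + (k22 + θ₂) * y2 = 0) :
    ∃ F ∈ W 𝒜 (A : Set G), (F + θ₀) * y0 = 1 ∧
      ∀ d, F ∉ W 𝒜 {h | h ∈ A ∧ x₁ h - x₂ h = d} := by
  have hT₂' : T₂ ∈ bx A x₂ x₁ 1 0 := by rw [bx_symm]; exact hT₂
  have sw : ∀ {z : D}, z ∈ W 𝒜 (bx A x₁ x₂ 0 0) → z ∈ W 𝒜 (bx A x₂ x₁ 0 0) := by
    intro z hz; rw [bx_symm]; exact hz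
  have toA : ∀ {z : D}, z ∈ W 𝒜 (bx A x₁ x₂ 0 0) → z ∈ WF 𝒜 A := fun hz =>
    W_mono 𝒜 (bx_sub 0 0) hz
  have to1 : ∀ {z : D}, z ∈ W 𝒜 (bx A x₁ x₂ 0 0) → z ∈ WF 𝒜 E.ker₁ := fun hz =>
    W_mono 𝒜 (ker_le₁ E) hz
  -- the pivots
  have p2 : k22 + θ₂ ≠ 0 := (eps 𝒜 E.symm hT₂' hθ₂ hθ₂0 (sw h22)).1
  have Z1 : (k22 + θ₂)⁻¹ ∈ WF 𝒜 E.ker₁ := (eps 𝒜 E.symm hT₂' hθ₂ hθ₂0 (sw h22)).2.1
  have θ1bx : θ₁ ∈ W 𝒜 (bx A x₁ x₂ 1 0) := W_mono 𝒜 (by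
    intro g hg; rw [Set.mem_singleton_iff] at hg; rw [hg]; exact hT₁) hθ₁
  have θ2bx : θ₂ ∈ W 𝒜 (bx A x₁ x₂ 0 1) := W_mono 𝒜 (by
    intro g hg; rw [Set.mem_singleton_iff] at hg; rw [hg]; exact hT₂) hθ₂
  have hmem : k11 - k12 * (k22 + θ₂)⁻¹ * k21 ∈ WF 𝒜 E.ker₁ :=
    (WF 𝒜 E.ker₁).sub_mem (to1 h11)
      ((WF 𝒜 E.ker₁).mul_mem ((WF 𝒜 E.ker₁).mul_mem (to1 h12) Z1) (to1 h21))
  have p1 : k11 - k12 * (k22 + θ₂)⁻¹ * k21 + θ₁ ≠ 0 := by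
    intro h
    have h1 : θ₁ ∈ WF 𝒜 E.ker₁ := by
      rw [eq_neg_of_add_eq_zero_right h]
      exact (WF 𝒜 E.ker₁).neg_mem hmem
    refine hθ₁0 (eq_zero_of 𝒜 (P := bx A x₁ x₂ 1 0) (Q := (E.ker₁ : Set G)) ?_ θ1bx h1)
    intro g hg hg'
    have h2 : x₁ g = 0 := hg'.2
    rw [hg.2.1] at h2
    exact one_ne_zero h2
  set Z := (k22 + θ₂)⁻¹ with hZ
  set ω := (k11 - k12 * Z * k21 + θ₁)⁻¹ with hω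
  obtain ⟨Y1, hY1⟩ : ∃ Y1, Y1 = ω * (k10 - k12 * Z * k20) := ⟨_, rfl⟩
  obtain ⟨Y2, hY2⟩ : ∃ Y2, Y2 = Z * (k20 - k21 * Y1) := ⟨_, rfl⟩
  -- the equations of Y1, Y2
  have E2 : k20 = k21 * Y1 + (k22 + θ₂) * Y2 := by
    rw [hY2, hZ, mul_inv_cancel_left₀ p2]; abel
  have E1 : k10 = (k11 + θ₁) * Y1 + k12 * Y2 := by
    have h1 : (k11 - k12 * Z * k21 + θ₁) * Y1 = k10 - k12 * Z * k20 := by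
      rw [hY1, hω, mul_inv_cancel_left₀ p1]
    have h2 : (k11 + θ₁) * Y1 = k10 - k12 * Z * k20 + k12 * Z * k21 * Y1 := by
      rw [← h1]; simp only [add_mul, sub_mul]; abel
    rw [h2, hY2]
    simp only [mul_sub, mul_assoc]
    abel
  -- y1, y2
  have hy1 : y1 = -(Y1 * y0) ∧ y2 = -(Y2 * y0) := by
    -- u = y1 + Y1 y0, w = y2 + Y2 y0 satisfy the homogeneous system
    have a1 : (k11 + θ₁) * (y1 + Y1 * y0) + k12 * (y2 + Y2 * y0) = 0 := by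
      have : (k11 + θ₁) * (y1 + Y1 * y0) + k12 * (y2 + Y2 * y0) =
          ((k11 + θ₁) * Y1 + k12 * Y2) * y0 + (k11 + θ₁) * y1 + k12 * y2 := by
        simp only [mul_add, add_mul, mul_assoc]; abel
      rw [this, ← E1]; exact e1
    have a2 : k21 * (y1 + Y1 * y0) + (k22 + θ₂) * (y2 + Y2 * y0) = 0 := by
      have : k21 * (y1 + Y1 * y0) + (k22 + θ₂) * (y2 + Y2 * y0) =
          (k21 * Y1 + (k22 + θ₂) * Y2) * y0 + k21 * y1 + (k22 + θ₂) * y2 := by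
        simp only [mul_add, add_mul, mul_assoc]; abel
      rw [this, ← E2]; exact e2
    have a3 : y2 + Y2 * y0 = -(Z * (k21 * (y1 + Y1 * y0))) := by
      have h3 := eq_neg_of_add_eq_zero_right a2
      rw [← inv_mul_cancel_left₀ p2 (y2 + Y2 * y0), h3, mul_neg]
    have a4 : (k11 - k12 * Z * k21 + θ₁) * (y1 + Y1 * y0) = 0 := by
      rw [a3] at a1
      rw [← a1]
      simp only [add_mul, sub_mul, mul_neg, mul_assoc]; abel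
    have a5 : y1 + Y1 * y0 = 0 := (mul_eq_zero.1 a4).resolve_left p1
    rw [a5, mul_zero, mul_zero, neg_zero] at a3
    exact ⟨eq_neg_of_add_eq_zero_left a5, eq_neg_of_add_eq_zero_left a3⟩
  -- membership
  have tZ : Z ∈ WF 𝒜 A := W_mono 𝒜 (fun g hg => hg.1) Z1
  have tθ1 : θ₁ ∈ WF 𝒜 A := W_mono 𝒜 (bx_sub 1 0) θ1bx
  have tω : ω ∈ WF 𝒜 A := by
    refine (WF 𝒜 A).inv_mem ((WF 𝒜 A).add_mem ((WF 𝒜 A).sub_mem (toA h11)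
      ((WF 𝒜 A).mul_mem ((WF 𝒜 A).mul_mem (toA h12) tZ) (toA h21))) tθ1)
  have tY1 : Y1 ∈ WF 𝒜 A := by
    rw [hY1]
    exact (WF 𝒜 A).mul_mem tω ((WF 𝒜 A).sub_mem (toA h10)
      ((WF 𝒜 A).mul_mem ((WF 𝒜 A).mul_mem (toA h12) tZ) (toA h20)))
  have tY2 : Y2 ∈ WF 𝒜 A := by
    rw [hY2]
    exact (WF 𝒜 A).mul_mem tZ ((WF 𝒜 A).sub_mem (toA h20) ((WF 𝒜 A).mul_mem (toA h21) tY1))
  refine ⟨k00 - (k01 * Y1 + k02 * Y2), ?_, ?_, ?_⟩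
  · exact (WF 𝒜 A).sub_mem (toA h00) ((WF 𝒜 A).add_mem ((WF 𝒜 A).mul_mem (toA h01) tY1)
      ((WF 𝒜 A).mul_mem (toA h02) tY2))
  · rw [hy1.1, hy1.2] at e0
    rw [← e0]
    simp only [add_mul, sub_mul, mul_neg, mul_assoc]
    abel
  · intro d hd
    -- the data of the relation
    have hμ₁ : k12 * k02⁻¹ ∈ W 𝒜 (bx A x₁ x₂ 0 0) :=
      (WF 𝒜 E.ker).mul_mem h12 ((WF 𝒜 E.ker).inv_mem h02)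
    have hμ₂ : k21 * k01⁻¹ ∈ W 𝒜 (bx A x₁ x₂ 0 0) :=
      (WF 𝒜 E.ker).mul_mem h21 ((WF 𝒜 E.ker).inv_mem h01)
    have hμ₁0 : k12 * k02⁻¹ ≠ 0 := mul_ne_zero n12 (inv_ne_zero n02)
    have hμ₂0 : k21 * k01⁻¹ ≠ 0 := mul_ne_zero n21 (inv_ne_zero n01)
    have hlam1 : k11 - k12 * k02⁻¹ * k01 ∈ W 𝒜 (bx A x₁ x₂ 0 0) :=
      (WF 𝒜 E.ker).sub_mem h11 ((WF 𝒜 E.ker).mul_mem hμ₁ h01)
    have hlam2 : k22 - k21 * k01⁻¹ * k02 ∈ W 𝒜 (bx A x₁ x₂ 0 0) :=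
      (WF 𝒜 E.ker).sub_mem h22 ((WF 𝒜 E.ker).mul_mem hμ₂ h02)
    have hν₁ : (k12 * k02⁻¹)⁻¹ * k10 ∈ W 𝒜 (bx A x₁ x₂ 0 0) :=
      (WF 𝒜 E.ker).mul_mem ((WF 𝒜 E.ker).inv_mem hμ₁) h10
    have hν₂ : (k21 * k01⁻¹)⁻¹ * k20 ∈ W 𝒜 (bx A x₁ x₂ 0 0) :=
      (WF 𝒜 E.ker).mul_mem ((WF 𝒜 E.ker).inv_mem hμ₂) h20
    obtain ⟨l1, l2, l3⟩ := line 𝒜 E hT₁ hθ₁ hθ₁0 hlam1 h01 n01 hμ₁ hμ₁0
    obtain ⟨m1, m2, m3⟩ := line 𝒜 E.symm hT₂' hθ₂ hθ₂0 (sw hlam2) (sw h02) n02 (sw hμ₂) hμ₂0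
    have m3' : (∀ t, pr 𝒜 (bx A x₁ x₂ 0 t)
          (k02 * (k22 - k21 * k01⁻¹ * k02 + θ₂)⁻¹ * (k21 * k01⁻¹)) ≠ 0) ∨
        (∀ t, pr 𝒜 (bx A x₁ x₂ 0 t)
          (k02 * (k22 - k21 * k01⁻¹ * k02 + θ₂)⁻¹ * (k21 * k01⁻¹)) ≠ 0 ↔ t = -1) := by
      simpa only [bx_symm] using m3
    have r1 := alg (D := D) (k01 := k01) (k02 := k02) (k10 := k10) (k11 := k11) (k12 := k12)
      (θ₁ := θ₁) (Y1 := Y1) (Y2 := Y2) n02 n12 l1 E1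
    have r2 := alg (D := D) (k01 := k02) (k02 := k01) (k10 := k20) (k11 := k22) (k12 := k21)
      (θ₁ := θ₂) (Y1 := Y2) (Y2 := Y1) n01 n21 m1 (by rw [E2, add_comm])
    have rel : (k01 * Y1 + k02 * Y2) +
        (k01 * (k11 - k12 * k02⁻¹ * k01 + θ₁)⁻¹ * (k12 * k02⁻¹)) *
          ((k01 * Y1 + k02 * Y2) - (k12 * k02⁻¹)⁻¹ * k10) +
        (k02 * (k22 - k21 * k01⁻¹ * k02 + θ₂)⁻¹ * (k21 * k01⁻¹)) *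
          ((k01 * Y1 + k02 * Y2) - (k21 * k01⁻¹)⁻¹ * k20) = 0 := by
      rw [add_comm (k02 * Y2) (k01 * Y1)] at r2
      rw [← neg_eq_iff_eq_neg] at r1 r2
      rw [← r1, ← r2]
      abel
    exact rel_false 𝒜 hp E h00 hν₁ hν₂ (mul_ne_zero (inv_ne_zero hμ₁0) n10)
      (mul_ne_zero (inv_ne_zero hμ₂0) n20) l2 m2 l3 m3' rel hd

end Pool.Agent.Work.MP87745.GS
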