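import Mathlib
import Pool.Agent.Work.MP_87745a_al_gs.Bx
import Pool.Agent.Work.MP_87745a_al_gs.EPS

set_option autoImplicit false

namespace Pool.Agent.Work.MP87745.GS

variable {G : Type*} [Group G] {p : ℕ} {A : Subgroup G} {x₁ x₂ : G → ZMod p}
  {D : Type*} [DivisionRing D] [DecidableEq (Additive G)]
  (𝒜 : Additive G → AddSubgroup D) [GradedRing 𝒜]

namespace CB17

theorem sum_row [Fact p.Prime] (E : Ex A x₁ x₂) {z : D} (hz : z ∈ W 𝒜 (E.ker₂ : Set G)) :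
    ∑ s : ZMod p, pr 𝒜 (bx A x₁ x₂ s 0) z = z := by
  classical
  have h1 := sum_pr 𝒜 (E.ker₂ : Set G) x₁ z
  rw [(mem_W 𝒜).1 hz] at h1
  conv_rhs => rw [← h1]
  refine Finset.sum_congr rfl (fun s _ => ?_)
  congr 2
  ext g
  constructor
  · intro h
    exact ⟨⟨h.1, h.2.2⟩, h.2.1⟩
  · intro h
    exact ⟨h.1.1, h.2, h.1.2⟩

theorem pr_conv [Fact p.Prime] (E : Ex A x₁ x₂) {x : D} (hx : x ∈ W 𝒜 (E.ker₂ : Set G)) (y : D)
    (s t : ZMod p) : pr 𝒜 (bx A x₁ x₂ s t) (x * y) =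
      ∑ s' : ZMod p, pr 𝒜 (bx A x₁ x₂ s' 0) x * pr 𝒜 (bx A x₁ x₂ (s - s') t) y := by
  conv_lhs => rw [← sum_row 𝒜 E hx, Finset.sum_mul, map_sum]
  refine Finset.sum_congr rfl fun s' _ => ?_
  rw [E.pr_mul 𝒜 (pr_mem 𝒜 _ _), sub_zero]

theorem step₁ [Fact p.Prime] (E : Ex A x₁ x₂) {x y : D} (hx : x ∈ W 𝒜 (E.ker₂ : Set G))
    (hy : y ∈ W 𝒜 (E.ker₁ : Set G)) (s t : ZMod p) :
    pr 𝒜 (bx A x₁ x₂ s t) (x * y) = pr 𝒜 (bx A x₁ x₂ s 0) x * pr 𝒜 (bx A x₁ x₂ 0 t) y := by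
  rw [pr_conv 𝒜 E hx, Finset.sum_eq_single s]
  · rw [sub_self]
  · intro s' _ hs'
    rw [pr_zero_of 𝒜 (P := (E.ker₁ : Set G)) _ hy, mul_zero]
    intro g hg hg'
    have h1 : x₁ g = 0 := hg.2
    have h2 : x₁ g = s - s' := hg'.2.1
    rw [h1] at h2
    exact hs' (sub_eq_zero.1 h2.symm).symm
  · simp

theorem step₂ [Fact p.Prime] (E : Ex A x₁ x₂) {x y : D} (hx : x ∈ W 𝒜 (E.ker₁ : Set G))
    (hy : y ∈ W 𝒜 (E.ker₂ : Set G)) (s t : ZMod p) :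
    pr 𝒜 (bx A x₁ x₂ s t) (x * y) = pr 𝒜 (bx A x₁ x₂ 0 t) x * pr 𝒜 (bx A x₁ x₂ s 0) y := by
  have := step₁ 𝒜 E.symm (x := x) (y := y) hx hy t s
  simpa only [bx_symm] using this

theorem ker_le₁ (E : Ex A x₁ x₂) : (bx A x₁ x₂ 0 0) ⊆ (E.ker₁ : Set G) :=
  fun _ h => ⟨h.1, h.2.1⟩

theorem ker_le₂ (E : Ex A x₁ x₂) : (bx A x₁ x₂ 0 0) ⊆ (E.ker₂ : Set G) :=
  fun _ h => ⟨h.1, h.2.2⟩

theorem ker₁_le (E : Ex A x₁ x₂) : (E.ker₁ : Set G) ⊆ (A : Set G) := fun _ h => h.1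

theorem ker₂_le (E : Ex A x₁ x₂) : (E.ker₂ : Set G) ⊆ (A : Set G) := fun _ h => h.1

/-- the inverse factor with parameter `e`, `θ` of exponents `(1, 0)` -/
theorem fac₁ [Fact p.Prime] (E : Ex A x₁ x₂) {T : G} (hT : T ∈ bx A x₁ x₂ 1 0) {θ e v : D}
    (hθ : θ ∈ W 𝒜 ({T} : Set G)) (hθ0 : θ ≠ 0) (he : e ∈ W 𝒜 (bx A x₁ x₂ 0 0)) (he0 : e ≠ 0)
    (hv : v ∈ W 𝒜 (bx A x₁ x₂ 0 0)) (hv0 : v ≠ 0) :
    -((e + θ)⁻¹ * v) ∈ W 𝒜 (E.ker₂ : Set G) ∧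
      ∀ s, pr 𝒜 (bx A x₁ x₂ s 0) (-((e + θ)⁻¹ * v)) ≠ 0 := by
  obtain ⟨h1, h2, h3, -⟩ := eps 𝒜 E hT hθ hθ0 he
  refine ⟨(WF 𝒜 E.ker₂).neg_mem ((WF 𝒜 E.ker₂).mul_mem h2 (W_mono 𝒜 (ker_le₂ E) hv)), ?_⟩
  intro s
  rw [map_neg, E.pr_mul0' 𝒜 hv]
  exact neg_ne_zero.2 (mul_ne_zero (h3 he0 s) hv0)

/-- the chain -/
noncomputable def V (e v θ : ZMod p → D) (c : ZMod p) : ℕ → D
  | 0 => 1
  | m + 1 => -((e (((m + 1 : ℕ) : ZMod p) * c) + θ (((m + 1 : ℕ) : ZMod p) * c))⁻¹ *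
      v (((m + 1 : ℕ) : ZMod p) * c)) * V e v θ c m

/-- `i` is one of `c, …, m c` -/
def Hit (c i : ZMod p) (m : ℕ) : Prop := ∃ l : ℕ, 1 ≤ l ∧ l ≤ m ∧ (l : ZMod p) * c = i

theorem not_hit_zero (c i : ZMod p) : ¬ Hit c i 0 := by
  rintro ⟨l, h1, h2, -⟩
  omega

theorem hit_succ {c i : ZMod p} {m : ℕ} :
    Hit c i (m + 1) ↔ Hit c i m ∨ ((m + 1 : ℕ) : ZMod p) * c = i := by
  constructor
  · rintro ⟨l, h1, h2, h3⟩
    rcases Nat.lt_or_ge m l with h | h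
    · have : l = m + 1 := by omega
      subst this
      exact Or.inr h3
    · exact Or.inl ⟨l, h1, h, h3⟩
  · rintro (⟨l, h1, h2, h3⟩ | h)
    · exact ⟨l, h1, by omega, h3⟩
    · exact ⟨m + 1, by omega, le_refl _, h⟩

theorem not_hit [Fact p.Prime] {c i : ZMod p} (hc : c ≠ 0) {m : ℕ} (hm : m + 1 < p)
    (h : ((m + 1 : ℕ) : ZMod p) * c = i) : ¬ Hit c i m := by
  rintro ⟨l, h1, h2, h3⟩
  rw [← h] at h3
  have h4 := mul_right_cancel₀ hc h3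
  rw [ZMod.natCast_eq_natCast_iff'] at h4
  rw [Nat.mod_eq_of_lt (by omega), Nat.mod_eq_of_lt hm] at h4
  omega

theorem hit_last [Fact p.Prime] {c i : ZMod p} (hc : c ≠ 0) (hi : i ≠ 0) : Hit c i (p - 1) := by
  have hp := (Fact.out : p.Prime).pos
  refine ⟨(i / c).val, ?_, ?_, ?_⟩
  · have : (i / c).val ≠ 0 := by
      rw [Ne, ZMod.val_eq_zero]
      exact div_ne_zero hi hc
    omega
  · have := ZMod.val_lt (i / c)
    omega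
  · rw [ZMod.natCast_zmod_val, div_mul_cancel₀ _ hc]

/-- the invariant -/
theorem inv [Fact p.Prime] (E : Ex A x₁ x₂) {i j c : ZMod p}
    (hij : i ≠ j) (hc : c ≠ 0) {T₁ T₂ : G}
    (hT₁ : T₁ ∈ bx A x₁ x₂ 1 0) (hT₂ : T₂ ∈ bx A x₁ x₂ 0 1) {θ : ZMod p → D}
    (hθ₁ : θ i ∈ W 𝒜 ({T₁} : Set G)) (hθ₂ : θ j ∈ W 𝒜 ({T₂} : Set G)) (hθ₁0 : θ i ≠ 0)
    (hθ₂0 : θ j ≠ 0) {e v : ZMod p → D} (he : ∀ k, e k ∈ W 𝒜 (bx A x₁ x₂ 0 0))
    (hv : ∀ k, v k ∈ W 𝒜 (bx A x₁ x₂ 0 0)) (he0 : ∀ k, e k ≠ 0) (hv0 : ∀ k, v k ≠ 0)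
    (hθ : ∀ k, k ≠ 0 → k ≠ i → k ≠ j → θ k ∈ W 𝒜 (bx A x₁ x₂ 0 0) ∧ e k + θ k ≠ 0) :
    ∀ m : ℕ, m < p → V e v θ c m ∈ W 𝒜 (A : Set G) ∧
      (¬ Hit c i m → V e v θ c m ∈ W 𝒜 (E.ker₁ : Set G)) ∧
      (¬ Hit c j m → V e v θ c m ∈ W 𝒜 (E.ker₂ : Set G)) ∧
      ∀ s t, (s = 0 ∨ Hit c i m) → (t = 0 ∨ Hit c j m) →
        pr 𝒜 (bx A x₁ x₂ s t) (V e v θ c m) ≠ 0 := by
  intro m
  induction m with
  | zero =>
    intro _
    have h1 : (1 : D) ∈ W 𝒜 (bx A x₁ x₂ 0 0) := one_mem_W 𝒜 E.one_mem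
    refine ⟨W_mono 𝒜 (bx_sub 0 0) h1, fun _ => W_mono 𝒜 (ker_le₁ E) h1,
      fun _ => W_mono 𝒜 (ker_le₂ E) h1, ?_⟩
    intro s t hs ht
    have hs' : s = 0 := hs.resolve_right (not_hit_zero c i)
    have ht' : t = 0 := ht.resolve_right (not_hit_zero c j)
    subst hs' ht'
    change pr 𝒜 (bx A x₁ x₂ 0 0) (1 : D) ≠ 0
    rw [(mem_W 𝒜).1 h1]
    exact one_ne_zero
  | succ m ih =>
    intro hm
    obtain ⟨I1, I2, I3, I4⟩ := ih (by omega)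
    set k : ZMod p := ((m + 1 : ℕ) : ZMod p) * c with hk
    have hk0 : k ≠ 0 := by
      rw [hk]
      refine mul_ne_zero ?_ hc
      rw [Ne, ZMod.natCast_eq_zero_iff]
      intro h
      exact absurd (Nat.le_of_dvd (by omega) h) (by omega)
    have hV : V e v θ c (m + 1) = -((e k + θ k)⁻¹ * v k) * V e v θ c m := rfl
    rw [hV]
    by_cases hki : k = i
    · -- the factor of `i`
      have hni : ¬ Hit c i m := not_hit hc hm hki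
      have hnj : Hit c j (m + 1) ↔ Hit c j m := by
        rw [hit_succ]
        refine or_iff_left ?_
        intro h
        exact hij (hki.symm.trans h)
      obtain ⟨U1, U2⟩ := fac₁ 𝒜 E hT₁ hθ₁ hθ₁0 (he i) (he0 i) (hv i) (hv0 i)
      rw [hki]
      refine ⟨(WF 𝒜 A).mul_mem (W_mono 𝒜 (ker₂_le E) U1) I1, ?_, ?_, ?_⟩
      · intro h
        exact absurd (hit_succ.2 (Or.inr hki)) h
      · intro h
        rw [hnj] at h
        exact (WF 𝒜 E.ker₂).mul_mem U1 (I3 h)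
      · intro s t _ ht
        rw [hnj] at ht
        rw [step₁ 𝒜 E U1 (I2 hni)]
        exact mul_ne_zero (U2 s) (I4 0 t (Or.inl rfl) ht)
    · by_cases hkj : k = j
      · have hnj : ¬ Hit c j m := not_hit hc hm hkj
        have hni : Hit c i (m + 1) ↔ Hit c i m := by
          rw [hit_succ]
          refine or_iff_left ?_
          intro h
          exact hij (h.symm.trans hkj)
        have hT₂' : T₂ ∈ bx A x₂ x₁ 1 0 := by rw [bx_symm]; exact hT₂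
        have he' : e j ∈ W 𝒜 (bx A x₂ x₁ 0 0) := by rw [bx_symm]; exact he j
        have hv' : v j ∈ W 𝒜 (bx A x₂ x₁ 0 0) := by rw [bx_symm]; exact hv j
        obtain ⟨U1, U2⟩ := fac₁ 𝒜 E.symm hT₂' hθ₂ hθ₂0 he' (he0 j) hv' (hv0 j)
        have U1' : -((e j + θ j)⁻¹ * v j) ∈ W 𝒜 (E.ker₁ : Set G) := U1
        have U2' : ∀ t, pr 𝒜 (bx A x₁ x₂ 0 t) (-((e j + θ j)⁻¹ * v j)) ≠ 0 := by
          intro t
          have := U2 t
          rwa [bx_symm] at this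
        rw [hkj]
        refine ⟨(WF 𝒜 A).mul_mem (W_mono 𝒜 (ker₁_le E) U1') I1, ?_, ?_, ?_⟩
        · intro h
          rw [hni] at h
          exact (WF 𝒜 E.ker₁).mul_mem U1' (I2 h)
        · intro h
          exact absurd (hit_succ.2 (Or.inr hkj)) h
        · intro s t hs _
          rw [hni] at hs
          rw [step₂ 𝒜 E U1' (I3 hnj)]
          exact mul_ne_zero (U2' t) (I4 s 0 hs (Or.inl rfl))
      · obtain ⟨h1, h2⟩ := hθ k hk0 hki hkj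
        have hU : -((e k + θ k)⁻¹ * v k) ∈ W 𝒜 (bx A x₁ x₂ 0 0) := by
          have h3 : e k + θ k ∈ WF 𝒜 E.ker := (WF 𝒜 E.ker).add_mem (he k) h1
          exact (WF 𝒜 E.ker).neg_mem ((WF 𝒜 E.ker).mul_mem ((WF 𝒜 E.ker).inv_mem h3) (hv k))
        have hU0 : -((e k + θ k)⁻¹ * v k) ≠ 0 :=
          neg_ne_zero.2 (mul_ne_zero (inv_ne_zero h2) (hv0 k))
        have hni : Hit c i (m + 1) ↔ Hit c i m := by
          rw [hit_succ]
          exact or_iff_left hki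
        have hnj : Hit c j (m + 1) ↔ Hit c j m := by
          rw [hit_succ]
          exact or_iff_left hkj
        refine ⟨(WF 𝒜 A).mul_mem (W_mono 𝒜 (bx_sub 0 0) hU) I1, ?_, ?_, ?_⟩
        · intro h
          rw [hni] at h
          exact (WF 𝒜 E.ker₁).mul_mem (W_mono 𝒜 (ker_le₁ E) hU) (I2 h)
        · intro h
          rw [hnj] at h
          exact (WF 𝒜 E.ker₂).mul_mem (W_mono 𝒜 (ker_le₂ E) hU) (I3 h)
        · intro s t hs ht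
          rw [hni] at hs
          rw [hnj] at ht
          rw [E.pr_mul0 𝒜 hU]
          exact mul_ne_zero hU0 (I4 s t hs ht)

end CB17

open CB17 in
/-- block CASEB: cyclic chain of equations -/
theorem case_b [Fact p.Prime] (hp : p ≠ 2) (E : Ex A x₁ x₂) {i j c : ZMod p} (hi : i ≠ 0)
    (hj : j ≠ 0) (hij : i ≠ j) (hc : c ≠ 0) {T₁ T₂ : G}
    (hT₁ : T₁ ∈ bx A x₁ x₂ 1 0) (hT₂ : T₂ ∈ bx A x₁ x₂ 0 1) {θ : ZMod p → D}
    (hθ₁ : θ i ∈ W 𝒜 ({T₁} : Set G)) (hθ₂ : θ j ∈ W 𝒜 ({T₂} : Set G)) (hθ₁0 : θ i ≠ 0)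
    (hθ₂0 : θ j ≠ 0) {e v y : ZMod p → D} (he : ∀ k, e k ∈ W 𝒜 (bx A x₁ x₂ 0 0))
    (hv : ∀ k, v k ∈ W 𝒜 (bx A x₁ x₂ 0 0)) (he0 : ∀ k, e k ≠ 0) (hv0 : ∀ k, v k ≠ 0)
    (hθ : ∀ k, k ≠ 0 → k ≠ i → k ≠ j → θ k ∈ W 𝒜 (bx A x₁ x₂ 0 0) ∧ e k + θ k ≠ 0)
    (e0 : (e 0 + θ 0) * y 0 + v 0 * y (-c) = 1)
    (e1 : ∀ k, k ≠ 0 → (e k + θ k) * y k + v k * y (k - c) = 0) :
    ∃ F ∈ W 𝒜 (A : Set G), (F + θ 0) * y 0 = 1 ∧
      ∀ d, F ∉ W 𝒜 {h | h ∈ A ∧ x₁ h - x₂ h = d} := by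
  have hp0 := (Fact.out : p.Prime).pos
  have hp1 := (Fact.out : p.Prime).one_lt
  have key := inv 𝒜 E hij hc hT₁ hT₂ hθ₁ hθ₂ hθ₁0 hθ₂0 he hv he0 hv0 hθ
  -- all pivots are nonzero
  have hpiv : ∀ k, k ≠ 0 → e k + θ k ≠ 0 := by
    intro k hk
    by_cases hki : k = i
    · rw [hki]
      exact (eps 𝒜 E hT₁ hθ₁ hθ₁0 (he i)).1
    · by_cases hkj : k = j
      · rw [hkj]
        have hT₂' : T₂ ∈ bx A x₂ x₁ 1 0 := by rw [bx_symm]; exact hT₂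
        have he' : e j ∈ W 𝒜 (bx A x₂ x₁ 0 0) := by rw [bx_symm]; exact he j
        exact (eps 𝒜 E.symm hT₂' hθ₂ hθ₂0 he').1
      · exact (hθ k hk hki hkj).2
  have hy : ∀ m : ℕ, m < p → y ((m : ZMod p) * c) = V e v θ c m * y 0 := by
    intro m
    induction m with
    | zero => intro _; simp [V]
    | succ m ih =>
      intro hm
      have h1 := ih (by omega)
      have hk0 : ((m + 1 : ℕ) : ZMod p) * c ≠ 0 := by
        refine mul_ne_zero ?_ hc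
        rw [Ne, ZMod.natCast_eq_zero_iff]
        intro h
        exact absurd (Nat.le_of_dvd (by omega) h) (by omega)
      have h2 := e1 _ hk0
      have h3 : ((m + 1 : ℕ) : ZMod p) * c - c = (m : ZMod p) * c := by
        push_cast; ring
      rw [h3, h1] at h2
      have h4 := hpiv _ hk0
      change _ = -((e (((m + 1 : ℕ) : ZMod p) * c) + θ (((m + 1 : ℕ) : ZMod p) * c))⁻¹ *
        v (((m + 1 : ℕ) : ZMod p) * c)) * V e v θ c m * y 0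
      have h5 : (e (((m + 1 : ℕ) : ZMod p) * c) + θ (((m + 1 : ℕ) : ZMod p) * c)) *
          y (((m + 1 : ℕ) : ZMod p) * c) =
          -(v (((m + 1 : ℕ) : ZMod p) * c) * (V e v θ c m * y 0)) := eq_neg_of_add_eq_zero_left h2
      rw [← inv_mul_cancel_left₀ h4 (y (((m + 1 : ℕ) : ZMod p) * c)), h5]
      simp only [mul_neg, neg_mul, mul_assoc]
  have hlast : y (-c) = V e v θ c (p - 1) * y 0 := by
    rw [← hy (p - 1) (by omega)]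
    congr 1
    rw [Nat.cast_sub (by omega : 1 ≤ p)]
    simp
  obtain ⟨J1, -, -, J4⟩ := key (p - 1) (by omega)
  have Hi : Hit c i (p - 1) := hit_last hc hi
  refine ⟨e 0 + v 0 * V e v θ c (p - 1), ?_, ?_, ?_⟩
  · exact (WF 𝒜 A).add_mem (W_mono 𝒜 (bx_sub 0 0) (he 0))
      ((WF 𝒜 A).mul_mem (W_mono 𝒜 (bx_sub 0 0) (hv 0)) J1)
  · rw [hlast] at e0
    rw [← e0]
    simp only [add_mul, mul_assoc]
    abel
  · intro d hd
    have hpart : ∀ s : ZMod p, s ≠ 0 → d = s := by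
      intro s hs
      by_contra hds
      have h1 : pr 𝒜 (bx A x₁ x₂ s 0) (e 0 + v 0 * V e v θ c (p - 1)) = 0 := by
        refine pr_zero_of 𝒜 ?_ hd
        intro g hg hg'
        have a1 : x₁ g - x₂ g = d := hg.2
        rw [hg'.2.1, hg'.2.2, sub_zero] at a1
        exact hds a1.symm
      rw [map_add, E.pr_mul0 𝒜 (hv 0), pr_zero_of 𝒜 (P := bx A x₁ x₂ 0 0) _ (he 0), zero_add] at h1
      · exact mul_ne_zero (hv0 0) (J4 s 0 (Or.inr Hi) (Or.inl rfl)) h1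
      · intro g hg hg'
        exact hs (hg'.2.1.symm.trans hg.2.1)
    have h1 : d = 1 := hpart 1 one_ne_zero
    have h2 : d = 2 := by
      refine hpart 2 ?_
      intro h
      have h3 : ((2 : ℕ) : ZMod p) = 0 := by exact_mod_cast h
      rw [ZMod.natCast_eq_zero_iff] at h3
      have := Nat.le_of_dvd (by norm_num) h3
      omega
    have h3 : (1 : ZMod p) = 2 := h1.symm.trans h2
    have h4 : (1 : ZMod p) = 0 := by
      have : (2 : ZMod p) - 1 = 0 := by rw [h3]; ring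
      have h5 : (2 : ZMod p) - 1 = 1 := by ring
      rw [h5] at this
      exact this
    exact one_ne_zero h4

end Pool.Agent.Work.MP87745.GS
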