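import Mathlib

set_option autoImplicit false

namespace Pool.Agent.Work.MP87745.GS

/-- Power sums of a set which is almost invariant under a translation. -/
theorem conn_key {p : ℕ} [Fact p.Prime] (R : Finset (ZMod p)) {e c : ZMod p} (heR : e ∉ R)
    (hc : c ≠ 0) (hsub : ∀ m ∈ R, m + c ∈ insert e R) :
    2 * ∑ x ∈ R, x - 2 * (R.card : ZMod p) * e = -((R.card : ZMod p) ^ 2 + R.card) * c := by
  classical
  have hinj : Function.Injective (fun x : ZMod p => x + c) := add_left_injective c
  have hs : R.image (fun x => x + c) ⊆ insert e R := by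
    intro y hy
    obtain ⟨x, hx, rfl⟩ := Finset.mem_image.1 hy
    exact hsub x hx
  have hcard : (insert e R \ R.image (fun x => x + c)).card = 1 := by
    rw [Finset.card_sdiff_of_subset hs, Finset.card_image_of_injective _ hinj,
      Finset.card_insert_of_notMem heR]
    omega
  obtain ⟨u, hu⟩ := Finset.card_eq_one.1 hcard
  have hsum : ∀ f : ZMod p → ZMod p, f e + ∑ x ∈ R, f x = f u + ∑ x ∈ R, f (x + c) := by
    intro f
    have h1 := Finset.sum_sdiff (f := f) hs
    rw [hu, Finset.sum_singleton, Finset.sum_image (fun x _ y _ h => hinj h),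
      Finset.sum_insert heR] at h1
    exact h1.symm
  have h1 := hsum (fun x => x)
  have h2 := hsum (fun x => x ^ 2)
  simp only [Finset.sum_add_distrib, Finset.sum_const, nsmul_eq_mul, add_sq] at h1 h2
  rw [← Finset.sum_mul, ← Finset.mul_sum] at h2
  have hu' : u = e - (R.card : ZMod p) * c := by linear_combination (-1 : ZMod p) * h1
  subst hu'
  have h3 : c * (2 * ∑ x ∈ R, x - 2 * (R.card : ZMod p) * e
      + ((R.card : ZMod p) ^ 2 + R.card) * c) = 0 := by
    linear_combination (-1 : ZMod p) * h2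
  rcases mul_eq_zero.1 h3 with h4 | h4
  · exact absurd h4 hc
  · linear_combination h4

/-- statement CONN -/
theorem conn {p : ℕ} [Fact p.Prime] {c₁ c₂ : ZMod p} (h1 : c₁ ≠ 0) (h2 : c₂ ≠ 0)
    (h12 : c₁ ≠ c₂) (r : ZMod p → ZMod p → Prop) (hr₁ : ∀ m, r m (m + c₁))
    (hr₂ : ∀ m, r m (m + c₂)) {a b e : ZMod p} (hab : a ≠ b) (hae : a ≠ e) (hbe : b ≠ e) :
    ∃ m, Relation.ReflTransGen (fun u v => r u v ∧ v ≠ a ∧ v ≠ b ∧ v ≠ e) b m ∧ r m a := by
  classical
  by_contra hcon
  push Not at hcon
  set R : Finset (ZMod p) := Finset.univ.filter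
    (fun m => Relation.ReflTransGen (fun u v => r u v ∧ v ≠ a ∧ v ≠ b ∧ v ≠ e) b m) with hR
  have hmem : ∀ m, m ∈ R ↔
      Relation.ReflTransGen (fun u v => r u v ∧ v ≠ a ∧ v ≠ b ∧ v ≠ e) b m := by
    intro m
    rw [hR, Finset.mem_filter]
    exact ⟨fun h => h.2, fun h => ⟨Finset.mem_univ _, h⟩⟩
  have hb : b ∈ R := (hmem b).2 Relation.ReflTransGen.refl
  have haR : a ∉ R := by
    intro ha
    rcases Relation.ReflTransGen.cases_tail ((hmem a).1 ha) with h | ⟨_, _, h⟩
    · exact hab h
    · exact h.2.1 rfl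
  have heR : e ∉ R := by
    intro he
    rcases Relation.ReflTransGen.cases_tail ((hmem e).1 he) with h | ⟨_, _, h⟩
    · exact hbe h.symm
    · exact h.2.2.2 rfl
  have hstep : ∀ c, (∀ m, r m (m + c)) → ∀ m ∈ R, m + c ∈ insert e R := by
    intro c hrc m hm
    by_cases hme : m + c = e
    · rw [hme]; exact Finset.mem_insert_self _ _
    refine Finset.mem_insert_of_mem ?_
    by_cases hmb : m + c = b
    · rw [hmb]; exact hb
    by_cases hma : m + c = a
    · have := hrc m
      rw [hma] at this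
      exact absurd this (hcon m ((hmem m).1 hm))
    exact (hmem _).2 (Relation.ReflTransGen.tail ((hmem m).1 hm) ⟨hrc m, hma, hmb, hme⟩)
  have e1 := conn_key R heR h1 (hstep c₁ hr₁)
  have e2 := conn_key R heR h2 (hstep c₂ hr₂)
  have e3 : ((R.card : ZMod p) * ((R.card : ZMod p) + 1)) * (c₁ - c₂) = 0 := by
    linear_combination e1 - e2
  have hpos : 0 < R.card := Finset.card_pos.2 ⟨b, hb⟩
  have hlt : R.card + 2 ≤ p := by
    have hs : (insert a (insert e R)).card ≤ (Finset.univ : Finset (ZMod p)).card :=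
      Finset.card_le_card (Finset.subset_univ _)
    rw [Finset.card_insert_of_notMem (by
      rw [Finset.mem_insert]; push Not; exact ⟨hae, haR⟩), Finset.card_insert_of_notMem heR,
      Finset.card_univ, ZMod.card] at hs
    exact hs
  rcases mul_eq_zero.1 e3 with e4 | e4
  · rcases mul_eq_zero.1 e4 with e5 | e5
    · rw [ZMod.natCast_eq_zero_iff] at e5
      have := Nat.le_of_dvd hpos e5
      omega
    · have e6 : ((R.card + 1 : ℕ) : ZMod p) = 0 := by push_cast; exact e5
      rw [ZMod.natCast_eq_zero_iff] at e6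
      have := Nat.le_of_dvd (by omega) e6
      omega
  · exact h12 (sub_eq_zero.1 e4)

end Pool.Agent.Work.MP87745.GS
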