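import Mathlib

set_option autoImplicit false

namespace Pool.Agent.Work.MP87745.GS

/-- self-similarity data of the groups `⟨a, t n⟩`, `t n = (t (n+1) at 0, a at i n, a⁻¹ at j n)` -/
structure Data (p : ℕ) (i j : ℕ → ZMod p) (Γ : ℕ → Type) [∀ n, Group (Γ n)] where
  /-- the rooted element -/
  a : ∀ n, Γ n
  /-- the directed element -/
  t : ∀ n, Γ n
  /-- action on the first letter -/
  c : ∀ n, Γ n → ZMod p
  /-- sections -/
  sec : ∀ n, Γ n → ZMod p → Γ (n + 1)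
  /-- exponent of `t` -/
  τ : ∀ n, Γ n → ZMod p
  c_mul : ∀ n g h, c n (g * h) = c n g + c n h
  c_a : ∀ n, c n (a n) = 1
  c_t : ∀ n, c n (t n) = 0
  sec_mul : ∀ n g h v, sec n (g * h) v = sec n g (v + c n h) * sec n h v
  sec_a : ∀ n v, sec n (a n) v = 1
  sec_t : ∀ n v, sec n (t n) v = if v = 0 then t (n + 1) else if v = i n then a (n + 1)
    else if v = j n then (a (n + 1))⁻¹ else 1
  τ_mul : ∀ n g h, τ n (g * h) = τ n g + τ n h
  τ_a : ∀ n, τ n (a n) = 0
  τ_t : ∀ n, τ n (t n) = 1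
  key : ∀ n g v, c (n + 1) (sec n g v) = τ (n + 1) (sec n g (v - i n)) - τ (n + 1) (sec n g (v - j n))
  a_pow : ∀ n, a n ^ p = 1

end Pool.Agent.Work.MP87745.GS
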