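import Mathlib

set_option autoImplicit false

namespace Pool.Agent.Work.MP87745.GS

/-- SEC: first letter and sections of the elements of `⟨a, t n⟩` -/
theorem exists_sec {p : ℕ} [Fact p.Prime] (i j : ℕ → ZMod p) (hi : ∀ n, i n ≠ 0)
    (hj : ∀ n, j n ≠ 0) (hij : ∀ n, i n ≠ j n) (a : Equiv.Perm (Stream' (ZMod p)))
    (ha : ∀ x y, a (Stream'.cons x y) = Stream'.cons (x + 1) y)
    (t : ℕ → Equiv.Perm (Stream' (ZMod p)))
    (ht : ∀ n x y, t n (Stream'.cons x y) = Stream'.cons x (if x = 0 then t (n + 1) y else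
      if x = i n then a y else if x = j n then a⁻¹ y else y)) (n : ℕ)
    (g : Equiv.Perm (Stream' (ZMod p))) (hg : g ∈ Subgroup.closure {a, t n}) :
    ∃ c : ZMod p, ∃ s : ZMod p → Equiv.Perm (Stream' (ZMod p)),
      (∀ v, s v ∈ Subgroup.closure {a, t (n + 1)}) ∧
        ∀ v y, g (Stream'.cons v y) = Stream'.cons (v + c) (s v y) := by
  have hA : a ∈ Subgroup.closure {a, t (n + 1)} := Subgroup.subset_closure (by simp)
  have hT : t (n + 1) ∈ Subgroup.closure {a, t (n + 1)} := Subgroup.subset_closure (by simp)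
  induction hg using Subgroup.closure_induction with
  | mem x hx =>
    rcases hx with rfl | hx
    · exact ⟨1, fun _ => 1, fun _ => one_mem _, fun v y => by rw [ha]; rfl⟩
    · rw [Set.mem_singleton_iff] at hx
      subst hx
      refine ⟨0, fun v => if v = 0 then t (n + 1) else if v = i n then a else
        if v = j n then a⁻¹ else 1, fun v => ?_, fun v y => ?_⟩
      · dsimp only
        split_ifs
        · exact hT
        · exact hA
        · exact inv_mem hA
        · exact one_mem _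
      · rw [ht, add_zero]
        congr 1
        dsimp only
        split_ifs <;> rfl
  | one => exact ⟨0, fun _ => 1, fun _ => one_mem _, fun v y => by rw [add_zero]; rfl⟩
  | mul g h _ _ ihg ihh =>
    obtain ⟨c₁, s₁, h₁, e₁⟩ := ihg
    obtain ⟨c₂, s₂, h₂, e₂⟩ := ihh
    refine ⟨c₂ + c₁, fun v => s₁ (v + c₂) * s₂ v, fun v => mul_mem (h₁ _) (h₂ _), fun v y => ?_⟩
    rw [Equiv.Perm.mul_apply, e₂, e₁, add_assoc]
    rfl
  | inv g _ ihg =>
    obtain ⟨c, s, h, e⟩ := ihg
    refine ⟨-c, fun v => (s (v + -c))⁻¹, fun v => inv_mem (h _), fun v y => ?_⟩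
    rw [Equiv.Perm.inv_eq_iff_eq, e]
    simp

end Pool.Agent.Work.MP87745.GS
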