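import Mathlib
import Pool.Agent.Work.MP_87745a_al_gs.Defs
import Pool.Agent.Work.MP_87745a_al_gs.SEC

set_option autoImplicit false

namespace Pool.Agent.Work.MP87745.GS

namespace DataAux

variable {p : ℕ} {a : Equiv.Perm (Stream' (ZMod p))} {t : ℕ → Equiv.Perm (Stream' (ZMod p))}

/-- the groups -/
abbrev Gm (a : Equiv.Perm (Stream' (ZMod p))) (t : ℕ → Equiv.Perm (Stream' (ZMod p)))
    (n : ℕ) : Type := ↥(Subgroup.closure ({a, t n} : Set (Equiv.Perm (Stream' (ZMod p)))))

/-- first letters and sections -/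
structure Sec (a : Equiv.Perm (Stream' (ZMod p))) (t : ℕ → Equiv.Perm (Stream' (ZMod p))) where
  c : ∀ n, Gm a t n → ZMod p
  s : ∀ n, Gm a t n → ZMod p → Gm a t (n + 1)
  spec : ∀ n (g : Gm a t n) v y, (g : Equiv.Perm (Stream' (ZMod p))) (Stream'.cons v y) =
    Stream'.cons (v + c n g) ((s n g v : Equiv.Perm (Stream' (ZMod p))) y)

theorem Sec.uniq (T : Sec a t) (n : ℕ) (g : Gm a t n) (c : ZMod p) (s : ZMod p → Gm a t (n + 1))
    (h : ∀ v y, (g : Equiv.Perm (Stream' (ZMod p))) (Stream'.cons v y) =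
      Stream'.cons (v + c) ((s v : Equiv.Perm (Stream' (ZMod p))) y)) :
    T.c n g = c ∧ ∀ v, T.s n g v = s v := by
  have h1 : ∀ v y, v + T.c n g = v + c ∧ (T.s n g v : Equiv.Perm (Stream' (ZMod p))) y =
      (s v : Equiv.Perm (Stream' (ZMod p))) y := by
    intro v y
    exact Stream'.cons_injective2 ((T.spec n g v y).symm.trans (h v y))
  refine ⟨?_, fun v => ?_⟩
  · have := (h1 0 (Stream'.const 0)).1
    simpa using this
  · apply Subtype.ext
    apply Equiv.ext
    intro y
    exact (h1 v y).2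

theorem Sec.mul (T : Sec a t) (n : ℕ) (g h : Gm a t n) :
    T.c n (g * h) = T.c n g + T.c n h ∧
      ∀ v, T.s n (g * h) v = T.s n g (v + T.c n h) * T.s n h v := by
  apply T.uniq n (g * h) (T.c n g + T.c n h) (fun v => T.s n g (v + T.c n h) * T.s n h v)
  intro v y
  rw [Subgroup.coe_mul, Equiv.Perm.mul_apply, T.spec, T.spec, Subgroup.coe_mul,
    Equiv.Perm.mul_apply, add_assoc, add_comm (T.c n h)]

theorem Sec.one (T : Sec a t) (n : ℕ) : T.c n 1 = 0 ∧ ∀ v, T.s n 1 v = 1 := by
  apply T.uniq n 1 0 (fun _ => 1)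
  intro v y
  rw [add_zero]
  rfl

end DataAux

open DataAux in
/-- DATA: the groups `⟨a, t n⟩` have such data -/
theorem exists_data {p : ℕ} [Fact p.Prime] (i j : ℕ → ZMod p) (hi : ∀ n, i n ≠ 0)
    (hj : ∀ n, j n ≠ 0) (hij : ∀ n, i n ≠ j n) (a : Equiv.Perm (Stream' (ZMod p)))
    (ha : ∀ x y, a (Stream'.cons x y) = Stream'.cons (x + 1) y)
    (t : ℕ → Equiv.Perm (Stream' (ZMod p)))
    (ht : ∀ n x y, t n (Stream'.cons x y) = Stream'.cons x (if x = 0 then t (n + 1) y else
      if x = i n then a y else if x = j n then a⁻¹ y else y)) :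
    ∃ S : Data p i j (fun n => ↥(Subgroup.closure ({a, t n} : Set (Equiv.Perm (Stream' (ZMod p)))))),
      (∀ n, (S.a n : Equiv.Perm (Stream' (ZMod p))) = a) ∧
      ∀ n, (S.t n : Equiv.Perm (Stream' (ZMod p))) = t n := by
  classical
  -- the sections
  have hex : ∀ n (g : Gm a t n), ∃ c : ZMod p, ∃ s : ZMod p → Gm a t (n + 1),
      ∀ v y, (g : Equiv.Perm (Stream' (ZMod p))) (Stream'.cons v y) =
        Stream'.cons (v + c) ((s v : Equiv.Perm (Stream' (ZMod p))) y) := by
    intro n g
    obtain ⟨c, s, hs, h⟩ := exists_sec i j hi hj hij a ha t ht n g.1 g.2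
    exact ⟨c, fun v => ⟨s v, hs v⟩, h⟩
  choose cc ss hspec using hex
  let T : Sec a t := ⟨cc, ss, hspec⟩
  have hAm : ∀ n, a ∈ Subgroup.closure ({a, t n} : Set (Equiv.Perm (Stream' (ZMod p)))) :=
    fun n => Subgroup.subset_closure (by simp)
  have hTm : ∀ n, t n ∈ Subgroup.closure ({a, t n} : Set (Equiv.Perm (Stream' (ZMod p)))) :=
    fun n => Subgroup.subset_closure (by simp)
  let A : ∀ n, Gm a t n := fun n => ⟨a, hAm n⟩
  let U : ∀ n, Gm a t n := fun n => ⟨t n, hTm n⟩
  have hA : ∀ n, T.c n (A n) = 1 ∧ ∀ v, T.s n (A n) v = 1 := by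
    intro n
    apply T.uniq n (A n) 1 (fun _ => 1)
    intro v y
    exact ha v y
  have hU : ∀ n, T.c n (U n) = 0 ∧ ∀ v, T.s n (U n) v = if v = 0 then U (n + 1) else
      if v = i n then A (n + 1) else if v = j n then (A (n + 1))⁻¹ else 1 := by
    intro n
    apply T.uniq n (U n) 0 (fun v => if v = 0 then U (n + 1) else
      if v = i n then A (n + 1) else if v = j n then (A (n + 1))⁻¹ else 1)
    intro v y
    change t n (Stream'.cons v y) = _
    rw [ht, add_zero]
    congr 1
    split_ifs <;> rfl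
  have hinv : ∀ n (g : Gm a t n), T.c n g⁻¹ = -T.c n g := by
    intro n g
    have h1 := (T.mul n g⁻¹ g).1
    rw [inv_mul_cancel, (T.one n).1] at h1
    exact (neg_eq_of_add_eq_zero_left h1.symm).symm
  have hsinv : ∀ n (g : Gm a t n) v, T.s n g⁻¹ v = (T.s n g (v - T.c n g))⁻¹ := by
    intro n g v
    have h1 := (T.mul n g g⁻¹).2 v
    rw [mul_inv_cancel, (T.one n).2, hinv, ← sub_eq_add_neg] at h1
    exact eq_inv_of_mul_eq_one_right h1.symm
  -- induction on the elements of the group
  have hind : ∀ (n : ℕ) (P : Gm a t n → Prop), P (A n) → P (U n) → P 1 →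
      (∀ g h, P g → P h → P (g * h)) → (∀ g, P g → P g⁻¹) → ∀ g, P g := by
    intro n P h1 h2 h3 h4 h5 g
    obtain ⟨g, hg⟩ := g
    induction hg using Subgroup.closure_induction with
    | mem x hx =>
      rcases hx with rfl | hx
      · exact h1
      · rw [Set.mem_singleton_iff] at hx
        subst hx
        exact h2
    | one => exact h3
    | mul x y hx hy ihx ihy => exact h4 ⟨x, hx⟩ ⟨y, hy⟩ ihx ihy
    | inv x hx ihx => exact h5 ⟨x, hx⟩ ihx
  -- the sum of the first letters of the sections
  have hsum : ∀ n (g : Gm a t n), ∑ v, T.c (n + 1) (T.s n g v) = 0 := by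
    intro n
    apply hind n
    · simp only [(hA n).2, (T.one (n + 1)).1, Finset.sum_const_zero]
    · have h1 : ∀ v, T.c (n + 1) (T.s n (U n) v) =
          (if v = i n then 1 else 0) + (if v = j n then -1 else 0) := by
        intro v
        rw [(hU n).2]
        by_cases hv0 : v = 0
        · rw [if_pos hv0, (hU (n + 1)).1, hv0, if_neg (hi n).symm, if_neg (hj n).symm, add_zero]
        · rw [if_neg hv0]
          by_cases hvi : v = i n
          · rw [if_pos hvi, if_pos hvi, (hA (n + 1)).1, hvi, if_neg (hij n), add_zero]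
          · rw [if_neg hvi, if_neg hvi]
            by_cases hvj : v = j n
            · rw [if_pos hvj, if_pos hvj, hinv, (hA (n + 1)).1, zero_add]
            · rw [if_neg hvj, if_neg hvj, (T.one (n + 1)).1, zero_add]
      rw [Finset.sum_congr rfl (fun v _ => h1 v), Finset.sum_add_distrib, Finset.sum_ite_eq',
        Finset.sum_ite_eq']
      simp
    · simp only [(T.one n).2, (T.one (n + 1)).1, Finset.sum_const_zero]
    · intro g h hg hh
      have h1 : ∀ v, T.c (n + 1) (T.s n (g * h) v) = T.c (n + 1) (T.s n g (v + T.c n h)) +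
          T.c (n + 1) (T.s n h v) := by
        intro v
        rw [(T.mul n g h).2, (T.mul (n + 1) _ _).1]
      rw [Finset.sum_congr rfl (fun v _ => h1 v), Finset.sum_add_distrib, hh, add_zero, ← hg]
      exact Fintype.sum_equiv (Equiv.addRight (T.c n h)) _ _ (fun v => rfl)
    · intro g hg
      have h1 : ∀ v, T.c (n + 1) (T.s n g⁻¹ v) = -T.c (n + 1) (T.s n g (v - T.c n g)) := by
        intro v
        rw [hsinv, hinv]
      rw [Finset.sum_congr rfl (fun v _ => h1 v), Finset.sum_neg_distrib, neg_eq_zero, ← hg]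
      exact Fintype.sum_equiv (Equiv.subRight (T.c n g)) _ _ (fun v => rfl)
  -- the exponent of `t`
  let τ : ∀ n, Gm a t n → ZMod p := fun n g =>
    (∑ v, v * T.c (n + 1) (T.s n g v)) / (i n - j n)
  have hτm : ∀ n (g h : Gm a t n), τ n (g * h) = τ n g + τ n h := by
    intro n g h
    change (∑ v, v * T.c (n + 1) (T.s n (g * h) v)) / (i n - j n) =
      (∑ v, v * T.c (n + 1) (T.s n g v)) / (i n - j n) +
        (∑ v, v * T.c (n + 1) (T.s n h v)) / (i n - j n)
    rw [← add_div]
    congr 1
    have h1 : ∀ v, v * T.c (n + 1) (T.s n (g * h) v) =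
        (v + T.c n h) * T.c (n + 1) (T.s n g (v + T.c n h)) -
          T.c n h * T.c (n + 1) (T.s n g (v + T.c n h)) + v * T.c (n + 1) (T.s n h v) := by
      intro v
      rw [(T.mul n g h).2, (T.mul (n + 1) _ _).1]
      ring
    rw [Finset.sum_congr rfl (fun v _ => h1 v), Finset.sum_add_distrib, Finset.sum_sub_distrib]
    have h2 : ∑ v, (v + T.c n h) * T.c (n + 1) (T.s n g (v + T.c n h)) =
        ∑ v, v * T.c (n + 1) (T.s n g v) :=
      Fintype.sum_equiv (Equiv.addRight (T.c n h)) _ _ (fun v => rfl)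
    have h3 : ∑ v, T.c n h * T.c (n + 1) (T.s n g (v + T.c n h)) = 0 := by
      rw [← Finset.mul_sum]
      have h4 : ∑ v, T.c (n + 1) (T.s n g (v + T.c n h)) = ∑ v, T.c (n + 1) (T.s n g v) :=
        Fintype.sum_equiv (Equiv.addRight (T.c n h)) _ _ (fun v => rfl)
      rw [h4, hsum, mul_zero]
    rw [h2, h3, sub_zero]
  have hτA : ∀ n, τ n (A n) = 0 := by
    intro n
    change (∑ v, v * T.c (n + 1) (T.s n (A n) v)) / (i n - j n) = 0
    simp only [(hA n).2, (T.one (n + 1)).1, mul_zero, Finset.sum_const_zero, zero_div]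
  have hτU : ∀ n, τ n (U n) = 1 := by
    intro n
    change (∑ v, v * T.c (n + 1) (T.s n (U n) v)) / (i n - j n) = 1
    have h1 : ∀ v, v * T.c (n + 1) (T.s n (U n) v) =
        (if v = i n then v else 0) + (if v = j n then -v else 0) := by
      intro v
      rw [(hU n).2]
      by_cases hv0 : v = 0
      · rw [if_pos hv0, (hU (n + 1)).1, hv0, if_neg (hi n).symm, if_neg (hj n).symm, add_zero,
          mul_zero]
      · rw [if_neg hv0]
        by_cases hvi : v = i n
        · rw [if_pos hvi, if_pos hvi, (hA (n + 1)).1, hvi, if_neg (hij n), add_zero, mul_one]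
        · rw [if_neg hvi, if_neg hvi]
          by_cases hvj : v = j n
          · rw [if_pos hvj, if_pos hvj, hinv, (hA (n + 1)).1, zero_add, mul_neg, mul_one]
          · rw [if_neg hvj, if_neg hvj, (T.one (n + 1)).1, zero_add, mul_zero]
    rw [Finset.sum_congr rfl (fun v _ => h1 v), Finset.sum_add_distrib, Finset.sum_ite_eq',
      Finset.sum_ite_eq', if_pos (Finset.mem_univ _), if_pos (Finset.mem_univ _),
      ← sub_eq_add_neg, div_self (sub_ne_zero.2 (hij n))]
  have hτ1 : ∀ n, τ n 1 = 0 := by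
    intro n
    have h1 := hτm n 1 1
    rw [mul_one] at h1
    exact (left_eq_add.1 h1)
  have hτinv : ∀ n (g : Gm a t n), τ n g⁻¹ = -τ n g := by
    intro n g
    have h1 := hτm n g⁻¹ g
    rw [inv_mul_cancel, hτ1] at h1
    exact (neg_eq_of_add_eq_zero_left h1.symm).symm
  have hkey : ∀ n (g : Gm a t n) v, T.c (n + 1) (T.s n g v) =
      τ (n + 1) (T.s n g (v - i n)) - τ (n + 1) (T.s n g (v - j n)) := by
    intro n
    apply hind n (fun g => ∀ v, T.c (n + 1) (T.s n g v) =
      τ (n + 1) (T.s n g (v - i n)) - τ (n + 1) (T.s n g (v - j n)))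
    · intro v
      simp only [(hA n).2, (T.one (n + 1)).1, hτ1, sub_zero]
    · intro v
      have h1 : ∀ w, τ (n + 1) (T.s n (U n) w) = if w = 0 then 1 else 0 := by
        intro w
        rw [(hU n).2]
        by_cases hw0 : w = 0
        · rw [if_pos hw0, if_pos hw0, hτU]
        · rw [if_neg hw0, if_neg hw0]
          split_ifs
          · exact hτA _
          · rw [hτinv, hτA, neg_zero]
          · exact hτ1 _
      rw [h1, h1, (hU n).2]
      by_cases hv0 : v = 0
      · rw [if_pos hv0, (hU (n + 1)).1, hv0, if_neg, if_neg, sub_zero]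
        · rw [zero_sub, neg_eq_zero]
          exact hj n
        · rw [zero_sub, neg_eq_zero]
          exact hi n
      · rw [if_neg hv0]
        by_cases hvi : v = i n
        · rw [if_pos hvi, (hA (n + 1)).1, hvi, sub_self, if_pos rfl,
            if_neg (sub_ne_zero.2 (hij n)), sub_zero]
        · rw [if_neg hvi, if_neg (sub_ne_zero.2 hvi)]
          by_cases hvj : v = j n
          · rw [if_pos hvj, hinv, (hA (n + 1)).1, hvj, sub_self, if_pos rfl, zero_sub]
          · rw [if_neg hvj, (T.one (n + 1)).1, if_neg (sub_ne_zero.2 hvj), sub_zero]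
    · intro v
      simp only [(T.one n).2, (T.one (n + 1)).1, hτ1, sub_zero]
    · intro g h hg hh v
      rw [(T.mul n g h).2, (T.mul (n + 1) _ _).1, hg, hh, (T.mul n g h).2, (T.mul n g h).2, hτm,
        hτm, show v + T.c n h - i n = v - i n + T.c n h by ring,
        show v + T.c n h - j n = v - j n + T.c n h by ring]
      ring
    · intro g hg v
      rw [hsinv, hinv, hg, hsinv, hsinv, hτinv, hτinv,
        show v - T.c n g - i n = v - i n - T.c n g by ring,
        show v - T.c n g - j n = v - j n - T.c n g by ring]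
      ring
  have hpow : a ^ p = 1 := by
    have h1 : ∀ (k : ℕ) x y, (a ^ k) (Stream'.cons x y) = Stream'.cons (x + k) y := by
      intro k
      induction k with
      | zero => intro x y; simp
      | succ k ih =>
        intro x y
        rw [pow_succ', Equiv.Perm.mul_apply, ih, ha]
        push_cast
        rw [add_assoc]
    apply Equiv.ext
    intro z
    obtain ⟨x, y, rfl⟩ : ∃ x y, z = Stream'.cons x y := ⟨z.head, z.tail, (Stream'.eta z).symm⟩
    rw [h1, ZMod.natCast_self, add_zero]
    rfl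
  refine ⟨{ a := A, t := U, c := T.c, sec := T.s, τ := τ
            c_mul := fun n g h => (T.mul n g h).1
            c_a := fun n => (hA n).1
            c_t := fun n => (hU n).1
            sec_mul := fun n g h v => (T.mul n g h).2 v
            sec_a := fun n v => (hA n).2 v
            sec_t := fun n v => (hU n).2 v
            τ_mul := hτm
            τ_a := hτA
            τ_t := hτU
            key := hkey
            a_pow := fun n => Subtype.ext hpow }, fun _ => rfl, fun _ => rfl⟩

end Pool.Agent.Work.MP87745.GS
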