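import Mathlib

set_option autoImplicit false

namespace Pool.Agent.Work.MP87745.GS

/-- the entries of the image of a stream under the directed element -/
def existF {p : ℕ} (i j : ℕ → ZMod p) (a b : Stream' (ZMod p) → Stream' (ZMod p)) :
    ℕ → ℕ → Stream' (ZMod p) → ZMod p
  | 0, _, s => s.get 0
  | k + 1, n, s => if s.get 0 = 0 then existF i j a b k (n + 1) s.tail else
      if s.get 0 = i n then (a s.tail).get k else
      if s.get 0 = j n then (b s.tail).get k else s.tail.get k

/-- the directed element as a map of streams -/
def existT {p : ℕ} (i j : ℕ → ZMod p) (a b : Stream' (ZMod p) → Stream' (ZMod p)) (n : ℕ)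
    (s : Stream' (ZMod p)) : Stream' (ZMod p) := fun k => existF i j a b k n s

theorem existT_cons {p : ℕ} (i j : ℕ → ZMod p) (a b : Stream' (ZMod p) → Stream' (ZMod p))
    (n : ℕ) (x : ZMod p) (y : Stream' (ZMod p)) :
    existT i j a b n (Stream'.cons x y) = Stream'.cons x (if x = 0 then existT i j a b (n + 1) y else
      if x = i n then a y else if x = j n then b y else y) := by
  apply Stream'.ext
  intro k
  cases k with
  | zero => rfl
  | succ k =>
    change (if x = 0 then existF i j a b k (n + 1) y else
      if x = i n then (a y).get k else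
      if x = j n then (b y).get k else y.get k) = Stream'.get (if x = 0 then existT i j a b (n + 1) y else
      if x = i n then a y else if x = j n then b y else y) k
    split_ifs <;> rfl

theorem existT_inv {p : ℕ} (i j : ℕ → ZMod p) (a b : Stream' (ZMod p) → Stream' (ZMod p))
    (hba : ∀ s, b (a s) = s) (hab : ∀ s, a (b s) = s) :
    ∀ (k n : ℕ) (s : Stream' (ZMod p)),
      (existT i j b a n (existT i j a b n s)).get k = s.get k := by
  intro k
  induction k with
  | zero =>
    intro n s
    obtain ⟨x, y, rfl⟩ : ∃ x y, s = Stream'.cons x y := ⟨s.head, s.tail, (Stream'.eta s).symm⟩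
    rw [existT_cons, existT_cons]
    rfl
  | succ k ih =>
    intro n s
    obtain ⟨x, y, rfl⟩ : ∃ x y, s = Stream'.cons x y := ⟨s.head, s.tail, (Stream'.eta s).symm⟩
    rw [existT_cons, existT_cons, Stream'.get_succ_cons, Stream'.get_succ_cons]
    by_cases h0 : x = 0
    · rw [if_pos h0, if_pos h0]; exact ih _ _
    rw [if_neg h0, if_neg h0]
    by_cases h1 : x = i n
    · rw [if_pos h1, if_pos h1, hba]
    rw [if_neg h1, if_neg h1]
    by_cases h2 : x = j n
    · rw [if_pos h2, if_pos h2, hab]
    rw [if_neg h2, if_neg h2]

/-- EXIST: the permutations exist (not used in the theorem, only shows that it is not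
vacuous) -/
theorem exists_perms {p : ℕ} [Fact p.Prime] (i j : ℕ → ZMod p) (hi : ∀ n, i n ≠ 0)
    (hj : ∀ n, j n ≠ 0) (hij : ∀ n, i n ≠ j n) :
    ∃ (a : Equiv.Perm (Stream' (ZMod p))) (t : ℕ → Equiv.Perm (Stream' (ZMod p))),
      (∀ x y, a (Stream'.cons x y) = Stream'.cons (x + 1) y) ∧
      (∀ n x y, t n (Stream'.cons x y) = Stream'.cons x (if x = 0 then t (n + 1) y else
      if x = i n then a y else if x = j n then a⁻¹ y else y)) := by
  let a : Equiv.Perm (Stream' (ZMod p)) :=
    { toFun := fun s => Stream'.cons (s.head + 1) s.tail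
      invFun := fun s => Stream'.cons (s.head - 1) s.tail
      left_inv := fun s => by
        dsimp only
        rw [Stream'.head_cons, Stream'.tail_cons, add_sub_cancel_right, Stream'.eta]
      right_inv := fun s => by
        dsimp only
        rw [Stream'.head_cons, Stream'.tail_cons, sub_add_cancel, Stream'.eta] }
  refine ⟨a, fun n =>
    { toFun := existT i j a (a⁻¹ : Equiv.Perm (Stream' (ZMod p))) n
      invFun := existT i j (a⁻¹ : Equiv.Perm (Stream' (ZMod p))) a n
      left_inv := fun s => by
        apply Stream'.ext
        intro k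
        exact existT_inv i j a (a⁻¹ : Equiv.Perm (Stream' (ZMod p)))
          (fun s => a.symm_apply_apply s) (fun s => a.apply_symm_apply s) k n s
      right_inv := fun s => by
        apply Stream'.ext
        intro k
        exact existT_inv i j (a⁻¹ : Equiv.Perm (Stream' (ZMod p))) a
          (fun s => a.apply_symm_apply s) (fun s => a.symm_apply_apply s) k n s },
    ?_, ?_⟩
  · intro x y
    rfl
  · intro n x y
    exact existT_cons i j a (a⁻¹ : Equiv.Perm (Stream' (ZMod p))) n x y

end Pool.Agent.Work.MP87745.GS
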