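import Mathlib
import Pool.Agent.Work.MP_87745a_al_gs.Bx
import Pool.Agent.Work.MP_87745a_al_gs.ELIM
import Pool.Agent.Work.MP_87745a_al_gs.CONN
import Pool.Agent.Work.MP_87745a_al_gs.CASEA
import Pool.Agent.Work.MP_87745a_al_gs.CASEB

/-!
The algebraic step: from `p` equations in `y` to one equation for `y 0`.
-/

set_option autoImplicit false

namespace Pool.Agent.Work.MP87745.GS

variable {G : Type*} [Group G] {p : ℕ} {D : Type*} [DivisionRing D] [DecidableEq (Additive G)]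
  (𝒜 : Additive G → AddSubgroup D) [GradedRing 𝒜]

/-- the subgroup of `A` where all exponents outside of `J` vanish -/
def KJ (A : Subgroup G) (X : ZMod p → G → ZMod p)
    (hX : ∀ l, ∀ g ∈ A, ∀ h ∈ A, X l (g * h) = X l g + X l h) (J : Finset (ZMod p)) :
    Subgroup G where
  carrier := {h | h ∈ A ∧ ∀ l, l ≠ 0 → l ∉ J → X l h = 0}
  one_mem' := ⟨A.one_mem, fun l _ _ => by
    have h := hX l 1 A.one_mem 1 A.one_mem
    rw [mul_one] at h
    exact left_eq_add.1 h⟩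
  mul_mem' := fun {g h} hg hh => ⟨A.mul_mem hg.1 hh.1, fun l h1 h2 => by
    rw [hX l g hg.1 h hh.1, hg.2 l h1 h2, hh.2 l h1 h2, add_zero]⟩
  inv_mem' := fun {g} hg => ⟨A.inv_mem hg.1, fun l h1 h2 => by
    have h0 : X l 1 = 0 := by
      have h := hX l 1 A.one_mem 1 A.one_mem
      rw [mul_one] at h
      exact left_eq_add.1 h
    have h := hX l g hg.1 g⁻¹ (A.inv_mem hg.1)
    rw [mul_inv_cancel, h0, hg.2 l h1 h2, zero_add] at h
    exact h.symm⟩

theorem step_alg [Fact p.Prime] (hp : p ≠ 2) (A : Subgroup G) (X : ZMod p → G → ZMod p)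
    (hX : ∀ l, ∀ g ∈ A, ∀ h ∈ A, X l (g * h) = X l g + X l h) (T : ZMod p → G)
    (hT : ∀ k, k ≠ 0 → T k ∈ A) (hXT : ∀ k l, k ≠ 0 → X l (T k) = if k = l then 1 else 0)
    (θ : ZMod p → D) (hθ : ∀ k, θ k ∈ W 𝒜 ({T k} : Set G)) (hθ0 : ∀ k, θ k ≠ 0)
    (κ : ZMod p → ZMod p → D)
    (hκ : ∀ k l, κ k l ∈ W 𝒜 {h | h ∈ A ∧ ∀ l, l ≠ 0 → X l h = 0}) (x : ZMod p → D)
    (hκx : ∀ k l, κ k l ≠ 0 ↔ x (k - l) ≠ 0)
    (hx : ∃ m₁ m₂, m₁ ≠ m₂ ∧ x m₁ ≠ 0 ∧ x m₂ ≠ 0) {i j : ZMod p} (hi : i ≠ 0) (hj : j ≠ 0)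
    (hij : i ≠ j) (y : ZMod p → D)
    (heq : ∀ k, ∑ l, κ k l * y l + θ k * y k = if k = 0 then 1 else 0) :
    ∃ F ∈ W 𝒜 (A : Set G), (F + θ 0) * y 0 = 1 ∧
      ∀ d, F ∉ W 𝒜 {h | h ∈ A ∧ X i h - X j h = d} := by
  classical
  have E : Ex A (X i) (X j) := ⟨hX i, hX j⟩
  have hTi : T i ∈ bx A (X i) (X j) 1 0 := ⟨hT i hi, by rw [hXT i i hi, if_pos rfl],
    by rw [hXT i j hi, if_neg hij]⟩
  have hTj : T j ∈ bx A (X i) (X j) 0 1 := ⟨hT j hj, by rw [hXT j i hj, if_neg hij.symm],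
    by rw [hXT j j hj, if_pos rfl]⟩
  -- `θ k` is not in the parts where `X k = 0`
  have hθK : ∀ k, k ≠ 0 → ∀ P : Set G, (∀ h ∈ P, X k h = 0) → θ k ∉ W 𝒜 P := by
    intro k hk P hP h
    refine hθ0 k (eq_zero_of 𝒜 (P := {T k}) (Q := P) ?_ (hθ k) h)
    intro g hg hgP
    rw [Set.mem_singleton_iff] at hg
    have h1 := hP g hgP
    rw [hg, hXT k k hk, if_pos rfl] at h1
    exact one_ne_zero h1
  by_cases hα : ∃ c₁ c₂, c₁ ≠ 0 ∧ c₂ ≠ 0 ∧ c₁ ≠ c₂ ∧ x c₁ ≠ 0 ∧ x c₂ ≠ 0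
  · obtain ⟨c₁, c₂, hc₁, hc₂, hc₁₂, hx₁, hx₂⟩ := hα
    set J0 : Finset (ZMod p) := ({0, i, j} : Finset (ZMod p))ᶜ with hJ0
    have hmem : ∀ l, l ∈ J0 ↔ l ≠ 0 ∧ l ≠ i ∧ l ≠ j := by
      intro l
      rw [hJ0, Finset.mem_compl, Finset.mem_insert, Finset.mem_insert, Finset.mem_singleton]
      tauto
    obtain ⟨κ', hκ'1, hκ'2, hκ'3⟩ := elim κ θ (fun J => WF 𝒜 (KJ A X hX J))
      (fun J J' hJ => by
        intro z hz
        rw [mem_WF] at hz ⊢
        refine W_mono 𝒜 ?_ hz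
        intro h hh
        exact ⟨hh.1, fun l h1 h2 => hh.2 l h1 (fun h3 => h2 (hJ h3))⟩)
      (fun k l => by
        rw [mem_WF]
        refine W_mono 𝒜 ?_ (hκ k l)
        intro h hh
        exact ⟨hh.1, fun l h1 _ => hh.2 l h1⟩)
      J0
      (fun J hJ k hk hkJ => by
        rw [mem_WF]
        have hk0 := ((hmem k).1 hk).1
        exact hθK k hk0 _ (fun h hh => hh.2 k hk0 hkJ))
      (fun k hk => by
        rw [mem_WF]
        have hk0 := ((hmem k).1 hk).1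
        refine W_mono 𝒜 ?_ (hθ k)
        intro g hg
        rw [Set.mem_singleton_iff] at hg
        rw [hg]
        refine ⟨hT k hk0, fun l _ hl => ?_⟩
        rw [hXT k l hk0, if_neg]
        intro h
        exact hl (by rw [h]; simp))
    have hL : ∀ k l, κ' k l ∈ W 𝒜 (bx A (X i) (X j) 0 0) := by
      intro k l
      have h := hκ'1 k l
      rw [mem_WF] at h
      refine W_mono 𝒜 ?_ h
      intro g hg
      refine ⟨hg.1, hg.2 i hi (fun h => ?_), hg.2 j hj (fun h => ?_)⟩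
      · exact ((hmem i).1 h).2.1 rfl
      · exact ((hmem j).1 h).2.2 rfl
    -- connectivity
    have hoff : ∀ a b e : ZMod p, a ≠ b → a ≠ e → b ≠ e → a ∉ J0 → b ∉ J0 →
        (∀ l, l ≠ a → l ≠ b → l ≠ e → l ∈ J0) → κ' a b ≠ 0 := by
      intro a b e hab hae hbe ha hb hl
      refine hκ'3 a ha b hb ?_
      obtain ⟨m, hm1, hm2⟩ := conn hc₁ hc₂ hc₁₂ (fun u v => κ v u ≠ 0)
        (fun m => by
          rw [hκx, add_sub_cancel_left]; exact hx₁)
        (fun m => by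
          rw [hκx, add_sub_cancel_left]; exact hx₂) hab hae hbe
      refine ⟨m, ?_, hm2⟩
      clear hm2
      induction hm1 with
      | refl => exact Relation.ReflTransGen.refl
      | @tail u v _ huv ih => exact ih.tail ⟨huv.1, hl v huv.2.1 huv.2.2.1 huv.2.2.2⟩
    have n0 : (0 : ZMod p) ∉ J0 := fun h => ((hmem 0).1 h).1 rfl
    have ni : i ∉ J0 := fun h => ((hmem i).1 h).2.1 rfl
    have nj : j ∉ J0 := fun h => ((hmem j).1 h).2.2 rfl
    have hcomp : (J0ᶜ : Finset (ZMod p)) = {0, i, j} := by rw [hJ0, compl_compl]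
    have hsum : ∀ k, ∑ l ∈ J0ᶜ, κ' k l * y l = κ' k 0 * y 0 + κ' k i * y i + κ' k j * y j := by
      intro k
      rw [hcomp, Finset.sum_insert, Finset.sum_insert, Finset.sum_singleton, add_assoc]
      · rw [Finset.mem_singleton]; exact hij
      · rw [Finset.mem_insert, Finset.mem_singleton, not_or]
        exact ⟨hi.symm, hj.symm⟩
    have hel := hκ'2 y (fun k hk => by
      rw [heq k, if_neg ((hmem k).1 hk).1])
    have e0 := heq 0
    have e1 := heq i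
    have e2 := heq j
    rw [hel 0 n0, hsum, if_pos rfl] at e0
    rw [hel i ni, hsum, if_neg hi] at e1
    rw [hel j nj, hsum, if_neg hj] at e2
    refine case_a 𝒜 hp E hTi hTj (θ₀ := θ 0) (hθ i) (hθ j) (hθ0 i) (hθ0 j) (hL 0 0) (hL 0 i)
      (hL 0 j) (hL i 0) (hL i i) (hL i j) (hL j 0) (hL j i) (hL j j) ?_ ?_ ?_ ?_ ?_ ?_
      (y0 := y 0) (y1 := y i) (y2 := y j) ?_ ?_ ?_
    · exact hoff 0 i j hi.symm hj.symm hij n0 ni (fun l h1 h2 h3 => (hmem l).2 ⟨h1, h2, h3⟩)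
    · exact hoff 0 j i hj.symm hi.symm hij.symm n0 nj (fun l h1 h2 h3 => (hmem l).2 ⟨h1, h3, h2⟩)
    · exact hoff i 0 j hi hij hj.symm ni n0 (fun l h1 h2 h3 => (hmem l).2 ⟨h2, h1, h3⟩)
    · exact hoff i j 0 hij hi hj ni nj (fun l h1 h2 h3 => (hmem l).2 ⟨h3, h1, h2⟩)
    · exact hoff j 0 i hj hij.symm hi.symm nj n0 (fun l h1 h2 h3 => (hmem l).2 ⟨h2, h3, h1⟩)
    · exact hoff j i 0 hij.symm hj hi nj ni (fun l h1 h2 h3 => (hmem l).2 ⟨h3, h2, h1⟩)
    · rw [← e0]; noncomm_ring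
    · rw [← e1]; noncomm_ring
    · rw [← e2]; noncomm_ring
  · -- exactly `x 0` and one `x c` are nonzero
    have hex : ∃ c, c ≠ 0 ∧ x c ≠ 0 ∧ x 0 ≠ 0 ∧ ∀ m, m ≠ 0 → m ≠ c → x m = 0 := by
      have huniq : ∀ c, c ≠ 0 → x c ≠ 0 → ∀ m, m ≠ 0 → m ≠ c → x m = 0 := by
        intro c hc hxc m hm hmc
        by_contra h
        exact hα ⟨m, c, hm, hc, hmc, h, hxc⟩
      obtain ⟨m₁, m₂, hm, h1, h2⟩ := hx
      by_cases hm1 : m₁ = 0
      · have hm2 : m₂ ≠ 0 := fun h => hm (by rw [hm1, h])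
        exact ⟨m₂, hm2, h2, by rw [hm1] at h1; exact h1, huniq m₂ hm2 h2⟩
      · by_cases hm2 : m₂ = 0
        · exact ⟨m₁, hm1, h1, by rw [hm2] at h2; exact h2, huniq m₁ hm1 h1⟩
        · exact (hα ⟨m₁, m₂, hm1, hm2, hm, h1, h2⟩).elim
    obtain ⟨c, hc, hxc, hx0, hxm⟩ := hex
    have hsum : ∀ k, ∑ l, κ k l * y l = κ k k * y k + κ k (k - c) * y (k - c) := by
      intro k
      rw [← Finset.sum_subset (Finset.subset_univ ({k, k - c} : Finset (ZMod p)))]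
      · rw [Finset.sum_pair]
        intro h
        exact hc (by rw [← sub_eq_self (a := k)]; exact h.symm)
      · intro l _ hl
        rw [Finset.mem_insert, Finset.mem_singleton, not_or] at hl
        have h1 : κ k l = 0 := by
          by_contra h
          rw [← ne_eq, hκx] at h
          refine h (hxm (k - l) (fun h2 => hl.1 (sub_eq_zero.1 h2).symm) (fun h2 => hl.2 ?_))
          rw [← h2]; ring
        rw [h1, zero_mul]
    have hLe : ∀ k l, κ k l ∈ W 𝒜 (bx A (X i) (X j) 0 0) := by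
      intro k l
      refine W_mono 𝒜 ?_ (hκ k l)
      intro h hh
      exact ⟨hh.1, hh.2 i hi, hh.2 j hj⟩
    refine case_b 𝒜 hp E hi hj hij hc hTi hTj (hθ i) (hθ j) (hθ0 i) (hθ0 j)
      (e := fun k => κ k k) (v := fun k => κ k (k - c)) (y := y) (fun k => hLe k k)
      (fun k => hLe k _) (fun k => ?_) (fun k => ?_) ?_ ?_ ?_
    · rw [hκx, sub_self]; exact hx0
    · rw [hκx, sub_sub_cancel]; exact hxc
    · intro k hk0 hki hkj
      refine ⟨W_mono 𝒜 ?_ (hθ k), ?_⟩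
      · intro g hg
        rw [Set.mem_singleton_iff] at hg
        rw [hg]
        exact ⟨hT k hk0, by rw [hXT k i hk0, if_neg hki], by rw [hXT k j hk0, if_neg hkj]⟩
      · intro h
        refine hθK k hk0 _ (fun h hh => hh.2 k hk0) (?_ :
          θ k ∈ W 𝒜 {h | h ∈ A ∧ ∀ l, l ≠ 0 → X l h = 0})
        rw [← neg_eq_of_add_eq_zero_right h]
        exact neg_mem (hκ k k)
    · have h := heq 0
      rw [hsum, if_pos rfl, zero_sub] at h
      rw [← h, zero_sub]; noncomm_ring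
    · intro k hk
      have h := heq k
      rw [hsum, if_neg hk] at h
      rw [← h]; noncomm_ring

end Pool.Agent.Work.MP87745.GS
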