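import Mathlib
import Pool.Agent.Work.MP_87745a_al_gs.Defs
import Pool.Agent.Work.MP_87745a_al_gs.StepAlg

/-!
The stages of the descent.
-/

set_option autoImplicit false

namespace Pool.Agent.Work.MP87745.GS

namespace Data

variable {p : ℕ} {i j : ℕ → ZMod p} {Γ : ℕ → Type} [∀ n, Group (Γ n)] (S : Data p i j Γ)

theorem c_one (n : ℕ) : S.c n 1 = 0 := by
  have h := S.c_mul n 1 1
  rw [mul_one] at h
  exact left_eq_add.1 h

theorem c_inv (n : ℕ) (g : Γ n) : S.c n g⁻¹ = - S.c n g := by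
  have h := S.c_mul n g g⁻¹
  rw [mul_inv_cancel, c_one] at h
  exact (neg_eq_of_add_eq_zero_right h.symm).symm

theorem sec_one (n : ℕ) (v : ZMod p) : S.sec n 1 v = 1 := by
  have h := S.sec_mul n 1 1 v
  rw [mul_one, c_one, add_zero] at h
  exact left_eq_mul.1 h

theorem τ_one (n : ℕ) : S.τ n 1 = 0 := by
  have h := S.τ_mul n 1 1
  rw [mul_one] at h
  exact left_eq_add.1 h

theorem τ_inv (n : ℕ) (g : Γ n) : S.τ n g⁻¹ = - S.τ n g := by
  have h := S.τ_mul n g g⁻¹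
  rw [mul_inv_cancel, τ_one] at h
  exact (neg_eq_of_add_eq_zero_right h.symm).symm

theorem c_apow (n k : ℕ) : S.c n (S.a n ^ k) = (k : ZMod p) := by
  induction k with
  | zero => rw [pow_zero, c_one, Nat.cast_zero]
  | succ k ih => rw [pow_succ, S.c_mul, ih, S.c_a, Nat.cast_succ]

theorem sec_apow (n k : ℕ) (v : ZMod p) : S.sec n (S.a n ^ k) v = 1 := by
  induction k with
  | zero => rw [pow_zero, sec_one]
  | succ k ih => rw [pow_succ, S.sec_mul, S.sec_a, mul_one, S.c_a, sec_apow' k]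
where
  sec_apow' (k : ℕ) : ∀ v, S.sec n (S.a n ^ k) v = 1 := by
    induction k with
    | zero => intro v; rw [pow_zero, sec_one]
    | succ k ih => intro v; rw [pow_succ, S.sec_mul, S.sec_a, mul_one, S.c_a, ih]

/-- sections of conjugates of `t` -/
theorem sec_conj (n k : ℕ) (v : ZMod p) :
    S.sec n ((S.a n ^ k)⁻¹ * S.t n * S.a n ^ k) v = S.sec n (S.t n) (v + k) := by
  have h1 : S.sec n ((S.a n ^ k)⁻¹) (v + k + 0) = 1 := by
    have h := S.sec_mul n ((S.a n ^ k)⁻¹) (S.a n ^ k) (v + 0)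
    rw [inv_mul_cancel, sec_one, sec_apow, mul_one, c_apow] at h
    rw [h]
    congr 1
    ring
  rw [S.sec_mul, S.sec_mul, c_apow, sec_apow, mul_one, S.c_t, h1, one_mul]

theorem c_conj (n k : ℕ) : S.c n ((S.a n ^ k)⁻¹ * S.t n * S.a n ^ k) = 0 := by
  rw [S.c_mul, S.c_mul, c_inv, S.c_t]
  ring

end Data

variable {p : ℕ} {i j : ℕ → ZMod p} {Γ : ℕ → Type} [∀ n, Group (Γ n)] (S : Data p i j Γ)
  {G : Type*} [Group G]

/-- group part of stage `n` -/
structure Stg (n : ℕ) (U : Subgroup G) (π : G → Γ n) (a' t' : G) : Prop where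
  mul : ∀ g ∈ U, ∀ h ∈ U, π (g * h) = π g * π h
  ha : a' ∈ U
  ht : t' ∈ U
  πa : π a' = S.a n
  πt : π t' = S.t n

namespace Stg

variable {S} {n : ℕ} {U : Subgroup G} {π : G → Γ n} {a' t' : G}

theorem π_one (h : Stg S n U π a' t') : π 1 = 1 := by
  have h1 := h.mul 1 U.one_mem 1 U.one_mem
  rw [mul_one] at h1
  exact left_eq_mul.1 h1

theorem π_inv (h : Stg S n U π a' t') {g : G} (hg : g ∈ U) : π g⁻¹ = (π g)⁻¹ := by
  have h1 := h.mul g hg g⁻¹ (U.inv_mem hg)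
  rw [mul_inv_cancel, h.π_one] at h1
  exact (inv_eq_of_mul_eq_one_right h1.symm).symm

theorem π_pow (h : Stg S n U π a' t') (k : ℕ) : π (a' ^ k) = S.a n ^ k := by
  induction k with
  | zero => rw [pow_zero, pow_zero, h.π_one]
  | succ k ih => rw [pow_succ, pow_succ, h.mul _ (U.pow_mem h.ha k) _ h.ha, ih, h.πa]

/-- the conjugates of `t'` -/
theorem π_conj (h : Stg S n U π a' t') (k : ℕ) :
    π ((a' ^ k)⁻¹ * t' * a' ^ k) = (S.a n ^ k)⁻¹ * S.t n * S.a n ^ k := by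
  rw [h.mul _ (U.mul_mem (U.inv_mem (U.pow_mem h.ha k)) h.ht) _ (U.pow_mem h.ha k),
    h.mul _ (U.inv_mem (U.pow_mem h.ha k)) _ h.ht, h.π_inv (U.pow_mem h.ha k), h.π_pow, h.πt]

theorem conj_mem (h : Stg S n U π a' t') (k : ℕ) : (a' ^ k)⁻¹ * t' * a' ^ k ∈ U :=
  U.mul_mem (U.mul_mem (U.inv_mem (U.pow_mem h.ha k)) h.ht) (U.pow_mem h.ha k)

/-- the subgroup of the next stage -/
def nextU (h : Stg S n U π a' t') : Subgroup G where
  carrier := {g | g ∈ U ∧ S.c n (π g) = 0}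
  one_mem' := ⟨U.one_mem, by rw [h.π_one, S.c_one]⟩
  mul_mem' := fun {g u} hg hu => ⟨U.mul_mem hg.1 hu.1, by
    rw [h.mul g hg.1 u hu.1, S.c_mul, hg.2, hu.2, add_zero]⟩
  inv_mem' := fun {g} hg => ⟨U.inv_mem hg.1, by
    rw [h.π_inv hg.1, S.c_inv, hg.2, neg_zero]⟩

theorem mem_nextU (h : Stg S n U π a' t') {g : G} : g ∈ h.nextU ↔ g ∈ U ∧ S.c n (π g) = 0 :=
  Iff.rfl

theorem conj_mem' (h : Stg S n U π a' t') (k : ℕ) : (a' ^ k)⁻¹ * t' * a' ^ k ∈ h.nextU :=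
  ⟨h.conj_mem k, by rw [h.π_conj, S.c_conj]⟩

theorem next [Fact p.Prime] (h : Stg S n U π a' t') (hi : i n ≠ 0) :
    Stg S (n + 1) h.nextU (fun g => S.sec n (π g) 0)
      ((a' ^ (i n).val)⁻¹ * t' * a' ^ (i n).val) t' where
  mul := fun g hg u hu => by
    rw [h.mul g hg.1 u hu.1, S.sec_mul, hu.2, add_zero]
  ha := h.conj_mem' _
  ht := ⟨h.ht, by rw [h.πt, S.c_t]⟩
  πa := by
    rw [h.π_conj, S.sec_conj, S.sec_t, zero_add, ZMod.natCast_val, ZMod.cast_id, if_neg hi,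
      if_pos rfl]
  πt := by rw [h.πt, S.sec_t, if_pos rfl]

end Stg

end Pool.Agent.Work.MP87745.GS
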