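import Mathlib
import Pool.Agent.Work.MP_87745a_al_gs.Stage

/-!
The descent.
-/

set_option autoImplicit false

namespace Pool.Agent.Work.MP87745.GS

variable {p : ℕ} {i j : ℕ → ZMod p} {Γ : ℕ → Type} [∀ n, Group (Γ n)] {S : Data p i j Γ}
  {G : Type*} [Group G] {D : Type*} [DivisionRing D] [DecidableEq (Additive G)]
  (𝒜 : Additive G → AddSubgroup D) [GradedRing 𝒜]

theorem hom_singleton {g : G} {a : D} : a ∈ 𝒜 (Additive.ofMul g) → a ∈ W 𝒜 ({g} : Set G) :=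
  fun h => hom_mem 𝒜 h rfl

theorem mul_singleton {g h : G} {a b : D} (ha : a ∈ W 𝒜 ({g} : Set G))
    (hb : b ∈ W 𝒜 ({h} : Set G)) : a * b ∈ W 𝒜 ({g * h} : Set G) :=
  mul_mem_W 𝒜 (fun u hu v hv => by
    rw [Set.mem_singleton_iff] at hu hv ⊢
    rw [hu, hv]) ha hb

theorem pow_singleton {g : G} {a : D} (ha : a ∈ W 𝒜 ({g} : Set G)) (k : ℕ) :
    a ^ k ∈ W 𝒜 ({g ^ k} : Set G) := by
  induction k with
  | zero => rw [pow_zero, pow_zero]; exact one_mem_W 𝒜 rfl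
  | succ k ih => rw [pow_succ, pow_succ]; exact mul_singleton 𝒜 ih ha

/-- one step of the descent -/
theorem step [Fact p.Prime] (hp : p ≠ 2) {n : ℕ} {U : Subgroup G} {π : G → Γ n} {a' t' : G}
    (h : Stg S n U π a' t') (hi : i n ≠ 0) (hj : j n ≠ 0) (hij : i n ≠ j n)
    (h𝒜 : ∀ g : Additive G, 𝒜 g ≠ ⊥) {θ : D} (hθ : θ ∈ W 𝒜 ({t'} : Set G)) (hθ0 : θ ≠ 0)
    {x : ZMod p → D} (hx : ∀ m, x m ∈ W 𝒜 {g | g ∈ U ∧ π g = S.a n ^ m.val})
    (hx2 : ∃ m₁ m₂, m₁ ≠ m₂ ∧ x m₁ ≠ 0 ∧ x m₂ ≠ 0) {b : D}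
    (hxb : (∑ m, x m + θ) * b = 1) :
    ∃ x' : ZMod p → D,
      (∀ m, x' m ∈ W 𝒜 {g | g ∈ h.nextU ∧ S.sec n (π g) 0 = S.a (n + 1) ^ m.val}) ∧
      (∃ m₁ m₂, m₁ ≠ m₂ ∧ x' m₁ ≠ 0 ∧ x' m₂ ≠ 0) ∧
      (∑ m, x' m + θ) * pr 𝒜 (h.nextU : Set G) b = 1 := by
  classical
  -- a nonzero element of degree `a'`
  obtain ⟨α, hα, hα0⟩ : ∃ α ∈ W 𝒜 ({a'} : Set G), α ≠ 0 := by
    obtain ⟨c, hc⟩ := AddSubgroup.ne_bot_iff_exists_ne_zero.1 (h𝒜 (Additive.ofMul a'))
    exact ⟨c, hom_singleton 𝒜 c.2, fun h0 => hc (Subtype.ext h0)⟩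
  have hαk : ∀ k : ℕ, α ^ k ≠ 0 := fun k => pow_ne_zero k hα0
  have hαinv : ∀ k : ℕ, (α ^ k)⁻¹ ∈ W 𝒜 ({(a' ^ k)⁻¹} : Set G) := fun k =>
    inv_mem_singleton 𝒜 (pow_singleton 𝒜 hα k) (hαk k)
  -- the first letter
  set cc : G → ZMod p := fun g => S.c n (π g) with hcc
  have cmul : ∀ g ∈ U, ∀ u ∈ U, cc (g * u) = cc g + cc u := by
    intro g hg u hu
    rw [hcc]
    simp only
    rw [h.mul g hg u hu, S.c_mul]
  have capow : ∀ k : ℕ, cc (a' ^ k) = k := by
    intro k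
    rw [hcc]
    simp only
    rw [h.π_pow, S.c_apow]
  -- the parts of `b`
  set B : ZMod p → D := fun l => pr 𝒜 {g | g ∈ U ∧ cc g = l} b with hB
  have hxc : ∀ m, x m ∈ W 𝒜 {g | g ∈ U ∧ cc g = m} := by
    intro m
    refine W_mono 𝒜 ?_ (hx m)
    intro g hg
    refine ⟨hg.1, ?_⟩
    rw [hcc]
    simp only
    rw [hg.2, S.c_apow, ZMod.natCast_val, ZMod.cast_id]
  have hshift : ∀ (m k : ZMod p), ∀ g ∈ {g | g ∈ U ∧ cc g = m}, ∀ u,
      g * u ∈ {g | g ∈ U ∧ cc g = k} ↔ u ∈ {g | g ∈ U ∧ cc g = k - m} := by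
    intro m k g hg u
    constructor
    · intro h1
      have hu : u ∈ U := (U.mul_mem_cancel_left hg.1).1 h1.1
      refine ⟨hu, ?_⟩
      rw [← h1.2, cmul g hg.1 u hu, hg.2, add_sub_cancel_left]
    · intro h1
      refine ⟨U.mul_mem hg.1 h1.1, ?_⟩
      rw [cmul g hg.1 u h1.1, hg.2, h1.2, add_sub_cancel]
  have hmain : ∀ k, ∑ l, x (k - l) * B l + θ * B k = if k = 0 then 1 else 0 := by
    intro k
    have h1 : pr 𝒜 {g | g ∈ U ∧ cc g = k} ((∑ m, x m + θ) * b) = if k = 0 then 1 else 0 := by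
      rw [hxb, pr_one]
      have h2 : ((1 : G) ∈ {g | g ∈ U ∧ cc g = k}) ↔ k = 0 := by
        constructor
        · intro h3
          rw [← h3.2, hcc]
          simp only
          rw [h.π_one, S.c_one]
        · intro h3
          refine ⟨U.one_mem, ?_⟩
          rw [h3, hcc]
          simp only
          rw [h.π_one, S.c_one]
      by_cases hk : k = 0
      · rw [if_pos hk, if_pos (h2.2 hk)]
      · rw [if_neg hk, if_neg (fun h3 => hk (h2.1 h3))]
    rw [← h1, add_mul, map_add, Finset.sum_mul, map_sum]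
    congr 1
    · rw [← Equiv.sum_comp (Equiv.subLeft k)]
      refine Finset.sum_congr rfl (fun l _ => ?_)
      rw [Equiv.subLeft_apply, sub_sub_cancel, pr_mul_left 𝒜 (hshift l k) (hxc l)]
    · have h3 : θ ∈ W 𝒜 {g | g ∈ U ∧ cc g = 0} := by
        refine W_mono 𝒜 ?_ hθ
        intro g hg
        rw [Set.mem_singleton_iff] at hg
        rw [hg]
        refine ⟨h.ht, ?_⟩
        rw [hcc]
        simp only
        rw [h.πt, S.c_t]
      rw [pr_mul_left 𝒜 (hshift 0 k) h3, sub_zero]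
  -- the group
  set A : Subgroup G :=
    { carrier := {g | g ∈ h.nextU ∧ S.sec n (π g) 0 ∈ Subgroup.zpowers (S.a (n + 1))}
      one_mem' := ⟨h.nextU.one_mem, by rw [h.π_one, S.sec_one]; exact Subgroup.one_mem _⟩
      mul_mem' := fun {g u} hg hu => ⟨h.nextU.mul_mem hg.1 hu.1, by
        have h1 := (h.next hi).mul g hg.1 u hu.1
        rw [h1]
        exact Subgroup.mul_mem _ hg.2 hu.2⟩
      inv_mem' := fun {g} hg => ⟨h.nextU.inv_mem hg.1, by
        have h1 := (h.next hi).π_inv hg.1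
        rw [h1]
        exact Subgroup.inv_mem _ hg.2⟩ } with hA
  set X : ZMod p → G → ZMod p := fun l g => S.τ (n + 1) (S.sec n (π g) (-l)) with hX
  have hXmul : ∀ l, ∀ g ∈ A, ∀ u ∈ A, X l (g * u) = X l g + X l u := by
    intro l g hg u hu
    rw [hX]
    simp only
    rw [h.mul g hg.1.1 u hu.1.1, S.sec_mul, S.τ_mul, hu.1.2, add_zero]
  set T : ZMod p → G := fun k => (a' ^ k.val)⁻¹ * t' * a' ^ k.val with hT
  have hval : ∀ k : ZMod p, ((k.val : ℕ) : ZMod p) = k := fun k => by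
    rw [ZMod.natCast_val, ZMod.cast_id]
  have hTA : ∀ k, k ≠ 0 → T k ∈ A := by
    intro k hk
    refine ⟨h.conj_mem' _, ?_⟩
    rw [hT]
    simp only
    rw [h.π_conj, S.sec_conj, S.sec_t, zero_add, hval, if_neg hk]
    split_ifs
    · exact Subgroup.mem_zpowers _
    · exact Subgroup.inv_mem _ (Subgroup.mem_zpowers _)
    · exact Subgroup.one_mem _
  have hXT : ∀ k l, k ≠ 0 → X l (T k) = if k = l then 1 else 0 := by
    intro k l _
    rw [hX, hT]
    simp only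
    rw [h.π_conj, S.sec_conj, S.sec_t, hval]
    by_cases hkl : k = l
    · rw [if_pos hkl, hkl, neg_add_cancel, if_pos rfl, S.τ_t]
    · rw [if_neg hkl, if_neg (fun h1 => hkl (by rw [neg_add_eq_zero] at h1; exact h1.symm))]
      split_ifs
      · exact S.τ_a _
      · rw [S.τ_inv, S.τ_a, neg_zero]
      · exact S.τ_one _
  -- the coefficients
  set Θ : ZMod p → D := fun k => (α ^ k.val)⁻¹ * θ * α ^ k.val with hΘ
  have hΘW : ∀ k, Θ k ∈ W 𝒜 ({T k} : Set G) := fun k =>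
    mul_singleton 𝒜 (mul_singleton 𝒜 (hαinv _) hθ) (pow_singleton 𝒜 hα _)
  have hΘ0 : ∀ k, Θ k ≠ 0 := fun k =>
    mul_ne_zero (mul_ne_zero (inv_ne_zero (hαk _)) hθ0) (hαk _)
  set κ : ZMod p → ZMod p → D := fun k l => (α ^ k.val)⁻¹ * x (k - l) * α ^ l.val with hκ
  have hκW : ∀ k l, κ k l ∈ W 𝒜 {g | g ∈ A ∧ ∀ l, l ≠ 0 → X l g = 0} := by
    intro k l
    have h1 : κ k l ∈ W 𝒜 {g | g ∈ U ∧ π g = 1} := by
      refine mul_mem_W 𝒜 (P := {g | g ∈ U ∧ π g = (S.a n ^ l.val)⁻¹}) ?_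
        (mul_mem_W 𝒜 ?_ (hαinv _) (hx _)) (pow_singleton 𝒜 hα _)
      · intro g hg u hu
        rw [Set.mem_singleton_iff] at hu
        rw [hu]
        refine ⟨U.mul_mem hg.1 (U.pow_mem h.ha _), ?_⟩
        rw [h.mul g hg.1 _ (U.pow_mem h.ha _), hg.2, h.π_pow, inv_mul_cancel]
      · intro g hg u hu
        rw [Set.mem_singleton_iff] at hg
        rw [hg]
        have h2 := U.inv_mem (U.pow_mem h.ha k.val)
        refine ⟨U.mul_mem h2 hu.1, ?_⟩
        rw [h.mul _ h2 u hu.1, hu.2, h.π_inv (U.pow_mem h.ha _), h.π_pow]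
        -- `a^(-k) a^(k-l) = a^(-l)`
        rw [eq_inv_iff_mul_eq_one, mul_assoc, ← pow_add, inv_mul_eq_one]
        have h3 : ((k - l).val + l.val) % p = k.val := by
          rw [← ZMod.val_add, sub_add_cancel]
        rw [← Nat.div_add_mod ((k - l).val + l.val) p, h3, pow_add, pow_mul, S.a_pow, one_pow,
          one_mul]
    refine W_mono 𝒜 ?_ h1
    intro g hg
    refine ⟨⟨⟨hg.1, by rw [hg.2, S.c_one]⟩, by rw [hg.2, S.sec_one]; exact Subgroup.one_mem _⟩,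
      ?_⟩
    intro l _
    rw [hX]
    simp only
    rw [hg.2, S.sec_one, S.τ_one]
  have hκx : ∀ k l, κ k l ≠ 0 ↔ x (k - l) ≠ 0 := by
    intro k l
    rw [hκ]
    simp only
    constructor
    · intro h1 h2
      rw [h2, mul_zero, zero_mul] at h1
      exact h1 rfl
    · intro h1
      exact mul_ne_zero (mul_ne_zero (inv_ne_zero (hαk _)) h1) (hαk _)
  set y : ZMod p → D := fun l => (α ^ l.val)⁻¹ * B l with hy
  have heq : ∀ k, ∑ l, κ k l * y l + Θ k * y k = if k = 0 then 1 else 0 := by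
    intro k
    have h1 : ∑ l, κ k l * y l + Θ k * y k =
        (α ^ k.val)⁻¹ * (∑ l, x (k - l) * B l + θ * B k) := by
      rw [mul_add, Finset.mul_sum]
      congr 1
      · refine Finset.sum_congr rfl (fun l _ => ?_)
        rw [hκ, hy]
        simp only
        rw [mul_assoc, mul_inv_cancel_left₀ (hαk _), mul_assoc]
      · rw [hΘ, hy]
        simp only
        rw [mul_assoc, mul_inv_cancel_left₀ (hαk _), mul_assoc]
    rw [h1, hmain k]
    by_cases hk : k = 0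
    · rw [if_pos hk, hk, ZMod.val_zero, pow_zero, inv_one, one_mul]
    · rw [if_neg hk, mul_zero]
  obtain ⟨F, hF, hFy, hFd⟩ := step_alg 𝒜 hp A X hXmul T hTA hXT Θ hΘW hΘ0 κ hκW x hκx hx2 hi hj
    hij y heq
  have hy0 : y 0 = pr 𝒜 (h.nextU : Set G) b := by
    rw [hy]
    simp only
    rw [ZMod.val_zero, pow_zero, inv_one, one_mul]
    rfl
  have hΘ0' : Θ 0 = θ := by
    rw [hΘ]
    simp only
    rw [ZMod.val_zero, pow_zero, inv_one, one_mul, mul_one]
  rw [hy0, hΘ0'] at hFy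
  -- `c` on the next level
  have hkey : ∀ g, S.c (n + 1) (S.sec n (π g) 0) = X (i n) g - X (j n) g := by
    intro g
    rw [S.key n (π g) 0, hX]
    simp only [zero_sub]
  refine ⟨fun m => pr 𝒜 {g | g ∈ (A : Set G) ∧ X (i n) g - X (j n) g = m} F, ?_, ?_, ?_⟩
  · intro m
    refine W_mono 𝒜 ?_ (pr_mem 𝒜 _ F)
    intro g hg
    obtain ⟨⟨hgU, hgz⟩, hgm⟩ := hg
    refine ⟨hgU, ?_⟩
    rw [← hkey] at hgm
    obtain ⟨z, hz⟩ := Subgroup.mem_zpowers_iff.1 hgz
    -- write the exponent as a natural number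
    have hpos : (0 : ℤ) < p := by exact_mod_cast (Fact.out : p.Prime).pos
    have h1 : S.a (n + 1) ^ (z % p).toNat = S.sec n (π g) 0 := by
      rw [← zpow_natCast, Int.toNat_of_nonneg (Int.emod_nonneg _ hpos.ne'), ← hz]
      have h2 : S.a (n + 1) ^ (p : ℤ) = 1 := by rw [zpow_natCast, S.a_pow]
      conv_rhs => rw [← Int.emod_add_mul_ediv z p, zpow_add, zpow_mul, h2, one_zpow, mul_one]
    rw [← h1] at hgm ⊢
    rw [S.c_apow] at hgm
    have h3 : m.val = (z % p).toNat := by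
      rw [← hgm, ZMod.val_natCast, Nat.mod_eq_of_lt]
      have h4 := Int.emod_lt_of_pos z hpos
      omega
    rw [h3]
  · by_contra hcon
    push Not at hcon
    -- all parts but one vanish
    have h1 : ∃ d, ∀ m, m ≠ d → pr 𝒜 {g | g ∈ (A : Set G) ∧ X (i n) g - X (j n) g = m} F = 0 := by
      by_cases h2 : ∃ d, pr 𝒜 {g | g ∈ (A : Set G) ∧ X (i n) g - X (j n) g = d} F ≠ 0
      · obtain ⟨d, hd⟩ := h2
        exact ⟨d, fun m hm => hcon d m hm.symm hd⟩
      · push Not at h2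
        exact ⟨0, fun m _ => h2 m⟩
    obtain ⟨d, hd⟩ := h1
    refine hFd d ?_
    have h2 := sum_pr 𝒜 (A : Set G) (fun g => X (i n) g - X (j n) g) F
    rw [(mem_W 𝒜).1 hF, Finset.sum_eq_single d (fun m _ hm => hd m hm) (by simp)] at h2
    rw [← h2]
    exact pr_mem 𝒜 _ _
  · rw [sum_pr 𝒜 (A : Set G) (fun g => X (i n) g - X (j n) g) F, (mem_W 𝒜).1 hF]
    exact hFy

/-- the descent -/
theorem descent [Fact p.Prime] (hp : p ≠ 2) (hi : ∀ n, i n ≠ 0) (hj : ∀ n, j n ≠ 0)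
    (hij : ∀ n, i n ≠ j n) (h𝒜 : ∀ g : Additive G, 𝒜 g ≠ ⊥) {θ : D} {t' : G}
    (hθ : θ ∈ W 𝒜 ({t'} : Set G)) (hθ0 : θ ≠ 0) (N : ℕ) : ∀ {n : ℕ} {U : Subgroup G}
    {π : G → Γ n} {a' : G} (_ : Stg S n U π a' t') {x : ZMod p → D}
    (_ : ∀ m, x m ∈ W 𝒜 {g | g ∈ U ∧ π g = S.a n ^ m.val})
    (_ : ∃ m₁ m₂, m₁ ≠ m₂ ∧ x m₁ ≠ 0 ∧ x m₂ ≠ 0) {b : D}
    (_ : (∑ m, x m + θ) * b = 1) (B : Finset G) (_ : b ∈ W 𝒜 (B : Set G)) (_ : B.card ≤ N),
    False := by
  classical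
  induction N with
  | zero =>
    intro n U π a' h x hx hx2 b hxb B hB hN
    have h1 : B = ∅ := Finset.card_eq_zero.1 (Nat.le_zero.1 hN)
    rw [h1, Finset.coe_empty, mem_W, pr_empty] at hB
    rw [← hB, mul_zero] at hxb
    exact zero_ne_one hxb
  | succ N ih =>
    intro n U π a' h x hx hx2 b hxb B hB hN
    by_cases hBU : ∀ g ∈ B, g ∈ h.nextU
    · -- then `b` and `∑ x m` are in `W U'`
      have hbU : b ∈ WF 𝒜 h.nextU := W_mono 𝒜 (fun g hg => hBU g hg) hB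
      have hs : (∑ m, x m + θ) ∈ WF 𝒜 h.nextU := by
        rw [eq_inv_of_mul_eq_one_left hxb]
        exact inv_mem hbU
      have hθU : θ ∈ WF 𝒜 h.nextU := by
        refine W_mono 𝒜 ?_ hθ
        intro g hg
        rw [Set.mem_singleton_iff] at hg
        rw [hg]
        exact ⟨h.ht, by rw [h.πt, S.c_t]⟩
      have hsx : (∑ m, x m) ∈ WF 𝒜 h.nextU := by
        have h1 := sub_mem hs hθU
        rwa [add_sub_cancel_right] at h1
      have hzero : ∀ m, m ≠ 0 → x m = 0 := by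
        intro m hm
        have h1 : pr 𝒜 {g | g ∈ U ∧ S.c n (π g) = m} (∑ m, x m) = x m := by
          rw [map_sum, Finset.sum_eq_single m]
          · refine pr_eq_self 𝒜 (hx m) ?_
            intro g hg
            refine ⟨hg.1, ?_⟩
            rw [hg.2, S.c_apow, ZMod.natCast_val, ZMod.cast_id]
          · intro l _ hl
            refine pr_zero_of 𝒜 ?_ (hx l)
            intro g hg hg'
            apply hl
            have h2 := hg'.2
            rw [hg.2, S.c_apow, ZMod.natCast_val, ZMod.cast_id] at h2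
            exact h2
          · simp
        rw [← h1]
        refine pr_zero_of 𝒜 ?_ hsx
        intro g hg hg'
        apply hm
        rw [← hg'.2]
        exact hg.2
      obtain ⟨m₁, m₂, hm, h1, h2⟩ := hx2
      by_cases hm1 : m₁ = 0
      · exact h2 (hzero m₂ (fun h3 => hm (by rw [hm1, h3])))
      · exact h1 (hzero m₁ hm1)
    · push Not at hBU
      obtain ⟨g, hgB, hgU⟩ := hBU
      obtain ⟨x', hx'1, hx'2, hx'3⟩ := step 𝒜 hp h (hi n) (hj n) (hij n) h𝒜 hθ hθ0 hx hx2 hxb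
      refine ih (h.next (hi n)) hx'1 hx'2 hx'3
        (B.filter (fun g => g ∈ h.nextU)) ?_ ?_
      · refine W_mono 𝒜 ?_ (pr_mem_inter 𝒜 (Q := (h.nextU : Set G)) hB)
        intro u hu
        rw [Finset.coe_filter]
        exact ⟨hu.2, hu.1⟩
      · have h1 : B.filter (fun g => g ∈ h.nextU) ⊂ B := by
          rw [Finset.filter_ssubset]
          exact ⟨g, hgB, hgU⟩
        have h2 := Finset.card_lt_card h1
        omega

/-- the start of the descent -/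
theorem no_stage [Fact p.Prime] (hp : p ≠ 2) (hi : ∀ n, i n ≠ 0) (hj : ∀ n, j n ≠ 0)
    (hij : ∀ n, i n ≠ j n) (h𝒜 : ∀ g : Additive G, 𝒜 g ≠ ⊥) {U : Subgroup G}
    {π : G → Γ 0} {a' t' : G} (h : Stg S 0 U π a' t') : False := by
  classical
  have h1 : ∀ g : G, ∃ α ∈ 𝒜 (Additive.ofMul g), α ≠ 0 := by
    intro g
    obtain ⟨c, hc⟩ := AddSubgroup.ne_bot_iff_exists_ne_zero.1 (h𝒜 (Additive.ofMul g))
    exact ⟨c, c.2, fun h0 => hc (Subtype.ext h0)⟩
  obtain ⟨α, hα, hα0⟩ := h1 a'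
  obtain ⟨θ, hθ, hθ0⟩ := h1 t'
  set x : ZMod p → D := fun m => if m = 0 then 1 else if m = 1 then α else 0 with hx
  have h01 : (1 : ZMod p) ≠ 0 := one_ne_zero
  have x0 : x 0 = 1 := if_pos rfl
  have x1 : x 1 = α := (if_neg h01).trans (if_pos rfl)
  have hval1 : (1 : ZMod p).val = 1 := by
    have : Fact (1 < p) := ⟨(Fact.out : p.Prime).one_lt⟩
    exact ZMod.val_one p
  have hxW : ∀ m, x m ∈ W 𝒜 {g | g ∈ U ∧ π g = S.a 0 ^ m.val} := by
    intro m
    by_cases hm : m = 0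
    · rw [hm, x0]
      refine one_mem_W 𝒜 ⟨U.one_mem, ?_⟩
      rw [h.π_one, ZMod.val_zero, pow_zero]
    · by_cases hm1 : m = 1
      · rw [hm1, x1]
        refine hom_mem 𝒜 hα ⟨h.ha, ?_⟩
        rw [h.πa, hval1, pow_one]
      · rw [hx]
        simp only
        rw [if_neg hm, if_neg hm1]
        exact zero_mem _
  have hne : ∑ m, x m + θ ≠ 0 := by
    intro h0
    have h2 : pr 𝒜 {g | g ∈ U ∧ π g = 1} (∑ m, x m + θ) = 1 := by
      rw [map_add, map_sum, Finset.sum_eq_single 0]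
      · rw [x0, pr_one, if_pos ⟨U.one_mem, h.π_one⟩, pr_zero_of 𝒜 ?_ (hom_singleton 𝒜 hθ),
          add_zero]
        intro g hg hg'
        rw [Set.mem_singleton_iff] at hg
        have h3 := hg'.2
        rw [hg, h.πt] at h3
        have h4 := S.τ_t 0
        rw [h3, S.τ_one] at h4
        exact zero_ne_one h4
      · intro m _ hm
        refine pr_zero_of 𝒜 ?_ (hxW m)
        intro g hg hg'
        apply hm
        have h3 := hg'.2
        rw [hg.2] at h3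
        have h4 := S.c_apow 0 m.val
        rw [h3, S.c_one, ZMod.natCast_val, ZMod.cast_id] at h4
        exact h4.symm
      · simp
    rw [h0, map_zero] at h2
    exact zero_ne_one h2
  obtain ⟨B, hB⟩ := exists_finset 𝒜 (∑ m, x m + θ)⁻¹
  exact descent 𝒜 hp hi hj hij h𝒜 (hom_singleton 𝒜 hθ) hθ0 B.card h hxW
    ⟨0, 1, h01.symm, by rw [x0]; exact one_ne_zero, by rw [x1]; exact hα0⟩
    (mul_inv_cancel₀ hne) B hB le_rfl

end Pool.Agent.Work.MP87745.GS
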